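import Pool.Agent.H18.CS.Iter

set_option autoImplicit false

/-!
Van der Corput's inequality for moduli at one position.
-/

namespace Pool.Agent.H18.CS

open Finset

/-- all sums over intervals of length at most `X` which start between `M` and `M + R` are small -/
def BndAt (g : ℤ → ℂ) (X Y : ℝ) (M : ℤ) (R : ℕ) : Prop :=
  ∀ j : ℕ, j ≤ R → ∀ L : ℕ, (L : ℝ) ≤ X → ‖I g (M + j) L‖ ≤ Y * X

lemma BndAt.of_one {g : ℤ → ℂ} (hg : B1 g) {X Y : ℝ} (hY : 1 ≤ Y) (M : ℤ) (R : ℕ) :
    BndAt g X Y M R := fun j _ L hL => Bnd.of_one hg hY (M + j) L hL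

/-- van der Corput's inequality for moduli at one position -/
theorem vdcAt (good : ℕ → Prop) [DecidablePred good] (f g : ℤ → ℂ) (hf : B1 f) (hg : B1 g) (q : ℕ)
    (hfq : Per q f) (X Y κ : ℝ) (H : ℕ) (hY : 0 ≤ Y) (hκ : 0 ≤ κ) (hH : 1 ≤ κ * H)
    (hHq : (H : ℝ) * q ≤ κ * X)
    (hbad : (((Finset.Ico 1 H).filter (fun d => ¬ good d)).card : ℝ) ≤ κ * H) (M : ℤ)
    (hgood : ∀ d : ℕ, good d → ∀ h : ℕ, h < H → ∀ L : ℕ, (L : ℝ) ≤ X →
      ‖I (D ((d * q : ℕ) : ℤ) g) (M + (h * q : ℕ)) L‖ ≤ Y * X) (L : ℕ) (hL : (L : ℝ) ≤ X) :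
    ‖I (f * g) M L‖ ≤ (Real.sqrt (Y + 3 * κ) + 2 * κ) * X := by
  have hX : 0 ≤ X := (Nat.cast_nonneg L).trans hL
  have hH1 : 1 ≤ H := by
    rcases Nat.eq_zero_or_pos H with h | h
    · rw [h] at hH; norm_num at hH
    · exact h
  have hH0 : (0 : ℝ) < H := by exact_mod_cast hH1
  refine (I_avg (hf.mul hg) M L q H hH1).trans ?_
  have e1 : 2 * ((H : ℝ) * q) ≤ 2 * κ * X := by linarith
  -- the main term
  have e2 : ∑ h ∈ range H, I (f * g) (M + (h * q : ℕ)) L =
      ∑ i ∈ range L, f (M + i) * ∑ h ∈ range H, g (M + i + (h * q : ℕ)) := by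
    unfold I
    rw [sum_comm]
    apply sum_congr rfl
    intro i _
    rw [mul_sum]
    apply sum_congr rfl
    intro h _
    have h1 : M + ((h * q : ℕ) : ℤ) + i = M + i + h * q := by push_cast; ring
    have h2 : M + (i : ℤ) + ((h * q : ℕ) : ℤ) = M + i + h * q := by push_cast; ring
    rw [h1, h2, Pi.mul_apply, hfq.mul_nat]
  have e3 : ‖∑ h ∈ range H, I (f * g) (M + (h * q : ℕ)) L‖ ≤
      ∑ i ∈ range L, ‖∑ h ∈ range H, g (M + i + (h * q : ℕ))‖ := by
    rw [e2]
    refine (norm_sum_le _ _).trans (sum_le_sum fun i _ => ?_)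
    rw [norm_mul]
    calc _ ≤ 1 * ‖∑ h ∈ range H, g (M + i + (h * q : ℕ))‖ := by
          apply mul_le_mul_of_nonneg_right (hf _) (norm_nonneg _)
      _ = _ := one_mul _
  have e4 : (∑ i ∈ range L, ‖∑ h ∈ range H, g (M + i + (h * q : ℕ))‖) ^ 2 ≤
      L * ∑ i ∈ range L, ‖∑ h ∈ range H, g (M + i + (h * q : ℕ))‖ ^ 2 := by
    have := sq_sum_le_card_mul_sum_sq (s := range L)
      (f := fun i => ‖∑ h ∈ range H, g (M + i + (h * q : ℕ))‖)
    rwa [card_range] at this
  have e5 : ∑ i ∈ range L, ‖∑ h ∈ range H, g (M + i + (h * q : ℕ))‖ ^ 2 ≤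
      ∑ h ∈ range H, ∑ h' ∈ range H,
        ‖∑ i ∈ range L, g (M + i + (h * q : ℕ)) * (starRingEnd ℂ) (g (M + i + (h' * q : ℕ)))‖ := by
    have h1 : ((∑ i ∈ range L, ‖∑ h ∈ range H, g (M + i + (h * q : ℕ))‖ ^ 2 : ℝ) : ℂ) =
        ∑ h ∈ range H, ∑ h' ∈ range H,
          ∑ i ∈ range L, g (M + i + (h * q : ℕ)) * (starRingEnd ℂ) (g (M + i + (h' * q : ℕ))) := by
      push_cast
      have h2 : ∀ h ∈ range H, ∑ h' ∈ range H,
          ∑ i ∈ range L, g (M + i + (h * q : ℕ)) * (starRingEnd ℂ) (g (M + i + (h' * q : ℕ))) =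
          ∑ i ∈ range L, ∑ h' ∈ range H,
            g (M + i + (h * q : ℕ)) * (starRingEnd ℂ) (g (M + i + (h' * q : ℕ))) := by
        intro h _
        rw [sum_comm]
      push_cast at h2
      rw [sum_congr rfl h2, sum_comm]
      apply sum_congr rfl
      intro i _
      rw [← Complex.mul_conj', map_sum, sum_mul_sum]
    have h2 : (∑ i ∈ range L, ‖∑ h ∈ range H, g (M + i + (h * q : ℕ))‖ ^ 2 : ℝ) =
        ‖((∑ i ∈ range L, ‖∑ h ∈ range H, g (M + i + (h * q : ℕ))‖ ^ 2 : ℝ) : ℂ)‖ := by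
      rw [Complex.norm_real, Real.norm_of_nonneg]
      exact sum_nonneg fun i _ => by positivity
    rw [h2, h1]
    refine (norm_sum_le _ _).trans (sum_le_sum fun h _ => ?_)
    exact norm_sum_le _ _
  have e6 : ∀ h ∈ range H, ∑ h' ∈ range H,
        ‖∑ i ∈ range L, g (M + i + (h * q : ℕ)) * (starRingEnd ℂ) (g (M + i + (h' * q : ℕ)))‖ ≤
      H * X * (Y + 3 * κ) := by
    intro h hh
    rw [mem_range] at hh
    have h1 : ∀ h' ∈ range H,
        ‖∑ i ∈ range L, g (M + i + (h * q : ℕ)) * (starRingEnd ℂ) (g (M + i + (h' * q : ℕ)))‖ ≤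
        (if ¬ (h ≠ h' ∧ good (max h h' - min h h')) then X else 0) + Y * X := by
      intro h' hh'
      rw [mem_range] at hh'
      by_cases hc : h ≠ h' ∧ good (max h h' - min h h')
      swap
      · rw [if_pos hc]
        have h2 : ‖∑ i ∈ range L, g (M + i + (h * q : ℕ)) *
            (starRingEnd ℂ) (g (M + i + (h' * q : ℕ)))‖ ≤ L := by
          refine (norm_sum_le _ _).trans ?_
          calc _ ≤ ∑ i ∈ range L, (1 : ℝ) := by
                apply sum_le_sum
                intro i _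
                rw [norm_mul, RCLike.norm_conj]
                exact mul_le_one₀ (hg _) (norm_nonneg _) (hg _)
            _ = L := by simp
        have h3 : 0 ≤ Y * X := mul_nonneg hY hX
        linarith
      · rw [if_neg (not_not.mpr hc)]
        obtain ⟨hne, hgd⟩ := hc
        rw [zero_add]
        rcases lt_or_gt_of_ne hne with h3 | h3
        · rw [max_eq_right h3.le, min_eq_left h3.le] at hgd
          rw [inner_eq g M L q h h' h3.le]
          exact hgood _ hgd _ hh _ hL
        · rw [max_eq_left h3.le, min_eq_right h3.le] at hgd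
          have h4 : ∑ i ∈ range L, g (M + i + (h * q : ℕ)) *
              (starRingEnd ℂ) (g (M + i + (h' * q : ℕ))) =
              (starRingEnd ℂ) (∑ i ∈ range L, g (M + i + (h' * q : ℕ)) *
              (starRingEnd ℂ) (g (M + i + (h * q : ℕ)))) := by
            rw [map_sum]
            apply sum_congr rfl
            intro i _
            rw [map_mul, Complex.conj_conj, mul_comm]
          rw [h4, RCLike.norm_conj, inner_eq g M L q h' h h3.le]
          exact hgood _ hgd _ hh' _ hL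
    refine (sum_le_sum h1).trans ?_
    rw [sum_add_distrib, ← sum_filter, sum_const, sum_const, card_range, nsmul_eq_mul, nsmul_eq_mul]
    have h2 : (((range H).filter (fun h' => ¬ (h ≠ h' ∧ good (max h h' - min h h')))).card : ℝ) ≤
        1 + 2 * (((Finset.Ico 1 H).filter (fun d => ¬ good d)).card : ℝ) := by
      exact_mod_cast count_bad good H h hh
    have h3 : (((range H).filter (fun h' => ¬ (h ≠ h' ∧ good (max h h' - min h h')))).card : ℝ) ≤
        3 * κ * H := by linarith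
    have h4 := mul_le_mul_of_nonneg_right h3 hX
    linarith
  have e7 : (∑ i ∈ range L, ‖∑ h ∈ range H, g (M + i + (h * q : ℕ))‖) ^ 2 ≤
      (H * X) ^ 2 * (Y + 3 * κ) := by
    refine e4.trans ?_
    have h1 : ∑ i ∈ range L, ‖∑ h ∈ range H, g (M + i + (h * q : ℕ))‖ ^ 2 ≤
        H * (H * X * (Y + 3 * κ)) := by
      refine e5.trans ((sum_le_sum e6).trans ?_)
      rw [sum_const, card_range, nsmul_eq_mul]
    have h2 : 0 ≤ (H : ℝ) * (H * X * (Y + 3 * κ)) := by positivity
    calc _ ≤ (L : ℝ) * (H * (H * X * (Y + 3 * κ))) := mul_le_mul_of_nonneg_left h1 (Nat.cast_nonneg L)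
      _ ≤ X * (H * (H * X * (Y + 3 * κ))) := mul_le_mul_of_nonneg_right hL h2
      _ = _ := by ring
  have e8 : ∑ i ∈ range L, ‖∑ h ∈ range H, g (M + i + (h * q : ℕ))‖ ≤
      H * X * Real.sqrt (Y + 3 * κ) := by
    have h1 : 0 ≤ H * X * Real.sqrt (Y + 3 * κ) := by positivity
    apply le_of_sq_le_sq _ h1
    rw [mul_pow, Real.sq_sqrt (by positivity)]
    exact e7
  have e9 : ‖∑ h ∈ range H, I (f * g) (M + (h * q : ℕ)) L‖ / H ≤ X * Real.sqrt (Y + 3 * κ) := by
    rw [div_le_iff₀ hH0]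
    refine (e3.trans e8).trans (le_of_eq ?_)
    ring
  calc _ ≤ X * Real.sqrt (Y + 3 * κ) + 2 * κ * X := add_le_add e9 e1
    _ = _ := by ring

/-- the simplified inequality near one position -/
theorem vdcAt' (f g : ℤ → ℂ) (hf : B1 f) (hg : B1 g) (q : ℕ)
    (hfq : Per q f) (X Y κ : ℝ) (H : ℕ) (hκ : 0 ≤ κ) (hκY : κ ≤ Y) (hH : 1 ≤ κ * H)
    (hHq : (H : ℝ) * q ≤ κ * X) (good : ℕ → Prop) [DecidablePred good]
    (hbad : (((Finset.Ico 1 H).filter (fun d => ¬ good d)).card : ℝ) ≤ κ * H) (M : ℤ) (R : ℕ)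
    (hgood : ∀ d : ℕ, good d → BndAt (D ((d * q : ℕ) : ℤ) g) X Y M (R + H * q)) :
    BndAt (f * g) X (4 * Real.sqrt Y) M R := by
  have hY : 0 ≤ Y := hκ.trans hκY
  by_cases hY1 : Y ≤ 1
  · intro j hj L hL
    have hX : 0 ≤ X := (Nat.cast_nonneg L).trans hL
    have h0 := vdcAt good f g hf hg q hfq X Y κ H hY hκ hH hHq hbad (M + j) (by
      intro d hd h hh L' hL'
      have h1 : M + (j : ℤ) + ((h * q : ℕ) : ℤ) = M + ((j + h * q : ℕ) : ℤ) := by push_cast; ring
      rw [h1]
      apply hgood d hd _ _ L' hL'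
      have : h * q ≤ H * q := Nat.mul_le_mul_right q hh.le
      omega) L hL
    refine h0.trans (mul_le_mul_of_nonneg_right ?_ hX)
    have h1 : Real.sqrt (Y + 3 * κ) ≤ 2 * Real.sqrt Y := by
      rw [show (2 : ℝ) * Real.sqrt Y = Real.sqrt (4 * Y) by
        rw [Real.sqrt_mul (by norm_num), show (4 : ℝ) = 2 ^ 2 by norm_num,
          Real.sqrt_sq (by norm_num)]]
      apply Real.sqrt_le_sqrt
      linarith
    have h2 : Y ≤ Real.sqrt Y := by
      apply Real.le_sqrt_of_sq_le
      nlinarith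
    linarith
  · push Not at hY1
    apply BndAt.of_one (hf.mul hg)
    have : 1 ≤ Real.sqrt Y := by
      rw [Real.one_le_sqrt]; exact hY1.le
    linarith

open Classical in
/-- `P` holds for most of the differences, and so on -/
noncomputable def MostB (κ : ℝ) (P : (ℤ → ℂ) → Prop) : List (ℕ × ℕ) → (ℤ → ℂ) → Prop
  | [], g => P g
  | x :: l, g => (((Finset.Ico 1 x.2).filter
      (fun d => ¬ MostB κ P l (D ((d * x.1 : ℕ) : ℤ) g))).card : ℝ) ≤ κ * x.2

/-- the sum of the lengths of the shifts -/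
def totR : List (ℕ × ℕ) → ℕ
  | [] => 0
  | x :: l => totR l + x.2 * x.1

/-- the iterated inequality near one position -/
theorem iterAt (X κ : ℝ) (hκ : 0 ≤ κ) (hκ1 : κ ≤ 1) (Y : ℝ) (hY : κ ≤ Y) (M : ℤ) 
    (l : List ((ℕ × ℕ) × (ℤ → ℂ))) : ∀ (g : ℤ → ℂ) (R : ℕ), B1 g →
    (∀ x ∈ l, B1 x.2 ∧ Per x.1.1 x.2 ∧ 1 ≤ κ * x.1.2 ∧ (x.1.2 : ℝ) * x.1.1 ≤ κ * X) →
    MostB κ (fun g => BndAt g X Y M (R + totR (l.map Prod.fst))) (l.map Prod.fst) g →
    BndAt ((l.map Prod.snd).prod * g) X (it l.length Y) M R := by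
  classical
  induction hn : l.length generalizing l with
  | zero =>
    intro g R hg _ hall
    rw [List.length_eq_zero_iff] at hn
    subst hn
    simp only [List.map_nil, List.prod_nil, one_mul]
    exact hall
  | succ n ih =>
    intro g R hg hl hall
    obtain ⟨x, l', rfl⟩ := List.exists_cons_of_length_eq_add_one hn
    obtain ⟨⟨q, H⟩, f⟩ := x
    obtain ⟨hf, hfq, hH1, hH2⟩ := hl ((q, H), f) (by simp)
    dsimp only at hf hfq hH1 hH2
    rw [List.map_cons, List.prod_cons, mul_assoc]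
    have hF : B1 ((l'.map Prod.snd).prod * g) := by
      apply B1.mul _ hg
      apply B1_prod
      intro f' hf'
      rw [List.mem_map] at hf'
      obtain ⟨y, hy, rfl⟩ := hf'
      exact (hl y (by simp [hy])).1
    have hn' : l'.length = n := by simpa using hn
    have hall' : (((Finset.Ico 1 H).filter (fun d => ¬ MostB κ
        (fun g => BndAt g X Y M (R + totR (((q, H), f) :: l' |>.map Prod.fst)))
        (l'.map Prod.fst) (D ((d * q : ℕ) : ℤ) g))).card : ℝ) ≤ κ * H := hall
    apply vdcAt' f _ hf hF q hfq X (it n Y) κ H hκ (it_ge κ hκ hκ1 Y hY n) hH1 hH2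
      (fun d => MostB κ (fun g => BndAt g X Y M (R + totR (((q, H), f) :: l' |>.map Prod.fst)))
        (l'.map Prod.fst) (D ((d * q : ℕ) : ℤ) g)) (by convert hall') M R
    intro d hd
    rw [D_mul, D_prod, List.map_map]
    have hR : R + totR (List.map Prod.fst (((q, H), f) :: l')) =
        R + H * q + totR (List.map Prod.fst l') := by
      show R + (totR (List.map Prod.fst l') + H * q) = _
      omega
    have := ih (l'.map (fun y => (y.1, D ((d * q : ℕ) : ℤ) y.2))) (by simpa using hn')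
      (D ((d * q : ℕ) : ℤ) g) (R + H * q) (hg.D _) (by
        intro y hy
        rw [List.mem_map] at hy
        obtain ⟨y', hy', rfl⟩ := hy
        obtain ⟨h1, h2, h3⟩ := hl y' (by simp [hy'])
        exact ⟨h1.D _, h2.D _, h3⟩) (by
        rw [List.map_map]
        have e : (Prod.fst ∘ fun y : (ℕ × ℕ) × (ℤ → ℂ) => (y.1, D ((d * q : ℕ) : ℤ) y.2)) =
            Prod.fst := rfl
        rw [e, ← hR]
        exact hd)
    rw [List.map_map] at this
    exact this

open Classical in
/-- the number of the tuples of good differences for which `P` fails -/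
noncomputable def cnt (good : ℕ → Prop) (P : (ℤ → ℂ) → Prop) : List (ℕ × ℕ) → (ℤ → ℂ) → ℝ
  | [], g => if P g then 0 else 1
  | x :: l, g => ∑ d ∈ (Finset.Ico 1 x.2).filter good, cnt good P l (D ((d * x.1 : ℕ) : ℤ) g)

/-- the threshold -/
noncomputable def thr (κ : ℝ) : List (ℕ × ℕ) → ℝ
  | [] => 1
  | x :: l => κ * x.2 * thr κ l

lemma cnt_nonneg (good : ℕ → Prop) (P : (ℤ → ℂ) → Prop) (l : List (ℕ × ℕ)) :
    ∀ g : ℤ → ℂ, 0 ≤ cnt good P l g := by
  induction l with
  | nil => intro g; unfold cnt; split_ifs <;> norm_num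
  | cons x l ih => intro g; unfold cnt; exact sum_nonneg fun d _ => ih _

open Classical in
/-- few bad tuples -/
theorem most_of_cnt (good : ℕ → Prop) (P : (ℤ → ℂ) → Prop) (κ : ℝ) (hκ : 0 < κ)
    (l : List (ℕ × ℕ)) : ∀ g : ℤ → ℂ,
    (∀ x ∈ l, 0 < x.2 ∧ (((Finset.Ico 1 x.2).filter (fun d => ¬ good d)).card : ℝ) ≤ κ * x.2) →
    cnt good P l g < thr κ l → MostB (2 * κ) P l g := by
  induction l with
  | nil =>
    intro g _ h
    unfold cnt thr at h
    by_contra hc
    have hc' : ¬ P g := hc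
    rw [if_neg hc'] at h
    norm_num at h
  | cons x l ih =>
    intro g hl h
    obtain ⟨hx0, hx⟩ := hl x (by simp)
    have hthr : 0 < thr κ l := by
      clear ih h hx
      have : ∀ l' : List (ℕ × ℕ), (∀ y ∈ l', 0 < y.2) → 0 < thr κ l' := by
        intro l'
        induction l' with
        | nil => intro _; unfold thr; norm_num
        | cons y l' ih' =>
          intro hy
          unfold thr
          have h1 : (0 : ℝ) < y.2 := by exact_mod_cast hy y (by simp)
          have h2 := ih' fun z hz => hy z (by simp [hz])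
          positivity
      exact this l fun y hy => (hl y (by simp [hy])).1
    unfold MostB
    set A := (Finset.Ico 1 x.2).filter (fun d => ¬ good d) with hA
    set B := ((Finset.Ico 1 x.2).filter good).filter
      (fun d => ¬ cnt good P l (D ((d * x.1 : ℕ) : ℤ) g) < thr κ l) with hB
    have hsub : (Finset.Ico 1 x.2).filter
        (fun d => ¬ MostB (2 * κ) P l (D ((d * x.1 : ℕ) : ℤ) g)) ⊆ A ∪ B := by
      intro d hd
      rw [mem_filter] at hd
      rw [mem_union, hA, hB, mem_filter, mem_filter, mem_filter]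
      by_cases hg : good d
      · right
        refine ⟨⟨hd.1, hg⟩, fun hc => hd.2 ?_⟩
        exact ih _ (fun y hy => hl y (by simp [hy])) hc
      · left
        exact ⟨hd.1, hg⟩
    have h1 := card_le_card hsub
    have h2 := card_union_le A B
    have h3 : (B.card : ℝ) * thr κ l ≤ cnt good P (x :: l) g := by
      show _ ≤ ∑ d ∈ (Finset.Ico 1 x.2).filter good, cnt good P l (D ((d * x.1 : ℕ) : ℤ) g)
      have e1 : ∑ d ∈ B, thr κ l ≤ ∑ d ∈ B, cnt good P l (D ((d * x.1 : ℕ) : ℤ) g) := by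
        apply sum_le_sum
        intro d hd
        rw [hB, mem_filter] at hd
        exact not_lt.mp hd.2
      have e2 : ∑ d ∈ B, cnt good P l (D ((d * x.1 : ℕ) : ℤ) g) ≤
          ∑ d ∈ (Finset.Ico 1 x.2).filter good, cnt good P l (D ((d * x.1 : ℕ) : ℤ) g) :=
        sum_le_sum_of_subset_of_nonneg (filter_subset _ _) fun d _ _ => cnt_nonneg _ _ _ _
      rw [sum_const, nsmul_eq_mul] at e1
      exact e1.trans e2
    have h4 : (B.card : ℝ) * thr κ l < κ * x.2 * thr κ l := lt_of_le_of_lt h3 h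
    have h5 : (B.card : ℝ) < κ * x.2 := lt_of_mul_lt_mul_right h4 hthr.le
    have h6 : (((Finset.Ico 1 x.2).filter
        (fun d => ¬ MostB (2 * κ) P l (D ((d * x.1 : ℕ) : ℤ) g))).card : ℝ) ≤
        (A.card : ℝ) + B.card := by
      exact_mod_cast h1.trans h2
    linarith

open Classical in
/-- the sum over the positions -/
theorem sum_cnt {ι : Type*} (E : Finset ι) (good : ℕ → Prop) (P : ι → (ℤ → ℂ) → Prop)
    (C : ℤ → Prop) (Z : ℝ) (hZ : 0 ≤ Z) (l : List (ℕ × ℕ)) : ∀ g : ℤ → ℂ,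
    (∀ x ∈ l, ∀ d : ℕ, good d → C ((d * x.1 : ℕ) : ℤ)) →
    (∀ as : List ℤ, as.length = l.length → (∀ a ∈ as, C a) →
      ((E.filter (fun i => ¬ P i (Ds as g))).card : ℝ) ≤ Z) →
    ∑ i ∈ E, cnt good (P i) l g ≤ (l.map (fun x => (x.2 : ℝ))).prod * Z := by
  induction l with
  | nil =>
    intro g _ h
    have h1 := h [] rfl (by simp)
    have h2 : ∑ i ∈ E, cnt good (P i) [] g = ((E.filter (fun i => ¬ P i (Ds [] g))).card : ℝ) := by
      rw [card_filter]
      push_cast
      apply sum_congr rfl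
      intro i _
      show (if P i g then (0 : ℝ) else 1) = if ¬ P i g then 1 else 0
      split_ifs <;> simp_all
    rw [h2]
    simpa using h1
  | cons x l ih =>
    intro g hC h
    show ∑ i ∈ E, ∑ d ∈ (Finset.Ico 1 x.2).filter good, cnt good (P i) l (D ((d * x.1 : ℕ) : ℤ) g) ≤ _
    rw [sum_comm]
    have h1 : ∀ d ∈ (Finset.Ico 1 x.2).filter good,
        ∑ i ∈ E, cnt good (P i) l (D ((d * x.1 : ℕ) : ℤ) g) ≤
        (l.map (fun x => (x.2 : ℝ))).prod * Z := by
      intro d hd
      rw [mem_filter] at hd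
      apply ih
      · intro y hy d' hd'
        exact hC y (by simp [hy]) d' hd'
      · intro as has hCas
        exact h (((d * x.1 : ℕ) : ℤ) :: as) (by simp [has]) (by
          intro a ha
          rcases List.mem_cons.mp ha with rfl | ha
          · exact hC x (by simp) d hd.2
          · exact hCas a ha)
    refine (sum_le_sum h1).trans ?_
    rw [sum_const, nsmul_eq_mul, List.map_cons, List.prod_cons, mul_assoc]
    apply mul_le_mul_of_nonneg_right
    · have : ((Finset.Ico 1 x.2).filter good).card ≤ x.2 := by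
        refine (card_le_card (filter_subset _ _)).trans ?_
        rw [Nat.card_Ico]
        omega
      exact_mod_cast this
    · apply mul_nonneg _ hZ
      apply List.prod_nonneg
      intro y hy
      rw [List.mem_map] at hy
      obtain ⟨a, _, rfl⟩ := hy
      exact Nat.cast_nonneg _

lemma thr_eq (κ : ℝ) (l : List (ℕ × ℕ)) :
    thr κ l = κ ^ l.length * (l.map (fun x => (x.2 : ℝ))).prod := by
  induction l with
  | nil => simp [thr]
  | cons x l ih =>
    unfold thr
    rw [ih, List.length_cons, List.map_cons, List.prod_cons, pow_succ]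
    ring

end Pool.Agent.H18.CS
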