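import Pool.Agent.H18.CS.Iter

set_option autoImplicit false

/-!
Sums over intervals of a periodic function with small correlations.
-/

namespace Pool.Agent.H18.CS

open Finset

section

variable {β : Type*} [AddCommGroup β]

lemma sum_shift_one (W : ℤ → β) (M : ℤ) (L : ℕ) :
    ∑ i ∈ range L, W (M + i) - ∑ i ∈ range L, W (M + 1 + i) = W M - W (M + L) := by
  have h1 := Finset.sum_range_succ (fun i : ℕ => W (M + i)) L
  have h2 := Finset.sum_range_succ' (fun i : ℕ => W (M + i)) L
  rw [h1] at h2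
  have h3 : ∑ i ∈ range L, W (M + 1 + i) = ∑ i ∈ range L, W (M + ((i + 1 : ℕ) : ℤ)) := by
    apply sum_congr rfl
    intro i _
    congr 1
    push_cast
    ring
  have h4 : W (M + ((0 : ℕ) : ℤ)) = W M := by simp
  rw [h4] at h2
  rw [h3, sub_eq_sub_iff_add_eq_add, h2, add_comm]

lemma sum_period (W : ℤ → β) (m : ℕ) (hW : ∀ n, W (n + m) = W n) (M : ℤ) :
    ∑ i ∈ range m, W (M + i) = ∑ x ∈ range m, W (x : ℤ) := by
  have h1 : ∀ M : ℤ, ∑ i ∈ range m, W (M + 1 + i) = ∑ i ∈ range m, W (M + i) := by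
    intro M
    have := sum_shift_one W M m
    rw [hW, sub_self, sub_eq_zero] at this
    exact this.symm
  have h2 : ∀ k : ℕ, ∀ M : ℤ, ∑ i ∈ range m, W (M + k + i) = ∑ i ∈ range m, W (M + i) := by
    intro k
    induction k with
    | zero => intro M; simp
    | succ k ih =>
      intro M
      rw [← ih M, ← h1 (M + k)]
      apply sum_congr rfl
      intro i _
      congr 1
      push_cast
      ring
  have h3 : ∑ i ∈ range m, W (M + i) = ∑ i ∈ range m, W (0 + i) := by
    obtain ⟨k, rfl | rfl⟩ := M.eq_nat_or_neg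
    · have := h2 k 0
      rw [← this]
      simp
    · have := h2 k (-(k : ℤ))
      rw [← this]
      apply sum_congr rfl
      intro i _
      congr 1
      ring
  rw [h3]
  simp

end

lemma sum_le_periods (W : ℤ → ℝ) (hW0 : ∀ n, 0 ≤ W n) (m : ℕ) (hm : 1 ≤ m)
    (hW : ∀ n, W (n + m) = W n) (M : ℤ) (K : ℕ) :
    ∑ i ∈ range K, W (M + i) ≤ ((K : ℝ) / m + 1) * ∑ x ∈ range m, W (x : ℤ) := by
  have h1 : ∀ k : ℕ, ∑ i ∈ range (k * m), W (M + i) = k * ∑ x ∈ range m, W (x : ℤ) := by
    intro k
    induction k with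
    | zero => simp
    | succ k ih =>
      rw [Nat.succ_mul, sum_range_add, ih]
      have : ∑ x ∈ range m, W (M + ((k * m + x : ℕ) : ℤ)) = ∑ x ∈ range m, W (x : ℤ) := by
        rw [← sum_period W m hW (M + k * m)]
        apply sum_congr rfl
        intro i _
        congr 1
        push_cast
        ring
      rw [this]
      push_cast
      ring
  have h2 : range K ⊆ range ((K / m + 1) * m) := by
    intro i hi
    rw [mem_range] at hi ⊢
    have := Nat.lt_div_mul_add (a := K) (b := m) (by omega)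
    rw [Nat.add_mul, one_mul]
    omega
  refine (sum_le_sum_of_subset_of_nonneg h2 (fun i _ _ => hW0 _)).trans ?_
  rw [h1]
  apply mul_le_mul_of_nonneg_right _ (sum_nonneg fun _ _ => hW0 _)
  push_cast
  have : ((K / m : ℕ) : ℝ) ≤ (K : ℝ) / m := Nat.cast_div_le
  linarith

lemma sum_gcd (m L : ℕ) (hm : 1 ≤ m) :
    ∑ z ∈ Finset.Ico 1 L, (Nat.gcd z m : ℝ) ≤ L * (m.divisors.card : ℝ) := by
  have h1 : ∀ z ∈ Finset.Ico 1 L, (Nat.gcd z m : ℝ) ≤
      ∑ e ∈ m.divisors, if e ∣ z then (e : ℝ) else 0 := by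
    intro z _
    have h2 : Nat.gcd z m ∈ m.divisors := by
      rw [Nat.mem_divisors]; exact ⟨Nat.gcd_dvd_right _ _, by omega⟩
    have h3 := single_le_sum (f := fun e : ℕ => if e ∣ z then (e : ℝ) else 0) (s := m.divisors)
      (fun e _ => by split_ifs <;> positivity) h2
    rw [if_pos (Nat.gcd_dvd_left _ _)] at h3
    exact h3
  refine (sum_le_sum h1).trans ?_
  rw [sum_comm]
  have h2 : ∀ e ∈ m.divisors, ∑ z ∈ Finset.Ico 1 L, (if e ∣ z then (e : ℝ) else 0) ≤ L := by
    intro e he
    have he1 : 1 ≤ e := Nat.pos_of_mem_divisors he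
    rw [← sum_filter, sum_const, nsmul_eq_mul]
    have h3 : ((Finset.Ico 1 L).filter (fun z => e ∣ z)).card ≤ L / e := by
      rw [← Nat.Ioc_filter_dvd_card_eq_div]
      apply card_le_card
      intro z hz
      rw [mem_filter, mem_Ico] at hz
      rw [mem_filter, mem_Ioc]
      exact ⟨⟨by omega, by omega⟩, hz.2⟩
    have h4 : (((Finset.Ico 1 L).filter (fun z => e ∣ z)).card * e : ℕ) ≤ L :=
      (Nat.mul_le_mul_right e h3).trans (Nat.div_mul_le_self L e)
    exact_mod_cast h4
  refine (sum_le_sum h2).trans ?_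
  rw [sum_const, nsmul_eq_mul, mul_comm]

lemma sum_dist (w : ℕ → ℝ) (hw : ∀ z, 0 ≤ w z) (L h : ℕ) (hh : h < L) :
    ∑ h' ∈ range L, (if h' = h then 0 else w (max h h' - min h h')) ≤
      2 * ∑ z ∈ Finset.Ico 1 L, w z := by
  classical
  have h1 : ∑ h' ∈ range L, (if h' = h then 0 else w (max h h' - min h h')) =
      ∑ h' ∈ (range L).filter (fun h' => h' < h), w (h - h') +
      ∑ h' ∈ (range L).filter (fun h' => h < h'), w (h' - h) := by
    rw [sum_filter, sum_filter, ← sum_add_distrib]
    apply sum_congr rfl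
    intro h' _
    rcases lt_trichotomy h h' with h3 | h3 | h3
    · rw [if_neg (by omega), if_neg (by omega), if_pos h3, max_eq_right h3.le, min_eq_left h3.le,
        zero_add]
    · rw [if_pos h3.symm, if_neg (by omega), if_neg (by omega), zero_add]
    · rw [if_neg (by omega), if_pos h3, if_neg (by omega), max_eq_left h3.le, min_eq_right h3.le,
        add_zero]
  rw [h1, two_mul]
  apply add_le_add
  · rw [← sum_image (f := w) (g := fun h' => h - h')]
    · apply sum_le_sum_of_subset_of_nonneg _ (fun _ _ _ => hw _)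
      intro z hz
      rw [mem_image] at hz
      obtain ⟨h', hm, rfl⟩ := hz
      rw [mem_filter, mem_range] at hm
      rw [mem_Ico]
      omega
    · intro a ha b hb hab
      rw [coe_filter, Set.mem_ofPred_eq] at ha hb
      dsimp only at hab
      omega
  · rw [← sum_image (f := w) (g := fun h' => h' - h)]
    · apply sum_le_sum_of_subset_of_nonneg _ (fun _ _ _ => hw _)
      intro z hz
      rw [mem_image] at hz
      obtain ⟨h', hm, rfl⟩ := hz
      rw [mem_filter, mem_range] at hm
      rw [mem_Ico]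
      omega
    · intro a ha b hb hab
      rw [coe_filter, Set.mem_ofPred_eq] at ha hb
      dsimp only at hab
      omega

/-- sums over intervals of a periodic function with small correlations -/
theorem window (m : ℕ) (hm : 1 ≤ m) (G : ℤ → ℂ) (hG : B1 G) (hP : Per m G) (X A : ℝ)
    (hA : 0 ≤ A) (L : ℕ) (hL : 1 ≤ L)
    (hc : ∀ z : ℕ, 1 ≤ z → z < L → ‖∑ x ∈ range m, D z G (x : ℤ)‖ ≤ A * (Nat.gcd z m : ℝ))
    (M : ℤ) (K : ℕ) (hK : (K : ℝ) ≤ X) :
    ‖I G M K‖ ≤ Real.sqrt (X * (X / m + 1) * (m / L + 2 * A * (m.divisors.card : ℝ))) + 2 * L := by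
  have hX : 0 ≤ X := (Nat.cast_nonneg K).trans hK
  have hL0 : (0 : ℝ) < L := by exact_mod_cast hL
  have hm0 : (0 : ℝ) < m := by exact_mod_cast hm
  have e0 := I_avg hG M K 1 L hL
  rw [Nat.cast_one, mul_one] at e0
  refine e0.trans (add_le_add_left ?_ _)
  have e2 : ∑ h ∈ range L, I G (M + (h * 1 : ℕ)) K =
      ∑ i ∈ range K, ∑ h ∈ range L, G (M + i + h) := by
    unfold I
    rw [sum_comm]
    apply sum_congr rfl
    intro i _
    apply sum_congr rfl
    intro h _
    congr 1
    push_cast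
    ring
  set W : ℤ → ℝ := fun n => ‖∑ h ∈ range L, G (n + h)‖ ^ 2 with hW
  have hWper : ∀ n, W (n + m) = W n := by
    intro n
    simp only [hW]
    congr 2
    apply sum_congr rfl
    intro h _
    rw [← hP (n + h)]
    congr 1
    ring
  have e3 : ‖∑ h ∈ range L, I G (M + (h * 1 : ℕ)) K‖ ^ 2 ≤ K * ∑ i ∈ range K, W (M + i) := by
    rw [e2]
    have h1 : ‖∑ i ∈ range K, ∑ h ∈ range L, G (M + i + h)‖ ^ 2 ≤
        (∑ i ∈ range K, ‖∑ h ∈ range L, G (M + i + h)‖) ^ 2 := by
      apply pow_le_pow_left₀ (norm_nonneg _)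
      exact norm_sum_le _ _
    refine h1.trans ?_
    have := sq_sum_le_card_mul_sum_sq (s := range K)
      (f := fun i : ℕ => ‖∑ h ∈ range L, G (M + i + h)‖)
    rwa [card_range] at this
  have e4 : ∑ i ∈ range K, W (M + i) ≤ (X / m + 1) * ∑ x ∈ range m, W (x : ℤ) := by
    refine (sum_le_periods W (fun n => by positivity) m hm hWper M K).trans ?_
    apply mul_le_mul_of_nonneg_right _ (sum_nonneg fun _ _ => by positivity)
    have : (K : ℝ) / m ≤ X / m := div_le_div_of_nonneg_right hK hm0.le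
    linarith
  have e5 : ∑ x ∈ range m, W (x : ℤ) ≤
      ∑ h ∈ range L, ∑ h' ∈ range L,
        ‖∑ x ∈ range m, G (x + h) * (starRingEnd ℂ) (G (x + h'))‖ := by
    have h1 : ((∑ x ∈ range m, W (x : ℤ) : ℝ) : ℂ) =
        ∑ h ∈ range L, ∑ h' ∈ range L,
          ∑ x ∈ range m, G (x + h) * (starRingEnd ℂ) (G (x + h')) := by
      have h2 : ∀ h ∈ range L, ∑ h' ∈ range L,
          ∑ x ∈ range m, G (x + h) * (starRingEnd ℂ) (G (x + h')) =
          ∑ x ∈ range m, ∑ h' ∈ range L, G (x + h) * (starRingEnd ℂ) (G (x + h')) := by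
        intro h _
        rw [sum_comm]
      rw [sum_congr rfl h2, sum_comm]
      push_cast
      apply sum_congr rfl
      intro x _
      simp only [hW]
      push_cast
      rw [← Complex.mul_conj', map_sum, sum_mul_sum]
    have h2 : (∑ x ∈ range m, W (x : ℤ) : ℝ) = ‖((∑ x ∈ range m, W (x : ℤ) : ℝ) : ℂ)‖ := by
      rw [Complex.norm_real, Real.norm_of_nonneg]
      exact sum_nonneg fun i _ => by positivity
    rw [h2, h1]
    refine (norm_sum_le _ _).trans (sum_le_sum fun h _ => ?_)
    exact norm_sum_le _ _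
  have key : ∀ h h' : ℕ, h < h' → h' < L →
      ‖∑ x ∈ range m, G (x + h) * (starRingEnd ℂ) (G (x + h'))‖ ≤
        A * (Nat.gcd (h' - h) m : ℝ) := by
    intro h h' hh hL'
    refine le_trans (le_of_eq ?_) (hc (h' - h) (by omega) (by omega))
    congr 1
    have h1 := sum_period (D ((h' - h : ℕ) : ℤ) G) m (hP.D _) h
    rw [← h1]
    apply sum_congr rfl
    intro x _
    simp only [D]
    have h2 : (x : ℤ) + h' = h + x + ((h' - h : ℕ) : ℤ) := by
      rw [Nat.cast_sub hh.le]; ring
    rw [h2, add_comm (x : ℤ) h]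
  have e6 : ∀ h ∈ range L, ∑ h' ∈ range L,
        ‖∑ x ∈ range m, G (x + h) * (starRingEnd ℂ) (G (x + h'))‖ ≤
      m + 2 * A * (L * (m.divisors.card : ℝ)) := by
    intro h hh
    rw [mem_range] at hh
    have h1 : ∀ h' ∈ range L,
        ‖∑ x ∈ range m, G (x + h) * (starRingEnd ℂ) (G (x + h'))‖ ≤
        (if h' = h then (m : ℝ) else 0) +
        (if h' = h then 0 else A * (Nat.gcd (max h h' - min h h') m : ℝ)) := by
      intro h' hh'
      rw [mem_range] at hh'
      rcases lt_trichotomy h h' with h3 | h3 | h3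
      · rw [if_neg (by omega), if_neg (by omega), max_eq_right h3.le, min_eq_left h3.le, zero_add]
        exact key h h' h3 hh'
      · rw [if_pos h3.symm, if_pos h3.symm, add_zero]
        refine (norm_sum_le _ _).trans ?_
        calc _ ≤ ∑ i ∈ range m, (1 : ℝ) := by
              apply sum_le_sum
              intro i _
              rw [norm_mul, RCLike.norm_conj]
              exact mul_le_one₀ (hG _) (norm_nonneg _) (hG _)
          _ = m := by simp
      · rw [if_neg (by omega), if_neg (by omega), max_eq_left h3.le, min_eq_right h3.le, zero_add]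
        have h4 : ∑ x ∈ range m, G (x + h) * (starRingEnd ℂ) (G (x + h')) =
            (starRingEnd ℂ) (∑ x ∈ range m, G (x + h') * (starRingEnd ℂ) (G (x + h))) := by
          rw [map_sum]
          apply sum_congr rfl
          intro i _
          rw [map_mul, Complex.conj_conj, mul_comm]
        rw [h4, RCLike.norm_conj]
        exact key h' h h3 hh
    refine (sum_le_sum h1).trans ?_
    rw [sum_add_distrib]
    apply add_le_add
    · rw [sum_ite_eq']
      split_ifs <;> linarith
    · refine (sum_dist (fun z => A * (Nat.gcd z m : ℝ)) (fun z => by positivity) L h hh).trans ?_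
      rw [← mul_sum, ← mul_assoc]
      exact mul_le_mul_of_nonneg_left (sum_gcd m L hm) (by positivity)
  have e7 : ∑ x ∈ range m, W (x : ℤ) ≤ L * (m + 2 * A * (L * (m.divisors.card : ℝ))) := by
    refine e5.trans ((sum_le_sum e6).trans ?_)
    rw [sum_const, card_range, nsmul_eq_mul]
  have hT : 0 ≤ (m.divisors.card : ℝ) := Nat.cast_nonneg _
  have e8 : ‖∑ h ∈ range L, I G (M + (h * 1 : ℕ)) K‖ ^ 2 ≤
      L ^ 2 * (X * (X / m + 1) * (m / L + 2 * A * (m.divisors.card : ℝ))) := by
    refine e3.trans ?_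
    have h1 : 0 ≤ ∑ i ∈ range K, W (M + i) := sum_nonneg fun _ _ => by positivity
    calc (K : ℝ) * ∑ i ∈ range K, W (M + i) ≤ X * ∑ i ∈ range K, W (M + i) :=
          mul_le_mul_of_nonneg_right hK h1
      _ ≤ X * ((X / m + 1) * (L * (m + 2 * A * (L * (m.divisors.card : ℝ))))) := by
          apply mul_le_mul_of_nonneg_left _ hX
          refine e4.trans ?_
          exact mul_le_mul_of_nonneg_left e7 (by positivity)
      _ = _ := by
          field_simp
  rw [div_le_iff₀ hL0]
  apply le_of_sq_le_sq _ (by positivity)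
  rw [mul_pow, Real.sq_sqrt (by positivity)]
  refine e8.trans (le_of_eq ?_)
  ring

end Pool.Agent.H18.CS
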