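import Pool.Graph.R_seed8.H435R3.Weil.Main
import Pool.Agent.H18.CS.Window

set_option autoImplicit false

/-!
Complete sums of iterated differences of products of cubic characters.
-/

namespace Pool.Agent.H18.CS

open Finset Polynomial

section

variable (p : ℕ) [hpf : Fact p.Prime]

/-- not constant -/
def NC (v : ZMod p → ZMod 3) : Prop := ∃ r s, v r ≠ v s

lemma NC.diff (hp : p % 3 = 1) {v : ZMod p → ZMod 3} (hv : NC p v) (a : ZMod p) (ha : a ≠ 0) :
    NC p (fun r => v r - v (r + a)) := by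
  by_contra h
  unfold NC at h
  push Not at h
  have h1 : ∑ r : ZMod p, (v r - v (r + a)) = 0 := by
    rw [sum_sub_distrib, sub_eq_zero]
    exact (Equiv.sum_comp (Equiv.addRight a) v).symm
  have h2 : ∀ r, v r - v (r + a) = v 0 - v (0 + a) := fun r => h r 0
  simp_rw [h2] at h1
  rw [sum_const, card_univ, ZMod.card, nsmul_eq_mul] at h1
  have h3 : ((p : ℕ) : ZMod 3) = 1 := by
    have : ((p : ℕ) : ZMod 3) = ((1 : ℕ) : ZMod 3) := by
      rw [ZMod.natCast_eq_natCast_iff]
      exact hp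
    simpa using this
  rw [h3, one_mul] at h1
  have h4 : ∀ r, v (r + a) = v r := by
    intro r
    have := h2 r
    rw [h1, sub_eq_zero] at this
    exact this.symm
  have h5 : ∀ k : ℕ, v (k * a) = v 0 := by
    intro k
    induction k with
    | zero => simp
    | succ k ih =>
      rw [← ih, ← h4 (k * a)]
      congr 1
      push_cast
      ring
  have h6 : ∀ r, v r = v 0 := by
    intro r
    rw [← h5 (r / a).val]
    congr 1
    rw [ZMod.natCast_zmod_val]
    field_simp
  obtain ⟨r, s, hrs⟩ := hv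
  exact hrs (by rw [h6 r, h6 s])

/-- the function `χ(P) conj χ(R)` -/
noncomputable def gPR (χ : MulChar (ZMod p) ℂ) (P R : (ZMod p)[X]) : ℤ → ℂ :=
  fun n => χ (P.eval (n : ZMod p)) * (starRingEnd ℂ) (χ (R.eval (n : ZMod p)))

/-- the multiplicities modulo `3` -/
noncomputable def vPR (P R : (ZMod p)[X]) (r : ZMod p) : ZMod 3 :=
  ((rootMultiplicity r P : ℕ) : ZMod 3) - ((rootMultiplicity r R : ℕ) : ZMod 3)

lemma D_gPR (χ : MulChar (ZMod p) ℂ) (P R : (ZMod p)[X]) (a : ℤ) :
    D a (gPR p χ P R) =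
      gPR p χ (P * R.comp (X + C (a : ZMod p))) (R * P.comp (X + C (a : ZMod p))) := by
  funext n
  simp only [D, gPR, eval_mul, eval_comp, eval_add, eval_X, eval_C, map_mul, Complex.conj_conj]
  push_cast
  ring

lemma rm_comp (P : (ZMod p)[X]) (a r : ZMod p) :
    rootMultiplicity r (P.comp (X + C a)) = rootMultiplicity (r + a) P := by
  rw [rootMultiplicity_eq_rootMultiplicity, rootMultiplicity_eq_rootMultiplicity (p := P) (t := r + a),
    comp_assoc]
  congr 2
  simp only [add_comp, X_comp, C_comp, map_add]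
  ring

lemma monic_comp (P : (ZMod p)[X]) (hP : P.Monic) (a : ZMod p) : (P.comp (X + C a)).Monic :=
  hP.comp (monic_X_add_C a) (by rw [natDegree_X_add_C]; exact one_ne_zero)

lemma natDegree_comp_X_add (P : (ZMod p)[X]) (a : ZMod p) :
    (P.comp (X + C a)).natDegree = P.natDegree := by
  rw [natDegree_comp, natDegree_X_add_C, mul_one]

lemma v_diff (P R : (ZMod p)[X]) (hP : P.Monic) (hR : R.Monic) (a r : ZMod p) :
    vPR p (P * R.comp (X + C a)) (R * P.comp (X + C a)) r = vPR p P R r - vPR p P R (r + a) := by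
  unfold vPR
  rw [rootMultiplicity_mul (mul_ne_zero hP.ne_zero (monic_comp p R hR a).ne_zero),
    rootMultiplicity_mul (mul_ne_zero hR.ne_zero (monic_comp p P hP a).ne_zero), rm_comp, rm_comp]
  push_cast
  ring

lemma state (hp : p % 3 = 1) (χ : MulChar (ZMod p) ℂ) (as : List ℤ) :
    (∀ a ∈ as, (a : ZMod p) ≠ 0) → ∀ P R : (ZMod p)[X], P.Monic → R.Monic → NC p (vPR p P R) →
    ∃ P' R' : (ZMod p)[X], P'.Monic ∧ R'.Monic ∧ NC p (vPR p P' R') ∧
      P'.natDegree + R'.natDegree = 2 ^ as.length * (P.natDegree + R.natDegree) ∧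
      Ds as (gPR p χ P R) = gPR p χ P' R' := by
  induction as with
  | nil =>
    intro _ P R hP hR hv
    exact ⟨P, R, hP, hR, hv, by simp, rfl⟩
  | cons a as ih =>
    intro has P R hP hR hv
    have hv' : NC p (vPR p (P * R.comp (X + C (a : ZMod p))) (R * P.comp (X + C (a : ZMod p)))) := by
      have := NC.diff p hp hv (a : ZMod p) (has a (by simp))
      have h2 : vPR p (P * R.comp (X + C (a : ZMod p))) (R * P.comp (X + C (a : ZMod p))) =
          fun r => vPR p P R r - vPR p P R (r + a) := by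
        funext r
        exact v_diff p P R hP hR _ r
      rw [h2]
      exact this
    obtain ⟨P', R', h1, h2, h3, h4, h5⟩ := ih (fun b hb => has b (by simp [hb]))
      (P * R.comp (X + C (a : ZMod p))) (R * P.comp (X + C (a : ZMod p)))
      (hP.mul (monic_comp p R hR _)) (hR.mul (monic_comp p P hP _)) hv'
    refine ⟨P', R', h1, h2, h3, ?_, ?_⟩
    · rw [h4, (hP).natDegree_mul (monic_comp p R hR _), (hR).natDegree_mul (monic_comp p P hP _),
        natDegree_comp_X_add, natDegree_comp_X_add, List.length_cons, pow_succ]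
      ring
    · show Ds as (D a _) = _
      rw [D_gPR, h5]

lemma sum_range_zmod (n : ℕ) [NeZero n] (F : ZMod n → ℂ) :
    ∑ x ∈ range n, F (x : ZMod n) = ∑ x : ZMod n, F x := by
  apply Finset.sum_nbij' (fun i : ℕ => (i : ZMod n)) (fun x : ZMod n => x.val)
  · intro a _; exact mem_univ _
  · intro a _; rw [mem_range]; exact ZMod.val_lt a
  · intro a ha; rw [mem_range] at ha; exact ZMod.val_cast_of_lt ha
  · intro a _; exact ZMod.natCast_zmod_val a
  · intro a _; rfl

/-- the local bound -/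
theorem local_bound (hp : p % 3 = 1) (χ : MulChar (ZMod p) ℂ) (hχ : χ ≠ 1) (hχ3 : χ ^ 3 = 1)
    (as : List ℤ) (has : ∀ a ∈ as, (a : ZMod p) ≠ 0) :
    ‖∑ x ∈ range p, Ds as (fun n : ℤ => χ (n : ZMod p)) (x : ℤ)‖ ≤ 2 ^ as.length * Real.sqrt p := by
  have h0 : (fun n : ℤ => χ (n : ZMod p)) = gPR p χ X 1 := by
    funext n
    simp [gPR]
  have hNC : NC p (vPR p X 1) := by
    refine ⟨0, 1, ?_⟩
    unfold vPR
    have h1 : rootMultiplicity (0 : ZMod p) X = 1 := by
      have := rootMultiplicity_X_sub_C_self (x := (0 : ZMod p))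
      simpa using this
    have h2 : rootMultiplicity (1 : ZMod p) X = 0 := by
      rw [rootMultiplicity_eq_zero_iff]
      intro h
      simp [IsRoot.def] at h
    have h3 : ∀ r : ZMod p, rootMultiplicity r (1 : (ZMod p)[X]) = 0 := by
      intro r
      rw [rootMultiplicity_eq_zero_iff]
      intro h
      simp [IsRoot.def] at h
    rw [h1, h2, h3, h3]
    decide
  obtain ⟨P, R, hP, hR, hv, hdeg, hD⟩ := state p hp χ as has X 1 monic_X monic_one hNC
  rw [h0, hD]
  have h1 : ∑ x ∈ range p, gPR p χ P R (x : ℤ) =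
      ∑ x : ZMod p, χ (P.eval x) * (starRingEnd ℂ) (χ (R.eval x)) := by
    rw [← sum_range_zmod]
    apply sum_congr rfl
    intro x _
    simp [gPR]
  rw [h1]
  have hcop : Pool.Agent.H435R3.Weil.Cop 3 (P * R ^ (3 - 1)) := by
    obtain ⟨r, s, hrs⟩ := hv
    have h2 : ∃ r, vPR p P R r ≠ 0 := by
      by_contra hno
      push Not at hno
      exact hrs (by rw [hno r, hno s])
    obtain ⟨r, hr⟩ := h2
    refine ⟨r, ?_⟩
    rw [rootMultiplicity_mul (mul_ne_zero hP.ne_zero (hR.pow _).ne_zero)]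
    have h3 : rootMultiplicity r (R ^ (3 - 1)) = 2 * rootMultiplicity r R := by
      rw [show 3 - 1 = 2 by norm_num, pow_two,
        rootMultiplicity_mul (mul_ne_zero hR.ne_zero hR.ne_zero)]
      ring
    rw [h3, Nat.coprime_comm, Nat.Prime.coprime_iff_not_dvd Nat.prime_three]
    intro hdvd
    apply hr
    unfold vPR
    have h4 : ((rootMultiplicity r P + 2 * rootMultiplicity r R : ℕ) : ZMod 3) = 0 := by
      rwa [ZMod.natCast_eq_zero_iff]
    push_cast at h4
    have h5 : (2 : ZMod 3) = -1 := by decide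
    rw [h5] at h4
    rw [← h4]
    ring
  have hw := Pool.Agent.H435R3.Weil.weil (F := ZMod p) 3 (by norm_num)
    (by rw [ZMod.card]; omega) χ hχ hχ3 P R hP hR hcop
  refine hw.trans (le_of_eq ?_)
  rw [hdeg, natDegree_X, natDegree_one, ZMod.card]
  push_cast
  ring

end

/-! ### products -/

lemma Per.dvd {q q' : ℕ} {g : ℤ → ℂ} (hg : Per q g) (h : q ∣ q') : Per q' g := by
  obtain ⟨k, rfl⟩ := h
  intro n
  have := hg.mul_nat k n
  rw [← this]
  congr 1
  push_cast
  ring

lemma sum_two (m n : ℕ) (hm : 1 ≤ m) (hn : 1 ≤ n) (co : m.Coprime n) (A B : ℤ → ℂ) (hA : Per m A)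
    (hB : Per n B) : ∑ x ∈ range (m * n), A (x : ℤ) * B (x : ℤ) =
      (∑ x ∈ range m, A (x : ℤ)) * ∑ x ∈ range n, B (x : ℤ) := by
  rw [sum_mul_sum, ← sum_product']
  symm
  apply Finset.sum_nbij' (fun u : ℕ × ℕ => (Nat.chineseRemainder co u.1 u.2 : ℕ))
    (fun x => (x % m, x % n))
  · intro u hu
    rw [mem_product, mem_range, mem_range] at hu
    rw [mem_range]
    exact Nat.chineseRemainder_lt_mul co u.1 u.2 (by omega) (by omega)
  · intro x _
    rw [mem_product, mem_range, mem_range]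
    exact ⟨Nat.mod_lt _ (by omega), Nat.mod_lt _ (by omega)⟩
  · intro u hu
    rw [mem_product, mem_range, mem_range] at hu
    have h1 := (Nat.chineseRemainder co u.1 u.2).2
    exact Prod.ext (Eq.trans h1.1 (Nat.mod_eq_of_lt hu.1)) (Eq.trans h1.2 (Nat.mod_eq_of_lt hu.2))
  · intro x hx
    rw [mem_range] at hx
    have h1 := Nat.chineseRemainder_modEq_unique co (a := x % m) (b := x % n) (z := x)
      (Nat.mod_modEq x m).symm (Nat.mod_modEq x n).symm
    have h2 := Nat.chineseRemainder_lt_mul co (x % m) (x % n) (by omega) (by omega)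
    have h3 : x % (m * n) = _ % (m * n) := h1
    rw [Nat.mod_eq_of_lt hx, Nat.mod_eq_of_lt h2] at h3
    exact h3.symm
  · intro u hu
    have h1 := (Nat.chineseRemainder co u.1 u.2).2
    rw [hA.congr (a := (u.1 : ℤ)) (b := ((Nat.chineseRemainder co u.1 u.2 : ℕ) : ℤ))
        (Nat.modEq_iff_dvd.mp h1.1),
      hB.congr (a := (u.2 : ℤ)) (b := ((Nat.chineseRemainder co u.1 u.2 : ℕ) : ℤ))
        (Nat.modEq_iff_dvd.mp h1.2)]

lemma Per_fprod (s : Finset ℕ) (h : ℕ → ℤ → ℂ) (hper : ∀ p ∈ s, Per p (h p)) :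
    Per (∏ p ∈ s, p) (∏ p ∈ s, h p) := by
  intro n
  rw [prod_apply, prod_apply]
  apply prod_congr rfl
  intro p hp
  exact ((hper p hp).dvd (dvd_prod_of_mem _ hp)) n

lemma sum_fprod (s : Finset ℕ) (hs : ∀ p ∈ s, p.Prime) (h : ℕ → ℤ → ℂ)
    (hper : ∀ p ∈ s, Per p (h p)) :
    ∑ x ∈ range (∏ p ∈ s, p), (∏ p ∈ s, h p) (x : ℤ) = ∏ p ∈ s, ∑ x ∈ range p, h p (x : ℤ) := by
  classical
  induction s using Finset.induction_on with
  | empty => simp
  | insert p s hp ih =>
    rw [prod_insert hp, prod_insert hp, prod_insert hp,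
      ← ih (fun q hq => hs q (mem_insert_of_mem hq)) (fun q hq => hper q (mem_insert_of_mem hq))]
    have hpp := hs p (mem_insert_self _ _)
    have hco : p.Coprime (∏ q ∈ s, q) := by
      apply Nat.Coprime.prod_right
      intro q hq
      rw [Nat.coprime_primes hpp (hs q (mem_insert_of_mem hq))]
      rintro rfl
      exact hp hq
    have hpos : 1 ≤ ∏ q ∈ s, q := by
      apply Nat.succ_le_of_lt
      apply prod_pos
      intro q hq
      exact (hs q (mem_insert_of_mem hq)).pos
    rw [← sum_two p _ hpp.one_le hpos hco (h p) (∏ q ∈ s, h q) (hper p (mem_insert_self _ _))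
      (Per_fprod s h fun q hq => hper q (mem_insert_of_mem hq))]
    rfl

lemma gcd_fprod (s : Finset ℕ) (hs : ∀ p ∈ s, p.Prime) (a : ℕ) :
    ∏ p ∈ s, Nat.gcd a p = Nat.gcd a (∏ p ∈ s, p) := by
  classical
  induction s using Finset.induction_on with
  | empty => simp
  | insert p s hp ih =>
    rw [prod_insert hp, prod_insert hp, ih (fun q hq => hs q (mem_insert_of_mem hq))]
    have hpp := hs p (mem_insert_self _ _)
    have hco : p.Coprime (∏ q ∈ s, q) := by
      apply Nat.Coprime.prod_right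
      intro q hq
      rw [Nat.coprime_primes hpp (hs q (mem_insert_of_mem hq))]
      rintro rfl
      exact hp hq
    rw [Nat.Coprime.gcd_mul a hco]

lemma card_div_fprod (s : Finset ℕ) (hs : ∀ p ∈ s, p.Prime) :
    (∏ p ∈ s, p).divisors.card = 2 ^ s.card := by
  classical
  induction s using Finset.induction_on with
  | empty => simp
  | insert p s hp ih =>
    have hpp := hs p (mem_insert_self _ _)
    have hco : p.Coprime (∏ q ∈ s, q) := by
      apply Nat.Coprime.prod_right
      intro q hq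
      rw [Nat.coprime_primes hpp (hs q (mem_insert_of_mem hq))]
      rintro rfl
      exact hp hq
    rw [prod_insert hp, Nat.Coprime.card_divisors_mul hco,
      ih (fun q hq => hs q (mem_insert_of_mem hq)), hpp.divisors, card_pair hpp.one_lt.ne,
      card_insert_of_notMem hp, pow_succ]
    ring

lemma list_prod_ge_one (l : List ℤ) (p : ℕ) (hp : 1 ≤ p) :
    1 ≤ (l.map (fun a => (Nat.gcd a.natAbs p : ℝ))).prod := by
  induction l with
  | nil => simp
  | cons a l ih =>
    rw [List.map_cons, List.prod_cons]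
    have : (1 : ℝ) ≤ (Nat.gcd a.natAbs p : ℝ) := by
      exact_mod_cast Nat.gcd_pos_of_pos_right _ hp
    nlinarith

lemma list_prod_ge (l : List ℤ) (p : ℕ) (hp : 1 ≤ p) (a : ℤ) (ha : a ∈ l) (hpa : (p : ℤ) ∣ a) :
    (p : ℝ) ≤ (l.map (fun a => (Nat.gcd a.natAbs p : ℝ))).prod := by
  induction l with
  | nil => simp at ha
  | cons b l ih =>
    rw [List.map_cons, List.prod_cons]
    have h1 : (1 : ℝ) ≤ (Nat.gcd b.natAbs p : ℝ) := by
      exact_mod_cast Nat.gcd_pos_of_pos_right _ hp
    have hp0 : (0 : ℝ) ≤ p := Nat.cast_nonneg p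
    rcases List.mem_cons.mp ha with rfl | ha
    · have h2 : Nat.gcd a.natAbs p = p := by
        apply Nat.gcd_eq_right
        exact Int.natCast_dvd.mp hpa
      rw [h2]
      have := list_prod_ge_one l p hp
      nlinarith
    · have := ih ha
      nlinarith

/-- complete sums of iterated differences of a product of characters -/
theorem complete (s : Finset ℕ) (hs : ∀ p ∈ s, p.Prime) (hs3 : ∀ p ∈ s, p % 3 = 1)
    (χ : (p : ℕ) → MulChar (ZMod p) ℂ) (hχ : ∀ p ∈ s, χ p ≠ 1) (hχ3 : ∀ p ∈ s, χ p ^ 3 = 1)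
    (as : List ℤ) :
    ‖∑ x ∈ range (∏ p ∈ s, p), Ds as (∏ p ∈ s, fun n : ℤ => χ p (n : ZMod p)) (x : ℤ)‖ ≤
      (2 ^ s.card) ^ as.length * Real.sqrt (∏ p ∈ s, p : ℕ) *
        (as.map (fun a => (Nat.gcd a.natAbs (∏ p ∈ s, p) : ℝ))).prod := by
  have hB : ∀ p ∈ s, B1 (fun n : ℤ => χ p (n : ZMod p)) := by
    intro p hp n
    have : Fact p.Prime := ⟨hs p hp⟩
    exact DirichletCharacter.norm_le_one (χ p) _
  have hPer : ∀ p ∈ s, Per p (fun n : ℤ => χ p (n : ZMod p)) := by
    intro p hp n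
    push_cast
    simp
  rw [Ds_prod, sum_fprod s hs (fun p => Ds as (fun n : ℤ => χ p (n : ZMod p)))
    (fun p hp => (hPer p hp).Ds as), norm_prod]
  have h1 : ∀ p ∈ s, ‖∑ x ∈ range p, Ds as (fun n : ℤ => χ p (n : ZMod p)) (x : ℤ)‖ ≤
      2 ^ as.length * Real.sqrt p * (as.map (fun a => (Nat.gcd a.natAbs p : ℝ))).prod := by
    intro p hp
    have hpf : Fact p.Prime := ⟨hs p hp⟩
    have hp1 : 1 ≤ p := (hs p hp).one_le
    by_cases hdiv : ∀ a ∈ as, (a : ZMod p) ≠ 0
    · refine (local_bound p (hs3 p hp) (χ p) (hχ p hp) (hχ3 p hp) as hdiv).trans ?_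
      have := list_prod_ge_one as p hp1
      have h0 : 0 ≤ 2 ^ as.length * Real.sqrt p := by positivity
      nlinarith
    · push Not at hdiv
      obtain ⟨a, ha, ha0⟩ := hdiv
      rw [ZMod.intCast_zmod_eq_zero_iff_dvd] at ha0
      have h2 := list_prod_ge as p hp1 a ha ha0
      have h3 : ‖∑ x ∈ range p, Ds as (fun n : ℤ => χ p (n : ZMod p)) (x : ℤ)‖ ≤ p := by
        refine (norm_sum_le _ _).trans ?_
        calc _ ≤ ∑ x ∈ range p, (1 : ℝ) := sum_le_sum fun x _ => (hB p hp).Ds as _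
          _ = p := by simp
      have h4 : (1 : ℝ) ≤ 2 ^ as.length * Real.sqrt p := by
        have e1 : (1 : ℝ) ≤ 2 ^ as.length := one_le_pow₀ (by norm_num)
        have e2 : (1 : ℝ) ≤ Real.sqrt p := by
          rw [Real.one_le_sqrt]; exact_mod_cast hp1
        nlinarith
      have h5 : (0 : ℝ) ≤ p := Nat.cast_nonneg p
      nlinarith
  refine (prod_le_prod (fun _ _ => norm_nonneg _) h1).trans (le_of_eq ?_)
  rw [prod_mul_distrib, prod_mul_distrib, prod_const, ← pow_mul, ← pow_mul, mul_comm as.length]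
  congr 1
  · congr 1
    push_cast
    rw [Real.sqrt_eq_rpow, ← Real.finsetProd_rpow _ _ (fun p _ => Nat.cast_nonneg p)]
    apply prod_congr rfl
    intro p _
    rw [Real.sqrt_eq_rpow]
  · clear h1
    induction as with
    | nil => simp
    | cons a as ih =>
      simp only [List.map_cons, List.prod_cons]
      rw [prod_mul_distrib, ih, ← Nat.cast_prod, gcd_fprod s hs]

end Pool.Agent.H18.CS
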