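import Mathlib

set_option autoImplicit false

/-!
Differences `g (n) * conj (g (n + a))`, and the inequality of van der Corput for moduli (the shifts are multiples of a
modulus, so that the periodic factor disappears).
-/

namespace Pool.Agent.H18.CS

open Finset

/-- the difference -/
noncomputable def D (a : ℤ) (g : ℤ → ℂ) : ℤ → ℂ := fun n => g n * (starRingEnd ℂ) (g (n + a))

/-- the sum over an interval -/
noncomputable def I (g : ℤ → ℂ) (M : ℤ) (L : ℕ) : ℂ := ∑ i ∈ range L, g (M + i)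

/-- bounded by one -/
def B1 (g : ℤ → ℂ) : Prop := ∀ n, ‖g n‖ ≤ 1

/-- periodic -/
def Per (q : ℕ) (g : ℤ → ℂ) : Prop := ∀ n, g (n + q) = g n

/-- all sums over intervals of length at most `X` are small -/
def Bnd (g : ℤ → ℂ) (X Y : ℝ) : Prop := ∀ M : ℤ, ∀ L : ℕ, (L : ℝ) ≤ X → ‖I g M L‖ ≤ Y * X

lemma D_mul (a : ℤ) (f g : ℤ → ℂ) : D a (f * g) = D a f * D a g := by
  funext n
  simp only [D, Pi.mul_apply, map_mul]
  ring

lemma D_one (a : ℤ) : D a (1 : ℤ → ℂ) = 1 := by
  funext n; simp [D]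

lemma B1.D {g : ℤ → ℂ} (hg : B1 g) (a : ℤ) : B1 (D a g) := by
  intro n
  simp only [CS.D, norm_mul, RCLike.norm_conj]
  exact mul_le_one₀ (hg n) (norm_nonneg _) (hg _)

lemma B1.mul {f g : ℤ → ℂ} (hf : B1 f) (hg : B1 g) : B1 (f * g) := by
  intro n
  simp only [Pi.mul_apply, norm_mul]
  exact mul_le_one₀ (hf n) (norm_nonneg _) (hg _)

lemma Per.D {q : ℕ} {g : ℤ → ℂ} (hg : Per q g) (a : ℤ) : Per q (D a g) := by
  intro n
  simp only [CS.D]
  rw [hg n, show n + (q : ℤ) + a = n + a + q by ring, hg]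

lemma Per.mul_nat {q : ℕ} {g : ℤ → ℂ} (hg : Per q g) (k : ℕ) (n : ℤ) : g (n + k * q) = g n := by
  induction k with
  | zero => simp
  | succ k ih =>
    rw [← ih, ← hg (n + k * q)]
    congr 1
    push_cast
    ring

lemma Per.mul_int {q : ℕ} {g : ℤ → ℂ} (hg : Per q g) (k : ℤ) (n : ℤ) : g (n + k * q) = g n := by
  obtain ⟨m, rfl | rfl⟩ := k.eq_nat_or_neg
  · exact hg.mul_nat m n
  · have := hg.mul_nat m (n + -(m : ℤ) * q)
    rw [← this]
    congr 1
    ring

lemma Per.congr {q : ℕ} {g : ℤ → ℂ} (hg : Per q g) {a b : ℤ} (h : (q : ℤ) ∣ a - b) : g a = g b := by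
  obtain ⟨k, hk⟩ := h
  have : a = b + k * q := by linarith [mul_comm k (q : ℤ)]
  rw [this, hg.mul_int]

lemma norm_I_le {g : ℤ → ℂ} (hg : B1 g) (M : ℤ) (L : ℕ) : ‖I g M L‖ ≤ L := by
  refine (norm_sum_le _ _).trans ?_
  calc ∑ i ∈ range L, ‖g (M + i)‖ ≤ ∑ i ∈ range L, (1 : ℝ) := sum_le_sum (fun i _ => hg _)
    _ = L := by simp

lemma I_shift_one (g : ℤ → ℂ) (M : ℤ) (L : ℕ) : I g M L - I g (M + 1) L = g M - g (M + L) := by
  have h1 := Finset.sum_range_succ (fun i : ℕ => g (M + i)) L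
  have h2 := Finset.sum_range_succ' (fun i : ℕ => g (M + i)) L
  rw [h1] at h2
  have h3 : I g (M + 1) L = ∑ i ∈ range L, g (M + ((i + 1 : ℕ) : ℤ)) := by
    unfold I
    apply sum_congr rfl
    intro i _
    congr 1
    push_cast
    ring
  have h4 : g (M + ((0 : ℕ) : ℤ)) = g M := by simp
  rw [h4] at h2
  rw [h3]
  unfold I
  linear_combination h2

lemma I_shift {g : ℤ → ℂ} (hg : B1 g) (M : ℤ) (L k : ℕ) : ‖I g M L - I g (M + k) L‖ ≤ 2 * k := by
  induction k with
  | zero => simp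
  | succ k ih =>
    have h1 : I g M L - I g (M + ((k + 1 : ℕ) : ℤ)) L =
        (I g M L - I g (M + k) L) + (g (M + k) - g (M + k + L)) := by
      rw [← I_shift_one g (M + k) L]
      have : M + ((k + 1 : ℕ) : ℤ) = M + k + 1 := by push_cast; ring
      rw [this]
      ring
    rw [h1]
    refine (norm_add_le _ _).trans ?_
    have h2 : ‖g (M + k) - g (M + k + L)‖ ≤ 1 + 1 :=
      (norm_sub_le _ _).trans (add_le_add (hg _) (hg _))
    push_cast
    linarith

/-- the average over shifts -/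
lemma I_avg {g : ℤ → ℂ} (hg : B1 g) (M : ℤ) (L q H : ℕ) (hH : 1 ≤ H) :
    ‖I g M L‖ ≤ ‖∑ h ∈ range H, I g (M + (h * q : ℕ)) L‖ / H + 2 * (H * q) := by
  have hH0 : (0 : ℝ) < H := by exact_mod_cast hH
  have h1 : (H : ℂ) * I g M L = ∑ h ∈ range H, I g (M + (h * q : ℕ)) L +
      ∑ h ∈ range H, (I g M L - I g (M + (h * q : ℕ)) L) := by
    rw [sum_sub_distrib]
    simp
  have h2 : ‖∑ h ∈ range H, (I g M L - I g (M + (h * q : ℕ)) L)‖ ≤ H * (2 * (H * q)) := by
    refine (norm_sum_le _ _).trans ?_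
    calc _ ≤ ∑ h ∈ range H, (2 * ((H : ℝ) * q)) := by
          apply sum_le_sum
          intro h hh
          refine (I_shift hg M L (h * q)).trans ?_
          push_cast
          have : (h : ℝ) ≤ H := by exact_mod_cast (mem_range.mp hh).le
          have hq0 : (0 : ℝ) ≤ q := Nat.cast_nonneg q
          nlinarith
      _ = _ := by rw [sum_const, card_range, nsmul_eq_mul]
  have h3 : (H : ℝ) * ‖I g M L‖ ≤ ‖∑ h ∈ range H, I g (M + (h * q : ℕ)) L‖ + H * (2 * (H * q)) := by
    have : (H : ℝ) * ‖I g M L‖ = ‖(H : ℂ) * I g M L‖ := by rw [norm_mul, Complex.norm_natCast]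
    rw [this, h1]
    exact (norm_add_le _ _).trans (by linarith)
  have h4 : ‖I g M L‖ ≤ (‖∑ h ∈ range H, I g (M + (h * q : ℕ)) L‖ + H * (2 * (H * q))) / H := by
    rw [le_div_iff₀ hH0]; linarith
  refine h4.trans (le_of_eq ?_)
  field_simp

/-- the inner sums -/
lemma inner_eq (g : ℤ → ℂ) (M : ℤ) (L q h h' : ℕ) (hh : h ≤ h') :
    ∑ i ∈ range L, g (M + i + (h * q : ℕ)) * (starRingEnd ℂ) (g (M + i + (h' * q : ℕ))) =
      I (D (((h' - h) * q : ℕ) : ℤ) g) (M + (h * q : ℕ)) L := by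
  unfold I D
  apply sum_congr rfl
  intro i _
  have h1 : M + (i : ℤ) + ((h * q : ℕ) : ℤ) = M + ((h * q : ℕ) : ℤ) + i := by ring
  have h2 : M + (i : ℤ) + ((h' * q : ℕ) : ℤ) = M + ((h * q : ℕ) : ℤ) + i + (((h' - h) * q : ℕ) : ℤ) := by
    rw [Nat.cast_mul, Nat.cast_mul, Nat.cast_mul, Nat.cast_sub hh]; ring
  rw [h1, h2]

/-- the number of the bad differences -/
lemma count_bad (good : ℕ → Prop) [DecidablePred good] (H h : ℕ) (hh : h < H) :
    ((range H).filter (fun h' => ¬ (h ≠ h' ∧ good (max h h' - min h h')))).card ≤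
      1 + 2 * ((Finset.Ico 1 H).filter (fun d => ¬ good d)).card := by
  set Bd := (Finset.Ico 1 H).filter (fun d => ¬ good d) with hB
  have hsub : (range H).filter (fun h' => ¬ (h ≠ h' ∧ good (max h h' - min h h'))) ⊆
      ({h} : Finset ℕ) ∪ (Bd.image (fun d => h + d) ∪ Bd.image (fun d => h - d)) := by
    intro h' hm
    rw [mem_filter, mem_range] at hm
    rw [mem_union, mem_singleton, mem_union, mem_image, mem_image]
    obtain ⟨h1, h2⟩ := hm
    rcases lt_trichotomy h h' with h3 | h3 | h3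
    · right; left
      refine ⟨h' - h, ?_, by omega⟩
      rw [hB, mem_filter, mem_Ico]
      refine ⟨by omega, fun hg => h2 ⟨by omega, ?_⟩⟩
      rwa [max_eq_right h3.le, min_eq_left h3.le]
    · left; exact h3.symm
    · right; right
      refine ⟨h - h', ?_, by omega⟩
      rw [hB, mem_filter, mem_Ico]
      refine ⟨by omega, fun hg => h2 ⟨by omega, ?_⟩⟩
      rwa [max_eq_left h3.le, min_eq_right h3.le]
  refine (card_le_card hsub).trans ?_
  refine (card_union_le _ _).trans ?_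
  rw [card_singleton]
  have h1 := card_union_le (Bd.image (fun d => h + d)) (Bd.image (fun d => h - d))
  have h2 : (Bd.image (fun d => h + d)).card ≤ Bd.card := card_image_le
  have h3 : (Bd.image (fun d => h - d)).card ≤ Bd.card := card_image_le
  omega

/-- van der Corput's inequality for moduli -/
theorem vdc (good : ℕ → Prop) [DecidablePred good] (f g : ℤ → ℂ) (hf : B1 f) (hg : B1 g) (q : ℕ)
    (hfq : Per q f) (X Y κ : ℝ) (H : ℕ) (hY : 0 ≤ Y) (hκ : 0 ≤ κ) (hH : 1 ≤ κ * H)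
    (hHq : (H : ℝ) * q ≤ κ * X)
    (hbad : (((Finset.Ico 1 H).filter (fun d => ¬ good d)).card : ℝ) ≤ κ * H)
    (hgood : ∀ d : ℕ, good d → Bnd (D ((d * q : ℕ) : ℤ) g) X Y) :
    Bnd (f * g) X (Real.sqrt (Y + 3 * κ) + 2 * κ) := by
  intro M L hL
  have hX : 0 ≤ X := (Nat.cast_nonneg L).trans hL
  have hH1 : 1 ≤ H := by
    rcases Nat.eq_zero_or_pos H with h | h
    · rw [h] at hH; norm_num at hH
    · exact h
  have hH0 : (0 : ℝ) < H := by exact_mod_cast hH1
  refine (I_avg (hf.mul hg) M L q H hH1).trans ?_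
  have e1 : 2 * ((H : ℝ) * q) ≤ 2 * κ * X := by linarith
  -- the main term
  have e2 : ∑ h ∈ range H, I (f * g) (M + (h * q : ℕ)) L =
      ∑ i ∈ range L, f (M + i) * ∑ h ∈ range H, g (M + i + (h * q : ℕ)) := by
    unfold I
    rw [sum_comm]
    apply sum_congr rfl
    intro i _
    rw [mul_sum]
    apply sum_congr rfl
    intro h _
    have h1 : M + ((h * q : ℕ) : ℤ) + i = M + i + h * q := by push_cast; ring
    have h2 : M + (i : ℤ) + ((h * q : ℕ) : ℤ) = M + i + h * q := by push_cast; ring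
    rw [h1, h2, Pi.mul_apply, hfq.mul_nat]
  have e3 : ‖∑ h ∈ range H, I (f * g) (M + (h * q : ℕ)) L‖ ≤
      ∑ i ∈ range L, ‖∑ h ∈ range H, g (M + i + (h * q : ℕ))‖ := by
    rw [e2]
    refine (norm_sum_le _ _).trans (sum_le_sum fun i _ => ?_)
    rw [norm_mul]
    calc _ ≤ 1 * ‖∑ h ∈ range H, g (M + i + (h * q : ℕ))‖ := by
          apply mul_le_mul_of_nonneg_right (hf _) (norm_nonneg _)
      _ = _ := one_mul _
  have e4 : (∑ i ∈ range L, ‖∑ h ∈ range H, g (M + i + (h * q : ℕ))‖) ^ 2 ≤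
      L * ∑ i ∈ range L, ‖∑ h ∈ range H, g (M + i + (h * q : ℕ))‖ ^ 2 := by
    have := sq_sum_le_card_mul_sum_sq (s := range L)
      (f := fun i => ‖∑ h ∈ range H, g (M + i + (h * q : ℕ))‖)
    rwa [card_range] at this
  have e5 : ∑ i ∈ range L, ‖∑ h ∈ range H, g (M + i + (h * q : ℕ))‖ ^ 2 ≤
      ∑ h ∈ range H, ∑ h' ∈ range H,
        ‖∑ i ∈ range L, g (M + i + (h * q : ℕ)) * (starRingEnd ℂ) (g (M + i + (h' * q : ℕ)))‖ := by
    have h1 : ((∑ i ∈ range L, ‖∑ h ∈ range H, g (M + i + (h * q : ℕ))‖ ^ 2 : ℝ) : ℂ) =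
        ∑ h ∈ range H, ∑ h' ∈ range H,
          ∑ i ∈ range L, g (M + i + (h * q : ℕ)) * (starRingEnd ℂ) (g (M + i + (h' * q : ℕ))) := by
      push_cast
      have h2 : ∀ h ∈ range H, ∑ h' ∈ range H,
          ∑ i ∈ range L, g (M + i + (h * q : ℕ)) * (starRingEnd ℂ) (g (M + i + (h' * q : ℕ))) =
          ∑ i ∈ range L, ∑ h' ∈ range H,
            g (M + i + (h * q : ℕ)) * (starRingEnd ℂ) (g (M + i + (h' * q : ℕ))) := by
        intro h _
        rw [sum_comm]
      push_cast at h2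
      rw [sum_congr rfl h2, sum_comm]
      apply sum_congr rfl
      intro i _
      rw [← Complex.mul_conj', map_sum, sum_mul_sum]
    have h2 : (∑ i ∈ range L, ‖∑ h ∈ range H, g (M + i + (h * q : ℕ))‖ ^ 2 : ℝ) =
        ‖((∑ i ∈ range L, ‖∑ h ∈ range H, g (M + i + (h * q : ℕ))‖ ^ 2 : ℝ) : ℂ)‖ := by
      rw [Complex.norm_real, Real.norm_of_nonneg]
      exact sum_nonneg fun i _ => by positivity
    rw [h2, h1]
    refine (norm_sum_le _ _).trans (sum_le_sum fun h _ => ?_)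
    exact norm_sum_le _ _
  have e6 : ∀ h ∈ range H, ∑ h' ∈ range H,
        ‖∑ i ∈ range L, g (M + i + (h * q : ℕ)) * (starRingEnd ℂ) (g (M + i + (h' * q : ℕ)))‖ ≤
      H * X * (Y + 3 * κ) := by
    intro h hh
    rw [mem_range] at hh
    have h1 : ∀ h' ∈ range H,
        ‖∑ i ∈ range L, g (M + i + (h * q : ℕ)) * (starRingEnd ℂ) (g (M + i + (h' * q : ℕ)))‖ ≤
        (if ¬ (h ≠ h' ∧ good (max h h' - min h h')) then X else 0) + Y * X := by
      intro h' hh'
      by_cases hc : h ≠ h' ∧ good (max h h' - min h h')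
      swap
      · rw [if_pos hc]
        have h2 : ‖∑ i ∈ range L, g (M + i + (h * q : ℕ)) *
            (starRingEnd ℂ) (g (M + i + (h' * q : ℕ)))‖ ≤ L := by
          refine (norm_sum_le _ _).trans ?_
          calc _ ≤ ∑ i ∈ range L, (1 : ℝ) := by
                apply sum_le_sum
                intro i _
                rw [norm_mul, RCLike.norm_conj]
                exact mul_le_one₀ (hg _) (norm_nonneg _) (hg _)
            _ = L := by simp
        have h3 : 0 ≤ Y * X := mul_nonneg hY hX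
        linarith
      · rw [if_neg (not_not.mpr hc)]
        obtain ⟨hne, hgd⟩ := hc
        rw [zero_add]
        rcases lt_or_gt_of_ne hne with h3 | h3
        · rw [max_eq_right h3.le, min_eq_left h3.le] at hgd
          rw [inner_eq g M L q h h' h3.le]
          exact hgood _ hgd _ _ hL
        · rw [max_eq_left h3.le, min_eq_right h3.le] at hgd
          have h4 : ∑ i ∈ range L, g (M + i + (h * q : ℕ)) *
              (starRingEnd ℂ) (g (M + i + (h' * q : ℕ))) =
              (starRingEnd ℂ) (∑ i ∈ range L, g (M + i + (h' * q : ℕ)) *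
              (starRingEnd ℂ) (g (M + i + (h * q : ℕ)))) := by
            rw [map_sum]
            apply sum_congr rfl
            intro i _
            rw [map_mul, Complex.conj_conj, mul_comm]
          rw [h4, RCLike.norm_conj, inner_eq g M L q h' h h3.le]
          exact hgood _ hgd _ _ hL
    refine (sum_le_sum h1).trans ?_
    rw [sum_add_distrib, ← sum_filter, sum_const, sum_const, card_range, nsmul_eq_mul, nsmul_eq_mul]
    have h2 : (((range H).filter (fun h' => ¬ (h ≠ h' ∧ good (max h h' - min h h')))).card : ℝ) ≤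
        1 + 2 * (((Finset.Ico 1 H).filter (fun d => ¬ good d)).card : ℝ) := by
      exact_mod_cast count_bad good H h hh
    have h3 : (((range H).filter (fun h' => ¬ (h ≠ h' ∧ good (max h h' - min h h')))).card : ℝ) ≤
        3 * κ * H := by linarith
    have h4 := mul_le_mul_of_nonneg_right h3 hX
    linarith
  have e7 : (∑ i ∈ range L, ‖∑ h ∈ range H, g (M + i + (h * q : ℕ))‖) ^ 2 ≤
      (H * X) ^ 2 * (Y + 3 * κ) := by
    refine e4.trans ?_
    have h1 : ∑ i ∈ range L, ‖∑ h ∈ range H, g (M + i + (h * q : ℕ))‖ ^ 2 ≤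
        H * (H * X * (Y + 3 * κ)) := by
      refine e5.trans ((sum_le_sum e6).trans ?_)
      rw [sum_const, card_range, nsmul_eq_mul]
    have h2 : 0 ≤ (H : ℝ) * (H * X * (Y + 3 * κ)) := by positivity
    calc _ ≤ (L : ℝ) * (H * (H * X * (Y + 3 * κ))) := mul_le_mul_of_nonneg_left h1 (Nat.cast_nonneg L)
      _ ≤ X * (H * (H * X * (Y + 3 * κ))) := mul_le_mul_of_nonneg_right hL h2
      _ = _ := by ring
  have e8 : ∑ i ∈ range L, ‖∑ h ∈ range H, g (M + i + (h * q : ℕ))‖ ≤
      H * X * Real.sqrt (Y + 3 * κ) := by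
    have h1 : 0 ≤ H * X * Real.sqrt (Y + 3 * κ) := by positivity
    apply le_of_sq_le_sq _ h1
    rw [mul_pow, Real.sq_sqrt (by positivity)]
    exact e7
  have e9 : ‖∑ h ∈ range H, I (f * g) (M + (h * q : ℕ)) L‖ / H ≤ X * Real.sqrt (Y + 3 * κ) := by
    rw [div_le_iff₀ hH0]
    refine (e3.trans e8).trans (le_of_eq ?_)
    ring
  calc _ ≤ X * Real.sqrt (Y + 3 * κ) + 2 * κ * X := add_le_add e9 e1
    _ = _ := by ring

end Pool.Agent.H18.CS
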