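import Pool.Agent.H18.CS.Group

set_option autoImplicit false

/-!
The bound for the sums of the iterated differences.
-/

namespace Pool.Agent.H18.CS

open Finset

lemma list_prod_le (l : List ℤ) (m : ℕ) (B : ℝ) (hB : 0 ≤ B)
    (h : ∀ a ∈ l, (Nat.gcd a.natAbs m : ℝ) ≤ B) :
    (l.map (fun a => (Nat.gcd a.natAbs m : ℝ))).prod ≤ B ^ l.length := by
  induction l with
  | nil => simp
  | cons a l ih =>
    rw [List.map_cons, List.prod_cons, List.length_cons, pow_succ, mul_comm]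
    apply mul_le_mul (ih fun b hb => h b (by simp [hb])) (h a (by simp)) (Nat.cast_nonneg _)
      (by positivity)

/-- the numerical inequality -/
lemma numeric (X η σ m L A τ : ℝ) (hX : 1 ≤ X) (hη : 0 < η) (hη2 : η ≤ 1 / 2) (hσ : 0 < σ)
    (hση : 32 * σ ≤ η) (hm1 : X ^ (η / 2) ≤ m) (hm2 : m ≤ X ^ (2 - η)) (hL1 : X ^ (1 - σ) / 2 ≤ L)
    (hL2 : L ≤ X ^ (1 - σ)) (hA : 0 ≤ A * τ) (hAτ : A * τ ≤ X ^ (η / 8) * Real.sqrt m) :
    Real.sqrt (X * (X / m + 1) * (m / L + 2 * A * τ)) + 2 * L ≤ 5 * X ^ (-σ) * X := by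
  have hX0 : 0 < X := by linarith
  have hm0 : 0 < m := lt_of_lt_of_le (Real.rpow_pos_of_pos hX0 _) hm1
  have hL0 : 0 < L := lt_of_lt_of_le (by positivity) hL1
  have hmono : ∀ a b : ℝ, a ≤ b → X ^ a ≤ X ^ b := fun a b h =>
    Real.rpow_le_rpow_of_exponent_le hX h
  have hs : Real.sqrt m * Real.sqrt m = m := Real.mul_self_sqrt hm0.le
  have hs0 : 0 < Real.sqrt m := Real.sqrt_pos.mpr hm0
  have hs1 : X ^ (η / 4) ≤ Real.sqrt m := by
    apply Real.le_sqrt_of_sq_le
    rw [← Real.rpow_natCast (X ^ (η / 4)) 2, ← Real.rpow_mul hX0.le]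
    refine le_trans (le_of_eq ?_) hm1
    congr 1
    push_cast
    ring
  have hs2 : Real.sqrt m ≤ X ^ (1 - η / 2) := by
    rw [Real.sqrt_le_left (by positivity)]
    rw [← Real.rpow_natCast (X ^ (1 - η / 2)) 2, ← Real.rpow_mul hX0.le]
    refine hm2.trans (le_of_eq ?_)
    congr 1
    push_cast
    ring
  -- first term
  have t1 : X * (X / m + 1) * (m / L) ≤ 4 * X ^ (2 - η / 8) := by
    have e1 : X * (X / m + 1) * (m / L) = X * (X + m) / L := by
      field_simp
    rw [e1, div_le_iff₀ hL0]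
    have e2 : X ≤ X ^ (2 - η) := by
      conv_lhs => rw [← Real.rpow_one X]
      exact hmono _ _ (by linarith)
    have e3 : X ^ (2 - η) * X ≤ X ^ (2 - η / 8) * X ^ (1 - σ) := by
      rw [← Real.rpow_add hX0]
      conv_lhs => rw [← Real.rpow_one X, ← Real.rpow_mul hX0.le, ← Real.rpow_add hX0]
      apply hmono
      linarith
    have e4 : 0 ≤ X ^ (2 - η / 8) := by positivity
    calc X * (X + m) ≤ X * (X ^ (2 - η) + X ^ (2 - η)) := by
          apply mul_le_mul_of_nonneg_left (add_le_add e2 hm2) hX0.le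
      _ = 2 * (X ^ (2 - η) * X) := by ring
      _ ≤ 2 * (X ^ (2 - η / 8) * X ^ (1 - σ)) := by linarith
      _ = 4 * X ^ (2 - η / 8) * (X ^ (1 - σ) / 2) := by ring
      _ ≤ 4 * X ^ (2 - η / 8) * L := by
          apply mul_le_mul_of_nonneg_left hL1 (by positivity)
  -- second term
  have t2 : X * (X / m + 1) * (2 * A * τ) ≤ 4 * X ^ (2 - η / 8) := by
    have e1 : X * (X / m + 1) * Real.sqrt m ≤ 2 * X ^ (2 - η / 4) := by
      have e2 : X * (X / m + 1) * Real.sqrt m = X * X / Real.sqrt m + X * Real.sqrt m := by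
        rw [eq_comm, div_add' _ _ _ hs0.ne', div_eq_iff hs0.ne']
        have : X * (X / m + 1) * Real.sqrt m * Real.sqrt m = X * (X / m + 1) * m := by
          rw [mul_assoc, hs]
        rw [this, mul_assoc X (Real.sqrt m), hs]
        field_simp
      rw [e2]
      have e3 : X * X / Real.sqrt m ≤ X ^ (2 - η / 4) := by
        rw [div_le_iff₀ hs0]
        calc X * X = X ^ (2 - η / 4) * X ^ (η / 4) := by
              rw [← Real.rpow_add hX0]
              conv_lhs => rw [← Real.rpow_one X, ← Real.rpow_add hX0]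
              congr 1
              ring
          _ ≤ X ^ (2 - η / 4) * Real.sqrt m := by
              apply mul_le_mul_of_nonneg_left hs1 (by positivity)
      have e4 : X * Real.sqrt m ≤ X ^ (2 - η / 4) := by
        calc X * Real.sqrt m ≤ X * X ^ (1 - η / 2) := mul_le_mul_of_nonneg_left hs2 hX0.le
          _ = X ^ (1 + (1 - η / 2)) := by rw [Real.rpow_add hX0, Real.rpow_one]
          _ ≤ _ := hmono _ _ (by linarith)
      linarith
    have e5 : 0 ≤ X * (X / m + 1) := by positivity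
    calc X * (X / m + 1) * (2 * A * τ) = 2 * (X * (X / m + 1) * (A * τ)) := by ring
      _ ≤ 2 * (X * (X / m + 1) * (X ^ (η / 8) * Real.sqrt m)) := by
          apply mul_le_mul_of_nonneg_left _ (by norm_num)
          exact mul_le_mul_of_nonneg_left hAτ e5
      _ = 2 * X ^ (η / 8) * (X * (X / m + 1) * Real.sqrt m) := by ring
      _ ≤ 2 * X ^ (η / 8) * (2 * X ^ (2 - η / 4)) := by
          apply mul_le_mul_of_nonneg_left e1 (by positivity)
      _ = 4 * (X ^ (η / 8) * X ^ (2 - η / 4)) := by ring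
      _ = 4 * X ^ (2 - η / 8) := by
          rw [← Real.rpow_add hX0]
          congr 2
          ring
  have t3 : X * (X / m + 1) * (m / L + 2 * A * τ) ≤ (3 * X ^ (1 - σ)) ^ 2 := by
    have e1 : (3 * X ^ (1 - σ)) ^ 2 = 9 * X ^ (2 - 2 * σ) := by
      rw [mul_pow, ← Real.rpow_natCast (X ^ (1 - σ)) 2, ← Real.rpow_mul hX0.le]
      norm_num
      congr 1
      ring
    have e2 : X ^ (2 - η / 8) ≤ X ^ (2 - 2 * σ) := hmono _ _ (by linarith)
    have e3 : 0 ≤ X ^ (2 - 2 * σ) := by positivity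
    rw [e1]
    calc X * (X / m + 1) * (m / L + 2 * A * τ) =
          X * (X / m + 1) * (m / L) + X * (X / m + 1) * (2 * A * τ) := by ring
      _ ≤ _ := by linarith
  have t4 : Real.sqrt (X * (X / m + 1) * (m / L + 2 * A * τ)) ≤ 3 * X ^ (1 - σ) := by
    rw [Real.sqrt_le_left (by positivity)]
    exact t3
  have t5 : X ^ (-σ) * X = X ^ (1 - σ) := by
    conv_lhs => rw [← Real.rpow_one X, ← Real.rpow_mul hX0.le, ← Real.rpow_add hX0]
    congr 1
    ring
  have t6 : 5 * X ^ (-σ) * X = 5 * X ^ (1 - σ) := by rw [mul_assoc, t5]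
  rw [t6]
  linarith

/-- the bound for the sums of the iterated differences -/
theorem endbound (X η σ : ℝ) (K : ℕ) (hX : 1 ≤ X) (hη : 0 < η) (hη2 : η ≤ 1 / 2)
    (hσ : 0 < σ) (hση : 32 * (K + 1) * σ ≤ η)
    (s : Finset ℕ) (hs : ∀ p ∈ s, p.Prime) (hs3 : ∀ p ∈ s, p % 3 = 1)
    (ψ : (p : ℕ) → MulChar (ZMod p) ℂ) (hψ : ∀ p ∈ s, ψ p ≠ 1) (hψ3 : ∀ p ∈ s, ψ p ^ 3 = 1)
    (hm1 : X ^ (η / 2) ≤ ∏ p ∈ s, (p : ℝ)) (hm2 : ∏ p ∈ s, (p : ℝ) ≤ X ^ (2 - η))
    (hτ : ((∏ p ∈ s, p).divisors.card : ℝ) ≤ X ^ σ)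
    (as : List ℤ) (hk : as.length ≤ K)
    (has : ∀ a ∈ as, (Nat.gcd a.natAbs (∏ p ∈ s, p) : ℝ) ≤ X ^ (2 * σ)) :
    Bnd (Ds as (∏ p ∈ s, fun n : ℤ => ψ p (n : ZMod p))) X (5 * X ^ (-σ)) := by
  have hX0 : 0 < X := by linarith
  set g : ℤ → ℂ := ∏ p ∈ s, fun n : ℤ => ψ p (n : ZMod p) with hg
  set m : ℕ := ∏ p ∈ s, p with hm
  have hmR : (m : ℝ) = ∏ p ∈ s, (p : ℝ) := by rw [hm]; push_cast; rfl
  have hm1' : 1 ≤ m := by
    apply Nat.succ_le_of_lt
    apply prod_pos
    intro q hq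
    exact (hs q hq).pos
  have hB : ∀ p ∈ s, B1 (fun n : ℤ => ψ p (n : ZMod p)) := by
    intro p hp n
    exact DirichletCharacter.norm_le_one (ψ p) _
  have hPer : ∀ p ∈ s, Per p (fun n : ℤ => ψ p (n : ZMod p)) := by
    intro p hp n
    push_cast
    simp
  have hgB : B1 g := by
    intro n
    rw [hg, prod_apply, norm_prod]
    apply prod_le_one (fun _ _ => norm_nonneg _)
    intro p hp
    exact hB p hp n
  have hgP : Per m g := Per_fprod s _ hPer
  set L : ℕ := ⌊X ^ (1 - σ)⌋₊ with hL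
  have hσ1 : σ ≤ 1 := by
    have : (0 : ℝ) ≤ K := Nat.cast_nonneg K
    nlinarith
  have hY1 : 1 ≤ X ^ (1 - σ) := Real.one_le_rpow hX (by linarith)
  have hL1 : 1 ≤ L := by rw [hL]; exact Nat.le_floor (by exact_mod_cast hY1)
  have hL2 : (L : ℝ) ≤ X ^ (1 - σ) := Nat.floor_le (by linarith)
  have hL3 : X ^ (1 - σ) / 2 ≤ L := by
    have h1 := Nat.lt_floor_add_one (X ^ (1 - σ))
    rw [← hL] at h1
    have h2 : (1 : ℝ) ≤ L := by exact_mod_cast hL1
    linarith
  set τ : ℝ := (m.divisors.card : ℝ) with hτdef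
  have hτ0 : 0 ≤ τ := Nat.cast_nonneg _
  set A : ℝ := (X ^ σ) ^ (as.length + 1) * Real.sqrt m * (X ^ (2 * σ)) ^ as.length with hA
  have hA0 : 0 ≤ A := by positivity
  have hcard : (2 : ℝ) ^ s.card = τ := by
    rw [hτdef, hm, card_div_fprod s hs]; push_cast; rfl
  have hc : ∀ z : ℕ, 1 ≤ z → z < L →
      ‖∑ x ∈ range m, D z (Ds as g) (x : ℤ)‖ ≤ A * (Nat.gcd z m : ℝ) := by
    intro z _ _
    have h1 : D z (Ds as g) = Ds (as ++ [(z : ℤ)]) g := by
      rw [Ds_append]; rfl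
    rw [h1]
    refine (complete s hs hs3 ψ hψ hψ3 (as ++ [(z : ℤ)])).trans ?_
    rw [List.length_append, List.length_singleton, List.map_append, List.prod_append, hcard, ← hm]
    have h2 : (List.map (fun a : ℤ => (Nat.gcd a.natAbs m : ℝ)) [(z : ℤ)]).prod =
        (Nat.gcd z m : ℝ) := by
      simp
    rw [h2, hA, ← mul_assoc]
    apply mul_le_mul_of_nonneg_right _ (Nat.cast_nonneg _)
    have h3 := list_prod_le as m (X ^ (2 * σ)) (by positivity) has
    have h4 : τ ^ (as.length + 1) ≤ (X ^ σ) ^ (as.length + 1) := pow_le_pow_left₀ hτ0 hτ _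
    apply mul_le_mul _ h3 _ (by positivity)
    · apply mul_le_mul_of_nonneg_right h4 (Real.sqrt_nonneg _)
    · apply List.prod_nonneg
      intro y hy
      rw [List.mem_map] at hy
      obtain ⟨a, _, rfl⟩ := hy
      exact Nat.cast_nonneg _
  intro M N hN
  refine (window m hm1' (Ds as g) (hgB.Ds as) (hgP.Ds as) X A hA0 L hL1 hc M N hN).trans ?_
  rw [← hmR] at hm1 hm2
  apply numeric X η σ m L A τ hX hη hη2 hσ _ hm1 hm2 hL3 hL2 (by positivity)
  · have h1 : A * τ ≤ (X ^ σ) ^ (as.length + 1) * Real.sqrt m * (X ^ (2 * σ)) ^ as.length * X ^ σ := by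
      rw [← hA]
      exact mul_le_mul_of_nonneg_left hτ hA0
    refine h1.trans ?_
    have h2 : (X ^ σ) ^ (as.length + 1) * Real.sqrt m * (X ^ (2 * σ)) ^ as.length * X ^ σ =
        X ^ (σ * (3 * as.length + 2)) * Real.sqrt m := by
      have e1 : (X ^ σ) ^ (as.length + 1) = X ^ (σ * (as.length + 1)) := by
        rw [← Real.rpow_natCast, ← Real.rpow_mul hX0.le]; push_cast; rfl
      have e2 : (X ^ (2 * σ)) ^ as.length = X ^ (2 * σ * as.length) := by
        rw [← Real.rpow_natCast, ← Real.rpow_mul hX0.le]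
      have e3 : X ^ (σ * (3 * as.length + 2)) =
          X ^ (σ * (as.length + 1)) * X ^ (2 * σ * as.length) * X ^ σ := by
        rw [← Real.rpow_add hX0, ← Real.rpow_add hX0]
        congr 1
        ring
      rw [e1, e2, e3]
      ring
    rw [h2]
    apply mul_le_mul_of_nonneg_right _ (Real.sqrt_nonneg _)
    apply Real.rpow_le_rpow_of_exponent_le hX
    have h3 : (as.length : ℝ) ≤ K := by exact_mod_cast hk
    nlinarith
  · have : (0 : ℝ) ≤ K := Nat.cast_nonneg K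
    nlinarith

end Pool.Agent.H18.CS
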