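import Pool.Agent.H18.CS.NSum

set_option autoImplicit false

/-!
Moments of short sums of iterated differences.
-/

namespace Pool.Agent.H18.CS

open Finset Polynomial

section

variable (p : ℕ) [hpf : Fact p.Prime]

/-- Weil's bound for nonconstant multiplicities -/
lemma weil_step (hp : p % 3 = 1) (χ : MulChar (ZMod p) ℂ) (hχ : χ ≠ 1) (hχ3 : χ ^ 3 = 1)
    (P R : (ZMod p)[X]) (hP : P.Monic) (hR : R.Monic) (hv : NC p (vPR p P R)) :
    ‖∑ x ∈ range p, gPR p χ P R (x : ℤ)‖ ≤ ((P.natDegree + R.natDegree : ℕ) : ℝ) * Real.sqrt p := by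
  have h1 : ∑ x ∈ range p, gPR p χ P R (x : ℤ) =
      ∑ x : ZMod p, χ (P.eval x) * (starRingEnd ℂ) (χ (R.eval x)) := by
    rw [← sum_range_zmod]
    apply sum_congr rfl
    intro x _
    simp [gPR]
  rw [h1]
  have hcop : Pool.Agent.H435R3.Weil.Cop 3 (P * R ^ (3 - 1)) := by
    obtain ⟨r, s, hrs⟩ := hv
    have h2 : ∃ r, vPR p P R r ≠ 0 := by
      by_contra hno
      push Not at hno
      exact hrs (by rw [hno r, hno s])
    obtain ⟨r, hr⟩ := h2
    refine ⟨r, ?_⟩
    rw [rootMultiplicity_mul (mul_ne_zero hP.ne_zero (hR.pow _).ne_zero)]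
    have h3 : rootMultiplicity r (R ^ (3 - 1)) = 2 * rootMultiplicity r R := by
      rw [show 3 - 1 = 2 by norm_num, pow_two,
        rootMultiplicity_mul (mul_ne_zero hR.ne_zero hR.ne_zero)]
      ring
    rw [h3, Nat.coprime_comm, Nat.Prime.coprime_iff_not_dvd Nat.prime_three]
    intro hdvd
    apply hr
    unfold vPR
    have h4 : ((rootMultiplicity r P + 2 * rootMultiplicity r R : ℕ) : ZMod 3) = 0 := by
      rwa [ZMod.natCast_eq_zero_iff]
    push_cast at h4
    have h5 : (2 : ZMod 3) = -1 := by decide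
    rw [h5] at h4
    rw [← h4]
    ring
  have hw := Pool.Agent.H435R3.Weil.weil (F := ZMod p) 3 (by norm_num)
    (by rw [ZMod.card]; omega) χ hχ hχ3 P R hP hR hcop
  rw [ZMod.card] at hw
  exact hw

/-- the product of `X + t` -/
noncomputable def Pl (l : List ℕ) : (ZMod p)[X] := (l.map (fun t : ℕ => X + C (t : ZMod p))).prod

lemma Pl_monic (l : List ℕ) : (Pl p l).Monic := by
  induction l with
  | nil => simp [Pl]
  | cons t l ih =>
    unfold Pl
    rw [List.map_cons, List.prod_cons]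
    exact (monic_X_add_C _).mul ih

lemma Pl_natDegree (l : List ℕ) : (Pl p l).natDegree = l.length := by
  induction l with
  | nil => simp [Pl]
  | cons t l ih =>
    have h : Pl p (t :: l) = (X + C (t : ZMod p)) * Pl p l := by
      unfold Pl; rw [List.map_cons, List.prod_cons]
    rw [h, (monic_X_add_C _).natDegree_mul (Pl_monic p l), ih, natDegree_X_add_C,
      List.length_cons, add_comm]

lemma Pl_root (l : List ℕ) (z : ZMod p) :
    rootMultiplicity z (Pl p l) = (l.map (fun t : ℕ => (t : ZMod p))).count (-z) := by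
  induction l with
  | nil =>
    have : Pl p [] = 1 := by simp [Pl]
    rw [this, List.map_nil, List.count_nil, rootMultiplicity_eq_zero_iff]
    intro h
    simp [IsRoot.def] at h
  | cons t l ih =>
    have h : Pl p (t :: l) = (X + C (t : ZMod p)) * Pl p l := by
      unfold Pl; rw [List.map_cons, List.prod_cons]
    rw [h, rootMultiplicity_mul (mul_ne_zero (monic_X_add_C _).ne_zero (Pl_monic p l).ne_zero), ih,
      List.map_cons, List.count_cons]
    have h2 : (X + C (t : ZMod p) : (ZMod p)[X]) = X - C (-(t : ZMod p)) := by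
      rw [C_neg, sub_neg_eq_add]
    rw [h2, rootMultiplicity_X_sub_C, add_comm]
    congr 1
    by_cases hz : z = -(t : ZMod p)
    · rw [if_pos hz, if_pos]
      rw [hz, neg_neg]
      simp
    · rw [if_neg hz, if_neg]
      intro hc
      apply hz
      have := beq_iff_eq.mp hc
      rw [this, neg_neg]

lemma count_cast (l : List ℕ) (c : ℕ) (hc : c < p) :
    (l.map (fun x => x % p)).count c = (l.map (fun t : ℕ => (t : ZMod p))).count (c : ZMod p) := by
  induction l with
  | nil => simp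
  | cons x l ih =>
    rw [List.map_cons, List.map_cons, List.count_cons, List.count_cons, ih]
    congr 1
    have h1 : (x % p = c) ↔ ((x : ZMod p) = (c : ZMod p)) := by
      rw [ZMod.natCast_eq_natCast_iff, Nat.ModEq, Nat.mod_eq_of_lt hc]
    by_cases h : x % p = c
    · have h2 := h1.mp h
      simp [h, h2]
    · have h2 : ¬ ((x : ZMod p) = (c : ZMod p)) := fun h3 => h (h1.mpr h3)
      rw [if_neg (by simpa using h), if_neg (by simpa using h2)]

lemma paired_of_not_NC (l1 l2 : List ℕ) (hlen : l1.length + l2.length < p)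
    (h : ¬ NC p (vPR p (Pl p l1) (Pl p l2))) : Paired p (l1 ++ l2) := by
  intro c hc
  apply h
  have hcp : c < p := by
    have h1 : 0 < ((l1 ++ l2).map (fun x => x % p)).count c := by omega
    have h2 := List.count_pos_iff.mp h1
    rw [List.mem_map] at h2
    obtain ⟨x, _, rfl⟩ := h2
    exact Nat.mod_lt _ hpf.out.pos
  rw [count_cast p _ c hcp, List.map_append, List.count_append] at hc
  -- a class without members
  obtain ⟨z, hz⟩ : ∃ z : ZMod p, z ∉ ((l1 ++ l2).map (fun t : ℕ => (t : ZMod p))).toFinset := by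
    by_contra hno
    push Not at hno
    have h1 : (univ : Finset (ZMod p)) ⊆ ((l1 ++ l2).map (fun t : ℕ => (t : ZMod p))).toFinset :=
      fun z _ => hno z
    have h2 := card_le_card h1
    have h3 := List.toFinset_card_le ((l1 ++ l2).map (fun t : ℕ => (t : ZMod p)))
    rw [card_univ, ZMod.card] at h2
    rw [List.length_map, List.length_append] at h3
    omega
  rw [List.mem_toFinset, List.map_append, List.mem_append, not_or] at hz
  refine ⟨-(c : ZMod p), -z, ?_⟩
  unfold vPR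
  rw [Pl_root, Pl_root, Pl_root, Pl_root, neg_neg, neg_neg, List.count_eq_zero_of_not_mem hz.1,
    List.count_eq_zero_of_not_mem hz.2]
  have h4 : ((l1.map (fun t : ℕ => (t : ZMod p))).count (c : ZMod p) = 1 ∧
      (l2.map (fun t : ℕ => (t : ZMod p))).count (c : ZMod p) = 0) ∨
      ((l1.map (fun t : ℕ => (t : ZMod p))).count (c : ZMod p) = 0 ∧
      (l2.map (fun t : ℕ => (t : ZMod p))).count (c : ZMod p) = 1) := by omega
  rcases h4 with ⟨e1, e2⟩ | ⟨e1, e2⟩
  · rw [e1, e2]; decide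
  · rw [e1, e2]; decide

lemma norm_gPR_le (χ : MulChar (ZMod p) ℂ) (P R : (ZMod p)[X]) : B1 (gPR p χ P R) := by
  intro n
  unfold gPR
  rw [norm_mul, RCLike.norm_conj]
  exact mul_le_one₀ (DirichletCharacter.norm_le_one χ _) (norm_nonneg _)
    (DirichletCharacter.norm_le_one χ _)

noncomputable instance (p : ℕ) (l : List ℕ) : Decidable (Paired p l) := Classical.dec _

/-- the local bound for products -/
theorem local2 (hp : p % 3 = 1) (χ : MulChar (ZMod p) ℂ) (hχ : χ ≠ 1) (hχ3 : χ ^ 3 = 1)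
    (as : List ℤ) (r : ℕ) (hr : 1 ≤ r) (l1 l2 : List ℕ) (h1 : l1.length = r) (h2 : l2.length = r) :
    ‖∑ x ∈ range p, Ds as (gPR p χ (Pl p l1) (Pl p l2)) (x : ℤ)‖ ≤
      (2 ^ as.length * (2 * r)) * Real.sqrt p * (as.map (fun a => (Nat.gcd a.natAbs p : ℝ))).prod *
        (if Paired p (l1 ++ l2) then Real.sqrt p else 1) := by
  have hp1 : 1 ≤ p := hpf.out.one_le
  have hp1R : (1 : ℝ) ≤ p := by exact_mod_cast hp1
  have hs1 : 1 ≤ Real.sqrt p := by rw [Real.one_le_sqrt]; exact hp1R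
  have hss : Real.sqrt p * Real.sqrt p = p := Real.mul_self_sqrt (by linarith)
  have htriv : ‖∑ x ∈ range p, Ds as (gPR p χ (Pl p l1) (Pl p l2)) (x : ℤ)‖ ≤ p := by
    refine (norm_sum_le _ _).trans ?_
    calc _ ≤ ∑ x ∈ range p, (1 : ℝ) := sum_le_sum fun x _ => (norm_gPR_le p χ _ _).Ds as _
      _ = p := by simp
  have hg1 := list_prod_ge_one as p hp1
  have hr1 : (1 : ℝ) ≤ r := by exact_mod_cast hr
  have hk1 : (1 : ℝ) ≤ 2 ^ as.length := one_le_pow₀ (by norm_num)
  have hkr : (1 : ℝ) ≤ 2 ^ as.length * (2 * r) := by nlinarith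
  have hI1 : (1 : ℝ) ≤ (if Paired p (l1 ++ l2) then Real.sqrt p else 1) := by
    split_ifs <;> linarith
  set g : ℝ := (as.map (fun a => (Nat.gcd a.natAbs p : ℝ))).prod with hg
  set J : ℝ := (if Paired p (l1 ++ l2) then Real.sqrt p else 1) with hJ
  by_cases hdiv : ∀ a ∈ as, (a : ZMod p) ≠ 0
  swap
  · push Not at hdiv
    obtain ⟨a, ha, ha0⟩ := hdiv
    rw [ZMod.intCast_zmod_eq_zero_iff_dvd] at ha0
    have h3 := list_prod_ge as p hp1 a ha ha0
    rw [← hg] at h3
    refine htriv.trans (h3.trans ?_)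
    calc g = 1 * 1 * g * 1 := by ring
      _ ≤ (2 ^ as.length * (2 * r)) * Real.sqrt p * g * J := by gcongr
  by_cases hpr : Paired p (l1 ++ l2)
  · have hJ2 : J = Real.sqrt p := by rw [hJ, if_pos hpr]
    refine htriv.trans ?_
    rw [hJ2]
    calc (p : ℝ) = 1 * Real.sqrt p * 1 * Real.sqrt p := by rw [one_mul, mul_one, hss]
      _ ≤ (2 ^ as.length * (2 * r)) * Real.sqrt p * g * Real.sqrt p := by gcongr
  by_cases hlt : l1.length + l2.length < p
  swap
  · have h3 : (p : ℝ) ≤ 2 * r := by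
      have : p ≤ 2 * r := by omega
      exact_mod_cast this
    have h4 : Real.sqrt p ≤ 2 * r := by
      have : Real.sqrt p ≤ p := by nlinarith
      linarith
    refine htriv.trans ?_
    calc (p : ℝ) = 1 * Real.sqrt p * Real.sqrt p * 1 * 1 := by
          rw [one_mul, mul_one, mul_one, hss]
      _ ≤ 2 ^ as.length * (2 * r) * Real.sqrt p * g * J := by gcongr
  have hNC : NC p (vPR p (Pl p l1) (Pl p l2)) := by
    by_contra hno
    exact hpr (paired_of_not_NC p l1 l2 hlt hno)
  obtain ⟨P, R, hP, hR, hv, hdeg, hD⟩ := state p hp χ as hdiv (Pl p l1) (Pl p l2) (Pl_monic p l1)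
    (Pl_monic p l2) hNC
  rw [hD]
  refine (weil_step p hp χ hχ hχ3 P R hP hR hv).trans ?_
  rw [hdeg, Pl_natDegree, Pl_natDegree, h1, h2]
  push_cast
  calc 2 ^ as.length * ((r : ℝ) + r) * Real.sqrt p = (2 ^ as.length * (2 * r)) * Real.sqrt p * 1 * 1 := by
        ring
    _ ≤ (2 ^ as.length * (2 * r)) * Real.sqrt p * g * J := by gcongr

end

/-- products of shifts -/
noncomputable def PS (g : ℤ → ℂ) (l1 l2 : List ℕ) : ℤ → ℂ := fun n =>
  (l1.map (fun t : ℕ => g (n + t))).prod * (l2.map (fun u : ℕ => (starRingEnd ℂ) (g (n + u)))).prod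

lemma PS_D (g : ℤ → ℂ) (a : ℤ) (l1 l2 : List ℕ) : PS (D a g) l1 l2 = D a (PS g l1 l2) := by
  funext n
  simp only [PS, D, map_mul, Complex.conj_conj]
  rw [List.prod_map_mul, List.prod_map_mul]
  have e1 : (starRingEnd ℂ) (l1.map (fun t : ℕ => g (n + a + t))).prod =
      (l1.map (fun t : ℕ => (starRingEnd ℂ) (g (n + t + a)))).prod := by
    rw [map_list_prod, List.map_map]
    congr 1
    apply List.map_congr_left
    intro t _
    simp only [Function.comp_apply]
    congr 2
    ring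
  have e2 : (starRingEnd ℂ) (l2.map (fun u : ℕ => (starRingEnd ℂ) (g (n + a + u)))).prod =
      (l2.map (fun u : ℕ => g (n + u + a))).prod := by
    rw [map_list_prod, List.map_map]
    congr 1
    apply List.map_congr_left
    intro t _
    simp only [Function.comp_apply, Complex.conj_conj]
    congr 1
    ring
  rw [e1, e2]
  ring

lemma PS_Ds (as : List ℤ) (l1 l2 : List ℕ) : ∀ g : ℤ → ℂ, PS (Ds as g) l1 l2 = Ds as (PS g l1 l2) := by
  induction as with
  | nil => intro g; rfl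
  | cons a as ih =>
    intro g
    show PS (Ds as (D a g)) l1 l2 = Ds as (D a (PS g l1 l2))
    rw [ih, PS_D]

lemma PS_prod (S : Finset ℕ) (F : ℕ → ℤ → ℂ) (l1 l2 : List ℕ) :
    PS (∏ p ∈ S, F p) l1 l2 = ∏ p ∈ S, PS (F p) l1 l2 := by
  classical
  induction S using Finset.induction_on with
  | empty =>
    funext n
    simp [PS]
  | insert p S hp ih =>
    rw [prod_insert hp, prod_insert hp, ← ih]
    funext n
    simp only [PS, Pi.mul_apply, map_mul]
    rw [List.prod_map_mul, List.prod_map_mul]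
    ring

lemma PS_char (p : ℕ) [Fact p.Prime] (χ : MulChar (ZMod p) ℂ) (l1 l2 : List ℕ) :
    PS (fun n : ℤ => χ (n : ZMod p)) l1 l2 = gPR p χ (Pl p l1) (Pl p l2) := by
  funext n
  have h1 : ∀ l : List ℕ, χ ((Pl p l).eval (n : ZMod p)) =
      (l.map (fun t : ℕ => χ (((n + t : ℤ)) : ZMod p))).prod := by
    intro l
    unfold Pl
    rw [eval_list_prod, map_list_prod, List.map_map, List.map_map]
    congr 1
    apply List.map_congr_left
    intro t _
    simp
  simp only [PS, gPR]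
  rw [h1, h1, map_list_prod, List.map_map]
  rfl

lemma PS_per (q : ℕ) (g : ℤ → ℂ) (hg : Per q g) (l1 l2 : List ℕ) : Per q (PS g l1 l2) := by
  intro n
  simp only [PS]
  congr 2
  · apply List.map_congr_left
    intro t _
    rw [← hg (n + t)]
    congr 1
    ring
  · apply List.map_congr_left
    intro t _
    rw [← hg (n + t)]
    congr 2
    ring

/-- complete sums of products -/
theorem complete2 (s : Finset ℕ) (hs : ∀ p ∈ s, p.Prime) (hs3 : ∀ p ∈ s, p % 3 = 1)
    (χ : (p : ℕ) → MulChar (ZMod p) ℂ) (hχ : ∀ p ∈ s, χ p ≠ 1) (hχ3 : ∀ p ∈ s, χ p ^ 3 = 1)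
    (as : List ℤ) (r : ℕ) (hr : 1 ≤ r) (l1 l2 : List ℕ) (h1 : l1.length = r) (h2 : l2.length = r) :
    ‖∑ x ∈ range (∏ p ∈ s, p),
      PS (Ds as (∏ p ∈ s, fun n : ℤ => χ p (n : ZMod p))) l1 l2 (x : ℤ)‖ ≤
      (2 ^ as.length * (2 * r)) ^ s.card * Real.sqrt (∏ p ∈ s, p : ℕ) *
        (as.map (fun a => (Nat.gcd a.natAbs (∏ p ∈ s, p) : ℝ))).prod *
        ∏ p ∈ s, (if Paired p (l1 ++ l2) then Real.sqrt p else 1) := by
  have hPer : ∀ p ∈ s, Per p (fun n : ℤ => χ p (n : ZMod p)) := by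
    intro p hp n
    push_cast
    simp
  rw [PS_Ds, PS_prod, Ds_prod,
    sum_fprod s hs (fun p => Ds as (PS (fun n : ℤ => χ p (n : ZMod p)) l1 l2))
    (fun p hp => (PS_per p _ (hPer p hp) l1 l2).Ds as), norm_prod]
  have h3 : ∀ p ∈ s, ‖∑ x ∈ range p, Ds as (PS (fun n : ℤ => χ p (n : ZMod p)) l1 l2) (x : ℤ)‖ ≤
      (2 ^ as.length * (2 * r)) * Real.sqrt p * (as.map (fun a => (Nat.gcd a.natAbs p : ℝ))).prod *
        (if Paired p (l1 ++ l2) then Real.sqrt p else 1) := by
    intro p hp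
    have hpf : Fact p.Prime := ⟨hs p hp⟩
    rw [PS_char]
    exact local2 p (hs3 p hp) (χ p) (hχ p hp) (hχ3 p hp) as r hr l1 l2 h1 h2
  refine (prod_le_prod (fun _ _ => norm_nonneg _) h3).trans (le_of_eq ?_)
  rw [prod_mul_distrib, prod_mul_distrib, prod_mul_distrib, prod_const]
  congr 2
  · congr 1
    push_cast
    rw [Real.sqrt_eq_rpow, ← Real.finsetProd_rpow _ _ (fun p _ => Nat.cast_nonneg p)]
    apply prod_congr rfl
    intro p _
    rw [Real.sqrt_eq_rpow]
  · clear h3
    induction as with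
    | nil => simp
    | cons a as ih =>
      simp only [List.map_cons, List.prod_cons]
      rw [prod_mul_distrib, ih, ← Nat.cast_prod, gcd_fprod s hs]

/-- the moments -/
theorem moment (s : Finset ℕ) (hs : ∀ p ∈ s, p.Prime) (hs3 : ∀ p ∈ s, p % 3 = 1)
    (χ : (p : ℕ) → MulChar (ZMod p) ℂ) (hχ : ∀ p ∈ s, χ p ≠ 1) (hχ3 : ∀ p ∈ s, χ p ^ 3 = 1)
    (as : List ℤ) (r : ℕ) (hr : 1 ≤ r) (L : ℕ) :
    ∑ x ∈ range (∏ p ∈ s, p),
      ‖I (Ds as (∏ p ∈ s, fun n : ℤ => χ p (n : ZMod p))) (x : ℤ) L‖ ^ (2 * r) ≤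
      (2 ^ as.length * (2 * r)) ^ s.card * Real.sqrt (∏ p ∈ s, p : ℕ) *
        (as.map (fun a => (Nat.gcd a.natAbs (∏ p ∈ s, p) : ℝ))).prod *
        ((1 + (2 * r : ℕ) : ℝ) ^ s.card * (L + (∏ p ∈ s, (p : ℝ)) ^ (1 / (2 * r) : ℝ))) ^ (2 * r) := by
  set G : ℤ → ℂ := Ds as (∏ p ∈ s, fun n : ℤ => χ p (n : ZMod p)) with hG
  set m : ℕ := ∏ p ∈ s, p with hm
  set A : ℝ := (2 ^ as.length * (2 * r)) ^ s.card * Real.sqrt (m : ℕ) *
        (as.map (fun a => (Nat.gcd a.natAbs m : ℝ))).prod with hA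
  have hA0 : 0 ≤ A := by
    rw [hA]
    apply mul_nonneg (by positivity)
    apply List.prod_nonneg
    intro y hy
    rw [List.mem_map] at hy
    obtain ⟨a, _, rfl⟩ := hy
    exact Nat.cast_nonneg _
  have e1 : ∀ x : ℤ, ((‖I G x L‖ ^ (2 * r) : ℝ) : ℂ) =
      nsum L (r + r) (fun l => PS G (l.take r) (l.drop r) x) := by
    intro x
    rw [← nsum_append]
    have h1 : nsum L r (fun l => nsum L r (fun l' => PS G ((l ++ l').take r) ((l ++ l').drop r) x)) =
        nsum L r (fun l => nsum L r (fun l' => PS G l l' x)) := by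
      apply nsum_congr
      intro l hl
      apply nsum_congr
      intro l' _
      rw [List.take_left' hl, List.drop_left' hl]
    rw [h1]
    have h2 : (fun l : List ℕ => nsum L r (fun l' => PS G l l' x)) =
        fun l => (∑ y ∈ range L, (starRingEnd ℂ) (G (x + y))) ^ r *
          (l.map (fun t : ℕ => G (x + t))).prod := by
      funext l
      rw [nsum_pow, mul_comm, ← nsum_mul]
      rfl
    rw [h2, nsum_mul, ← nsum_pow]
    have h3 : (∑ y ∈ range L, (starRingEnd ℂ) (G (x + y))) = (starRingEnd ℂ) (I G x L) := by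
      unfold I
      rw [map_sum]
    have h4 : (∑ y ∈ range L, G (x + y)) = I G x L := rfl
    rw [h3, h4, ← mul_pow, mul_comm ((starRingEnd ℂ) (I G x L)), Complex.mul_conj']
    push_cast
    rw [← pow_mul]
  have e2 : ((∑ x ∈ range m, ‖I G (x : ℤ) L‖ ^ (2 * r) : ℝ) : ℂ) =
      nsum L (r + r) (fun l => ∑ x ∈ range m, PS G (l.take r) (l.drop r) (x : ℤ)) := by
    rw [← nsum_sum]
    push_cast
    apply sum_congr rfl
    intro x _
    rw [← e1]
    push_cast
    rfl
  have e3 : ∑ x ∈ range m, ‖I G (x : ℤ) L‖ ^ (2 * r) =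
      ‖((∑ x ∈ range m, ‖I G (x : ℤ) L‖ ^ (2 * r) : ℝ) : ℂ)‖ := by
    rw [Complex.norm_real, Real.norm_of_nonneg]
    exact sum_nonneg fun _ _ => by positivity
  rw [e3, e2]
  refine (norm_nsum_le _ _ _).trans ?_
  have e4 : nsum L (r + r) (fun l => ‖∑ x ∈ range m, PS G (l.take r) (l.drop r) (x : ℤ)‖) ≤
      nsum L (r + r) (fun l => A * wt (1 / (2 * r)) s l) := by
    apply nsum_mono
    intro l hl
    have h1 := complete2 s hs hs3 χ hχ hχ3 as r hr (l.take r) (l.drop r)
      (by rw [List.length_take]; omega) (by rw [List.length_drop]; omega)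
    rw [List.take_append_drop] at h1
    refine h1.trans ?_
    apply mul_le_mul_of_nonneg_left _ hA0
    exact paired_le_wt r hr s (fun p hp => (hs p hp).one_le) l (by omega) (fun p => Paired p l)
      (fun p _ h => h)
  refine e4.trans ?_
  rw [nsum_mul]
  apply mul_le_mul_of_nonneg_left _ hA0
  have h5 := nsum_wt (1 / (2 * r)) (by positivity) (by
    have : (1 : ℝ) ≤ r := by exact_mod_cast hr
    rw [div_le_one (by positivity)]; linarith) s hs L (2 * r) (r + r) (by omega)
  rw [← two_mul] at h5 ⊢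
  exact h5

end Pool.Agent.H18.CS
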