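import Pool.Agent.H18.CS.EndBound
import Pool.Graph.R_pool_sql_team_seeded_b0a926ef.R524.Cubic.Sums
import Pool.Graph.R_seed8.Helper112.Arith

set_option autoImplicit false

/-!
The bound for primitive cubic characters.
-/

namespace Pool.Agent.H18.CS

open Finset

/-- the choice of the number of the shifts -/
lemma exists_H (X η σ : ℝ) (hX : 1 ≤ X) (hσ : 0 < σ) (hση : 6 * σ ≤ η) (h9 : 9 ≤ X ^ σ) (m : ℕ)
    (hm : 1 ≤ m) (hτ : (m.divisors.card : ℝ) ≤ X ^ σ) (r : ℕ) (hr : 1 ≤ r)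
    (hrX : (r : ℝ) ≤ X ^ (1 - η / 2)) :
    ∃ H : ℕ, 1 ≤ X ^ (-σ) * H ∧ (H : ℝ) * r ≤ X ^ (-σ) * X ∧
      (((Finset.Ico 1 H).filter (fun d => ¬ ((Nat.gcd d m : ℝ) ≤ X ^ (2 * σ)))).card : ℝ) ≤
        X ^ (-σ) * H := by
  have hX0 : 0 < X := by linarith
  have hr0 : (0 : ℝ) < r := by exact_mod_cast hr
  have hs0 : 0 < X ^ σ := Real.rpow_pos_of_pos hX0 _
  have hinv : X ^ (-σ) * X ^ σ = 1 := by
    rw [← Real.rpow_add hX0]; simp
  have hsum : X ^ (-σ) * X ^ (2 * σ) = X ^ σ := by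
    rw [← Real.rpow_add hX0]; congr 1; ring
  have hdbl : X ^ (2 * σ) = X ^ σ * X ^ σ := by
    rw [← Real.rpow_add hX0]; congr 1; ring
  set Y : ℝ := X ^ (-σ) * X / r with hY
  have hY0 : 0 ≤ Y := by positivity
  refine ⟨⌊Y⌋₊, ?_, ?_, ?_⟩
  · have h1 : X ^ (2 * σ) ≤ Y := by
      rw [hY, le_div_iff₀ hr0]
      calc X ^ (2 * σ) * r ≤ X ^ (2 * σ) * X ^ (1 - η / 2) :=
            mul_le_mul_of_nonneg_left hrX (by positivity)
        _ = X ^ (2 * σ + (1 - η / 2)) := by rw [Real.rpow_add hX0]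
        _ ≤ X ^ (-σ + 1) := Real.rpow_le_rpow_of_exponent_le hX (by linarith)
        _ = X ^ (-σ) * X := by rw [Real.rpow_add hX0, Real.rpow_one]
    have h2 := Nat.lt_floor_add_one Y
    have h3 : X ^ σ ≤ (⌊Y⌋₊ : ℝ) := by
      rw [hdbl] at h1
      nlinarith
    calc (1 : ℝ) = X ^ (-σ) * X ^ σ := hinv.symm
      _ ≤ X ^ (-σ) * (⌊Y⌋₊ : ℝ) := mul_le_mul_of_nonneg_left h3 (by positivity)
  · have h1 : (⌊Y⌋₊ : ℝ) ≤ Y := Nat.floor_le hY0
    calc (⌊Y⌋₊ : ℝ) * r ≤ Y * r := mul_le_mul_of_nonneg_right h1 hr0.le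
      _ = _ := by rw [hY]; field_simp
  · exact count_gcd m _ hm (X ^ (2 * σ)) (X ^ (-σ)) (X ^ σ) (by positivity) hτ (le_of_eq hsum.symm)

lemma coprime_fprod (S T : Finset ℕ) (hS : ∀ p ∈ S, p.Prime) (hT : ∀ p ∈ T, p.Prime)
    (h : Disjoint S T) : Nat.Coprime (∏ p ∈ S, p) (∏ p ∈ T, p) := by
  apply Nat.Coprime.prod_left
  intro p hp
  apply Nat.Coprime.prod_right
  intro r hr
  rw [Nat.coprime_primes (hS p hp) (hT r hr)]
  rintro rfl
  exact (Finset.disjoint_left.mp h) hp hr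

/-- the core -/
theorem core (X η σ : ℝ) (n K : ℕ) (hX : 1 < X) (hη : 0 < η) (hη2 : η ≤ 1 / 2)
    (hσ : 0 < σ) (hση : 32 * (K + 1) * σ ≤ η) (hK : 2 + 2 * n / η ≤ K) (h9 : 9 ≤ X ^ σ)
    (hdiv : ∀ m : ℕ, 1 ≤ m → (m : ℝ) ≤ X ^ (2 : ℝ) → (m.divisors.card : ℝ) ≤ X ^ σ)
    (s : Finset ℕ) (hs : ∀ p ∈ s, p.Prime) (hs3 : ∀ p ∈ s, p % 3 = 1)
    (ψ : (p : ℕ) → MulChar (ZMod p) ℂ) (hψ : ∀ p ∈ s, ψ p ≠ 1) (hψ3 : ∀ p ∈ s, ψ p ^ 3 = 1)
    (f : ℤ → ℂ) (hf : B1 f) (hf9 : Per 9 f) (hsX : ∏ p ∈ s, (p : ℝ) ≤ X ^ (n : ℝ))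
    (hlow : X ^ (η / 2) < ∏ p ∈ s, (p : ℝ))
    (hlarge : ∏ p ∈ s.filter (fun p : ℕ => X ^ (1 - η) < p), (p : ℝ) ≤ X ^ (2 - η)) :
    Bnd (f * ∏ p ∈ s, fun k : ℤ => ψ p (k : ZMod p)) X (80 * X ^ (-(σ / 2 ^ K))) := by
  classical
  have hX0 : 0 < X := by linarith
  have hX1 : 1 ≤ X := hX.le
  have hK0 : (0 : ℝ) ≤ K := Nat.cast_nonneg K
  have hmono : ∀ a b : ℝ, a ≤ b → X ^ a ≤ X ^ b := fun a b h =>
    Real.rpow_le_rpow_of_exponent_le hX1 h
  have h6 : 6 * σ ≤ η := by nlinarith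
  have h1s : ∀ p ∈ s, 1 ≤ p := fun p hp => (hs p hp).one_le
  -- the choice of the last modulus
  obtain ⟨G₀, hG₀s, hG₀1, hG₀2, hG₀3⟩ : ∃ G₀ ⊆ s, X ^ (η / 2) ≤ ∏ p ∈ G₀, (p : ℝ) ∧
      ∏ p ∈ G₀, (p : ℝ) ≤ X ^ (2 - η) ∧ ∀ p ∈ s \ G₀, 1 ≤ p ∧ (p : ℝ) ≤ X ^ (1 - η) := by
    by_cases hne : (s.filter (fun p : ℕ => X ^ (1 - η) < p)).Nonempty
    · refine ⟨s.filter (fun p : ℕ => X ^ (1 - η) < p), filter_subset _ _, ?_, hlarge, ?_⟩
      · obtain ⟨p, hp⟩ := hne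
        have h1 : (p : ℝ) ≤ ∏ p ∈ s.filter (fun p : ℕ => X ^ (1 - η) < p), (p : ℝ) := by
          have := fprod_mono {p} (s.filter (fun p : ℕ => X ^ (1 - η) < p))
            (fun q hq => h1s q (mem_filter.mp hq).1) (by simpa using hp)
          simpa using this
        have h2 := (mem_filter.mp hp).2
        refine le_trans ?_ h1
        refine le_trans ?_ h2.le
        exact hmono _ _ (by linarith)
      · intro p hp
        rw [mem_sdiff, mem_filter] at hp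
        refine ⟨h1s p hp.1, ?_⟩
        by_contra hc
        push Not at hc
        exact hp.2 ⟨hp.1, hc⟩
    · rw [not_nonempty_iff_eq_empty, filter_eq_empty_iff] at hne
      have hle : ∀ p ∈ s, 1 ≤ p ∧ (p : ℝ) ≤ X ^ (1 - η) := by
        intro p hp
        exact ⟨h1s p hp, not_lt.mp (hne hp)⟩
      obtain ⟨G, h1, h2, h3⟩ := exists_subset (X ^ (1 - η)) (X ^ (η / 2))
        (Real.one_le_rpow hX1 (by positivity)) s hle hlow
      refine ⟨G, h1, h2.le, ?_, fun p hp => hle p (mem_sdiff.mp hp).1⟩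
      refine h3.trans ?_
      rw [← Real.rpow_add hX0]
      exact hmono _ _ (by linarith)
  set m : ℕ := ∏ p ∈ G₀, p with hm
  have hmR : (m : ℝ) = ∏ p ∈ G₀, (p : ℝ) := by rw [hm]; push_cast; rfl
  have hG₀p : ∀ p ∈ G₀, p.Prime := fun p hp => hs p (hG₀s hp)
  have hm1 : 1 ≤ m := by
    apply Nat.succ_le_of_lt
    exact prod_pos fun q hq => (hG₀p q hq).pos
  have hτ : (m.divisors.card : ℝ) ≤ X ^ σ := by
    apply hdiv m hm1
    rw [hmR]
    exact hG₀2.trans (hmono _ _ (by linarith))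
  -- the grouping of the others
  obtain ⟨l, hl1, hl2, hl3⟩ := grouping (X ^ (1 - η)) (X ^ (η / 2))
    (Real.one_le_rpow hX1 (by linarith)) (Real.one_le_rpow hX1 (by positivity)) _ (s \ G₀) rfl hG₀3
  have hlen : l.length + 1 ≤ K := by
    have h1 : ∏ p ∈ s \ G₀, (p : ℝ) ≤ X ^ (n : ℝ) :=
      (fprod_mono _ s h1s sdiff_subset).trans hsX
    have h2 : X ^ (η / 2 * l.length) ≤ X ^ (η / 2 + n) := by
      rw [Real.rpow_mul hX0.le, Real.rpow_natCast, Real.rpow_add hX0]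
      exact hl3.trans (mul_le_mul_of_nonneg_left h1 (by positivity))
    rw [Real.rpow_le_rpow_left_iff hX] at h2
    have h3 : (l.length : ℝ) ≤ 1 + 2 * n / η := by
      have : (l.length : ℝ) = (η / 2 * l.length) / (η / 2) := by field_simp
      rw [this, div_le_iff₀ (by positivity)]
      refine h2.trans (le_of_eq ?_)
      field_simp
    have h4 : ((l.length + 1 : ℕ) : ℝ) ≤ K := by push_cast; linarith
    exact_mod_cast h4
  set F : ℕ → (ℤ → ℂ) := fun p => fun k : ℤ => ψ p (k : ZMod p) with hF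
  have hFB : ∀ p, B1 (F p) := by
    intro p k
    exact DirichletCharacter.norm_le_one (ψ p) _
  have hFP : ∀ p, Per p (F p) := by
    intro p k
    simp only [hF]
    push_cast
    simp
  have hFPB : ∀ G : Finset ℕ, B1 (∏ p ∈ G, F p) := by
    intro G k
    rw [prod_apply, norm_prod]
    apply prod_le_one (fun _ _ => norm_nonneg _)
    intro p _
    exact hFB p k
  set l2 : List (ℕ × (ℤ → ℂ)) := (9, f) :: l.map (fun G => (∏ p ∈ G, p, ∏ p ∈ G, F p)) with hl2def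
  have hl2len : l2.length = l.length + 1 := by rw [hl2def]; simp
  have hprod : (l2.map Prod.snd).prod * ∏ p ∈ G₀, F p = f * ∏ p ∈ s, F p := by
    rw [hl2def, List.map_cons, List.prod_cons, List.map_map, mul_assoc]
    have : (List.map (Prod.snd ∘ fun G : Finset ℕ => (∏ p ∈ G, p, ∏ p ∈ G, F p)) l).prod =
        ∏ p ∈ s \ G₀, F p := hl2 F
    rw [this, prod_sdiff hG₀s]
  -- sizes and coprimality of the moduli
  have hmod : ∀ x ∈ l2, 1 ≤ x.1 ∧ (x.1 : ℝ) ≤ X ^ (1 - η / 2) ∧ Nat.Coprime x.1 m ∧ B1 x.2 ∧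
      Per x.1 x.2 := by
    intro x hx
    rw [hl2def] at hx
    rcases List.mem_cons.mp hx with rfl | hx
    · refine ⟨by norm_num, ?_, ?_, hf, hf9⟩
      · have h1 : X ^ σ ≤ X ^ (1 - η / 2) := hmono _ _ (by linarith)
        exact (by exact_mod_cast h9 : ((9 : ℕ) : ℝ) ≤ X ^ σ).trans h1
      · rw [hm]
        apply Nat.Coprime.prod_right
        intro p hp
        rw [show (9 : ℕ) = 3 ^ 2 by norm_num]
        apply Nat.Coprime.pow_left
        rw [Nat.coprime_primes Nat.prime_three (hG₀p p hp)]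
        rintro rfl
        have := hs3 3 (hG₀s hp)
        omega
    · rw [List.mem_map] at hx
      obtain ⟨G, hG, rfl⟩ := hx
      obtain ⟨e1, e2⟩ := hl1 G hG
      have hGs : ∀ p ∈ G, p.Prime := fun p hp => hs p (mem_sdiff.mp (e1 hp)).1
      refine ⟨?_, ?_, ?_, hFPB G, ?_⟩
      · apply Nat.succ_le_of_lt
        exact prod_pos fun q hq => (hGs q hq).pos
      · dsimp only
        push_cast
        refine e2.trans ?_
        rw [← Real.rpow_add hX0]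
        exact hmono _ _ (by linarith)
      · apply coprime_fprod G G₀ hGs hG₀p
        rw [Finset.disjoint_left]
        intro p hp hp'
        exact (mem_sdiff.mp (e1 hp)).2 hp'
      · exact Per_fprod G F fun p _ => hFP p
  have hκ1 : X ^ (-σ) ≤ 1 := by
    rw [Real.rpow_neg hX0.le]
    apply inv_le_one_of_one_le₀
    linarith
  have hκ0 : 0 < X ^ (-σ) := Real.rpow_pos_of_pos hX0 _
  have main := iter (fun d => (Nat.gcd d m : ℝ) ≤ X ^ (2 * σ)) X (X ^ (-σ)) hκ0.le hκ1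
    (5 * X ^ (-σ)) (by linarith) l2 (∏ p ∈ G₀, F p) (hFPB G₀) (by
      intro x hx
      obtain ⟨e1, e2, _, e4, e5⟩ := hmod x hx
      refine ⟨e4, e5, ?_⟩
      obtain ⟨H, a1, a2, a3⟩ := exists_H X η σ hX1 hσ h6 h9 m hm1 hτ x.1 e1 e2
      exact ⟨H, a1, a2, by convert a3⟩) (by
      apply allG_of _ _ (fun a => (Nat.gcd a.natAbs m : ℝ) ≤ X ^ (2 * σ))
      · intro r hr d hd
        rw [List.mem_map] at hr
        obtain ⟨x, hx, rfl⟩ := hr
        obtain ⟨_, _, e3, _⟩ := hmod x hx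
        rw [Int.natAbs_natCast, Nat.Coprime.gcd_mul_right_cancel d e3]
        exact hd
      · intro as has hC
        rw [List.length_map, hl2len] at has
        exact endbound X η σ K hX1 hη hη2 hσ hση G₀ hG₀p (fun p hp => hs3 p (hG₀s hp)) ψ
          (fun p hp => hψ p (hG₀s hp)) (fun p hp => hψ3 p (hG₀s hp)) hG₀1 hG₀2 hτ as
          (by omega) hC)
  rw [hprod] at main
  refine main.mono ?_
  have hY0 : 0 < 5 * X ^ (-σ) := by positivity
  have hY1 : 5 * X ^ (-σ) ≤ 1 := by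
    rw [Real.rpow_neg hX0.le, mul_inv_le_iff₀ (by positivity)]
    linarith
  refine (it_le _ hY0.le _).trans ?_
  have e1 : (5 * X ^ (-σ)) ^ (1 / 2 ^ l2.length : ℝ) ≤ (5 * X ^ (-σ)) ^ (1 / 2 ^ K : ℝ) := by
    apply Real.rpow_le_rpow_of_exponent_ge hY0 hY1
    apply one_div_le_one_div_of_le (by positivity)
    apply pow_le_pow_right₀ (by norm_num)
    omega
  have e2 : (5 * X ^ (-σ)) ^ (1 / 2 ^ K : ℝ) ≤ 5 * X ^ (-(σ / 2 ^ K)) := by
    rw [Real.mul_rpow (by norm_num) hκ0.le, ← Real.rpow_mul hX0.le]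
    have e3 : (5 : ℝ) ^ (1 / 2 ^ K : ℝ) ≤ 5 := by
      conv_rhs => rw [← Real.rpow_one 5]
      apply Real.rpow_le_rpow_of_exponent_le (by norm_num)
      rw [div_le_one (by positivity)]
      exact one_le_pow₀ (by norm_num)
    have e4 : -σ * (1 / 2 ^ K) = -(σ / 2 ^ K) := by ring
    rw [e4]
    exact mul_le_mul_of_nonneg_right e3 (by positivity)
  linarith

end Pool.Agent.H18.CS
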