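import Pool.Agent.H18.CS.At
import Pool.Agent.H18.CS.Moment
import Pool.Agent.H18.CS.Prim

set_option autoImplicit false

/-!
Exceptional positions.
-/

namespace Pool.Agent.H18.CS

open Finset

lemma I_len (G : ℤ → ℂ) (hG : B1 G) (N : ℤ) (L L' : ℕ) (h : L' ≤ L) :
    ‖I G N L‖ ≤ ‖I G N L'‖ + (L - L' : ℕ) := by
  obtain ⟨k, rfl⟩ := Nat.exists_eq_add_of_le h
  have h1 : I G N (L' + k) = I G N L' + I G (N + L') k := by
    unfold I
    rw [sum_range_add]
    congr 1
    apply sum_congr rfl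
    intro i _
    congr 1
    push_cast
    ring
  rw [h1, Nat.add_sub_cancel_left]
  exact (norm_add_le _ _).trans (add_le_add_right (norm_I_le hG _ _) _)

open Classical in
/-- few positions are bad for a function with small moments -/
theorem exc_count (m : ℕ) (G : ℤ → ℂ) (hG : B1 G) (hP : Per m G) (X Y Z : ℝ) (r R : ℕ)
    (hX : 1 ≤ X) (hY : 0 < Y) (hY1 : Y ≤ 1) (hXY : 16 ≤ Y * X) (hR : (R : ℝ) ≤ X) (hZ : 0 ≤ Z)
    (hmom : ∀ L : ℕ, (L : ℝ) ≤ X → ∑ x ∈ range m, ‖I G (x : ℤ) L‖ ^ (2 * r) ≤ Z * X ^ (2 * r)) :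
    (((range m).filter (fun M : ℕ => ¬ BndAt G X Y (M : ℤ) R)).card : ℝ) ≤
      (17 / Y) ^ 2 * ((2 / Y) ^ (2 * r) * Z) := by
  have hX0 : 0 < X := by linarith
  set s : ℕ := ⌊Y * X / 8⌋₊ with hs
  have hs1 : 2 ≤ s := by
    rw [hs]
    apply Nat.le_floor
    push_cast
    linarith
  have hs0 : (0 : ℝ) < s := by
    have : (2 : ℝ) ≤ s := by exact_mod_cast hs1
    linarith
  have hs2 : (s : ℝ) ≤ Y * X / 8 := Nat.floor_le (by positivity)
  have hs3 : Y * X / 16 ≤ s := by
    have h1 := Nat.lt_floor_add_one (Y * X / 8)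
    rw [← hs] at h1
    have h2 : (2 : ℝ) ≤ s := by exact_mod_cast hs1
    linarith
  set A : ℕ := R / s + 1 with hA
  set B : ℕ := ⌊X⌋₊ / s + 1 with hB
  have hAB : ∀ t : ℝ, t ≤ X → t / s + 1 ≤ 17 / Y := by
    intro t ht
    have h1 : t / s ≤ 16 / Y := by
      rw [div_le_div_iff₀ hs0 hY]
      nlinarith
    have h2 : 1 ≤ 1 / Y := by rw [le_div_iff₀ hY]; linarith
    have h3 : (17 : ℝ) / Y = 16 / Y + 1 / Y := by ring
    linarith
  have hA1 : (A : ℝ) ≤ 17 / Y := by
    rw [hA]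
    push_cast
    have : ((R / s : ℕ) : ℝ) ≤ (R : ℝ) / s := Nat.cast_div_le
    have := hAB R hR
    linarith
  have hB1 : (B : ℝ) ≤ 17 / Y := by
    rw [hB]
    push_cast
    have h1 : ((⌊X⌋₊ / s : ℕ) : ℝ) ≤ (⌊X⌋₊ : ℝ) / s := Nat.cast_div_le
    have h2 := hAB ⌊X⌋₊ (Nat.floor_le hX0.le)
    linarith
  -- each bad position is seen on the grid
  have h1 : ∀ M ∈ (range m).filter (fun M : ℕ => ¬ BndAt G X Y (M : ℤ) R),
      (1 : ℝ) ≤ ∑ i ∈ range A, ∑ b ∈ range B,
        (2 / (Y * X)) ^ (2 * r) * ‖I G ((M : ℤ) + (i * s : ℕ)) (b * s)‖ ^ (2 * r) := by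
    intro M hM
    rw [mem_filter] at hM
    obtain ⟨_, hM⟩ := hM
    unfold BndAt at hM
    push Not at hM
    obtain ⟨j, hj, L, hL, hbig⟩ := hM
    have hi : j / s ∈ range A := by
      rw [mem_range, hA]
      have := Nat.div_le_div_right (c := s) hj
      omega
    have hLX : L ≤ ⌊X⌋₊ := Nat.le_floor hL
    have hb : L / s ∈ range B := by
      rw [mem_range, hB]
      have := Nat.div_le_div_right (c := s) hLX
      omega
    have e1 : Y * X / 2 ≤ ‖I G ((M : ℤ) + (j / s * s : ℕ)) (L / s * s)‖ := by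
      have hjs : j / s * s ≤ j := Nat.div_mul_le_self j s
      have hLs : L / s * s ≤ L := Nat.div_mul_le_self L s
      have hjr : j - j / s * s ≤ s := by
        have := Nat.lt_div_mul_add (a := j) (b := s) (by omega)
        omega
      have hLr : L - L / s * s ≤ s := by
        have := Nat.lt_div_mul_add (a := L) (b := s) (by omega)
        omega
      have a1 := I_len G hG ((M : ℤ) + j) L (L / s * s) hLs
      have a2 := I_shift hG ((M : ℤ) + (j / s * s : ℕ)) (L / s * s) (j - j / s * s)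
      have a3 : (M : ℤ) + (j / s * s : ℕ) + ((j - j / s * s : ℕ) : ℤ) = (M : ℤ) + j := by
        rw [Nat.cast_sub hjs]; ring
      rw [a3] at a2
      have a4 : ‖I G ((M : ℤ) + j) (L / s * s)‖ ≤
          ‖I G ((M : ℤ) + (j / s * s : ℕ)) (L / s * s)‖ + 2 * ((j - j / s * s : ℕ) : ℝ) := by
        have := norm_sub_norm_le (I G ((M : ℤ) + j) (L / s * s))
          (I G ((M : ℤ) + (j / s * s : ℕ)) (L / s * s))
        rw [norm_sub_rev] at this
        linarith
      have a5 : ((j - j / s * s : ℕ) : ℝ) ≤ s := by exact_mod_cast hjr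
      have a6 : ((L - L / s * s : ℕ) : ℝ) ≤ s := by exact_mod_cast hLr
      linarith
    have e2 : (1 : ℝ) ≤ (2 / (Y * X)) ^ (2 * r) *
        ‖I G ((M : ℤ) + (j / s * s : ℕ)) (L / s * s)‖ ^ (2 * r) := by
      rw [← mul_pow]
      apply one_le_pow₀
      have hYX : 0 < Y * X := by positivity
      rw [div_mul_eq_mul_div, le_div_iff₀ hYX]
      linarith
    refine e2.trans ?_
    have e3 : ∀ i ∈ range A, 0 ≤ ∑ b ∈ range B,
        (2 / (Y * X)) ^ (2 * r) * ‖I G ((M : ℤ) + (i * s : ℕ)) (b * s)‖ ^ (2 * r) :=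
      fun i _ => sum_nonneg fun b _ => by positivity
    refine le_trans ?_ (single_le_sum e3 hi)
    exact single_le_sum (f := fun b => (2 / (Y * X)) ^ (2 * r) *
      ‖I G ((M : ℤ) + (j / s * s : ℕ)) (b * s)‖ ^ (2 * r)) (fun b _ => by positivity) hb
  have h2 : (((range m).filter (fun M : ℕ => ¬ BndAt G X Y (M : ℤ) R)).card : ℝ) ≤
      ∑ M ∈ range m, ∑ i ∈ range A, ∑ b ∈ range B,
        (2 / (Y * X)) ^ (2 * r) * ‖I G ((M : ℤ) + (i * s : ℕ)) (b * s)‖ ^ (2 * r) := by
    rw [← nsmul_one, ← sum_const]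
    refine (sum_le_sum h1).trans ?_
    apply sum_le_sum_of_subset_of_nonneg (filter_subset _ _)
    intro M _ _
    exact sum_nonneg fun i _ => sum_nonneg fun b _ => by positivity
  refine h2.trans ?_
  rw [sum_comm]
  have h3 : ∀ i ∈ range A, ∑ M ∈ range m, ∑ b ∈ range B,
        (2 / (Y * X)) ^ (2 * r) * ‖I G ((M : ℤ) + (i * s : ℕ)) (b * s)‖ ^ (2 * r) ≤
      B * ((2 / Y) ^ (2 * r) * Z) := by
    intro i _
    rw [sum_comm]
    have h4 : ∀ b ∈ range B, ∑ M ∈ range m,
        (2 / (Y * X)) ^ (2 * r) * ‖I G ((M : ℤ) + (i * s : ℕ)) (b * s)‖ ^ (2 * r) ≤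
        (2 / Y) ^ (2 * r) * Z := by
      intro b hb
      rw [← mul_sum]
      have hbs : ((b * s : ℕ) : ℝ) ≤ X := by
        rw [mem_range, hB] at hb
        have h5 : b * s ≤ ⌊X⌋₊ := by
          have : b ≤ ⌊X⌋₊ / s := by omega
          exact (Nat.mul_le_mul_right s this).trans (Nat.div_mul_le_self _ _)
        exact (by exact_mod_cast h5 : ((b * s : ℕ) : ℝ) ≤ (⌊X⌋₊ : ℝ)).trans (Nat.floor_le hX0.le)
      have h6 := sum_period (fun x : ℤ => ‖I G x (b * s)‖ ^ (2 * r)) m (by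
        intro n
        have : I G (n + m) (b * s) = I G n (b * s) := by
          unfold I
          apply sum_congr rfl
          intro i _
          rw [← hP (n + i)]
          congr 1
          ring
        rw [this]) (i * s : ℕ)
      have h7 : ∑ M ∈ range m, ‖I G ((M : ℤ) + (i * s : ℕ)) (b * s)‖ ^ (2 * r) =
          ∑ M ∈ range m, ‖I G (M : ℤ) (b * s)‖ ^ (2 * r) := by
        rw [← h6]
        apply sum_congr rfl
        intro x _
        rw [add_comm]
      rw [h7]
      have h8 := hmom (b * s) hbs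
      calc (2 / (Y * X)) ^ (2 * r) * ∑ M ∈ range m, ‖I G (M : ℤ) (b * s)‖ ^ (2 * r) ≤
            (2 / (Y * X)) ^ (2 * r) * (Z * X ^ (2 * r)) :=
            mul_le_mul_of_nonneg_left h8 (by positivity)
        _ = (2 / Y) ^ (2 * r) * Z := by
            have : (2 / (Y * X)) ^ (2 * r) * X ^ (2 * r) = (2 / Y) ^ (2 * r) := by
              rw [← mul_pow]
              congr 1
              field_simp
            rw [← this]
            ring
    refine (sum_le_sum h4).trans ?_
    rw [sum_const, card_range, nsmul_eq_mul]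
  refine (sum_le_sum h3).trans ?_
  rw [sum_const, card_range, nsmul_eq_mul, ← mul_assoc, pow_two]
  have h9 : 0 ≤ (2 / Y) ^ (2 * r) * Z := by positivity
  apply mul_le_mul_of_nonneg_right _ h9
  apply mul_le_mul hA1 hB1 (by positivity) (by positivity)

open Classical in
lemma cnt_congr (m : ℕ) (good : ℕ → Prop) (P P' : (ℤ → ℂ) → Prop)
    (h : ∀ g, Per m g → (P g ↔ P' g)) (l : List (ℕ × ℕ)) : ∀ g : ℤ → ℂ, Per m g →
    cnt good P l g = cnt good P' l g := by
  induction l with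
  | nil =>
    intro g hg
    show (if P g then (0 : ℝ) else 1) = if P' g then 0 else 1
    simp only [h g hg]
  | cons x l ih =>
    intro g hg
    show ∑ d ∈ (Finset.Ico 1 x.2).filter good, cnt good P l (D ((d * x.1 : ℕ) : ℤ) g) =
      ∑ d ∈ (Finset.Ico 1 x.2).filter good, cnt good P' l (D ((d * x.1 : ℕ) : ℤ) g)
    apply sum_congr rfl
    intro d _
    exact ih _ (hg.D _)

lemma BndAt_per (m : ℕ) (g : ℤ → ℂ) (hg : Per m g) (X Y : ℝ) (M M' : ℤ) (R : ℕ)
    (h : (m : ℤ) ∣ M - M') : BndAt g X Y M R ↔ BndAt g X Y M' R := by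
  have h1 : ∀ j L : ℕ, I g (M + j) L = I g (M' + j) L := by
    intro j L
    unfold I
    apply sum_congr rfl
    intro i _
    apply hg.congr
    have : M + (j : ℤ) + i - (M' + j + i) = M - M' := by ring
    rw [this]
    exact h
  unfold BndAt
  simp only [h1]

lemma totR_le (κX : ℝ) (l : List (ℕ × ℕ)) (h : ∀ x ∈ l, (x.2 : ℝ) * x.1 ≤ κX) :
    (totR l : ℝ) ≤ l.length * κX := by
  induction l with
  | nil => simp [totR]
  | cons x l ih =>
    unfold totR
    rw [List.length_cons]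
    push_cast
    have h1 := ih fun y hy => h y (by simp [hy])
    have h2 := h x (by simp)
    linarith

end Pool.Agent.H18.CS
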