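import Pool.Agent.H18.CS.Exc

set_option autoImplicit false

/-!
Exceptional positions for primitive characters.
-/

namespace Pool.Agent.H18.CS

open Finset

open Classical in
/-- the bound for the number of the bad positions of one iterated difference -/
theorem Zbound (X σ : ℝ) (n K : ℕ) (hn : 1 ≤ n) (hX : 1 < X) (hσ : 0 < σ) (hσ1 : σ ≤ 1 / 2)
    (h36 : 36 ≤ X ^ σ) (T : Finset ℕ) (hT : ∀ p ∈ T, p.Prime) (hT3 : ∀ p ∈ T, p % 3 = 1)
    (ψ : (p : ℕ) → MulChar (ZMod p) ℂ) (hψ : ∀ p ∈ T, ψ p ≠ 1) (hψ3 : ∀ p ∈ T, ψ p ^ 3 = 1)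
    (hmX : ∏ p ∈ T, (p : ℝ) ≤ X ^ (n : ℝ)) (hτ : ((∏ p ∈ T, p).divisors.card : ℝ) ≤ X ^ σ)
    (as : List ℤ) (hk : as.length ≤ K)
    (has : ∀ a ∈ as, (Nat.gcd a.natAbs (∏ p ∈ T, p) : ℝ) ≤ X ^ (2 * σ)) (R : ℕ) (hR : (R : ℝ) ≤ X) :
    (((range (∏ p ∈ T, p)).filter (fun M : ℕ =>
      ¬ BndAt (Ds as (∏ p ∈ T, fun k : ℤ => ψ p (k : ZMod p))) X (5 * X ^ (-σ)) (M : ℤ) R)).card : ℝ) ≤
      289 * 4 ^ n * (Real.sqrt (∏ p ∈ T, p : ℕ) * X ^ (σ * (3 * K + 4 * n ^ 2 + 6 * n + 2))) := by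
  have hX0 : 0 < X := by linarith
  have hX1 : 1 ≤ X := hX.le
  set m : ℕ := ∏ p ∈ T, p with hm
  have hmR : (m : ℝ) = ∏ p ∈ T, (p : ℝ) := by rw [hm]; push_cast; rfl
  set g : ℤ → ℂ := ∏ p ∈ T, fun k : ℤ => ψ p (k : ZMod p) with hg
  have hB : ∀ p ∈ T, B1 (fun n : ℤ => ψ p (n : ZMod p)) := by
    intro p _ k
    exact DirichletCharacter.norm_le_one (ψ p) _
  have hgB : B1 g := by
    intro k
    rw [hg, prod_apply, norm_prod]
    apply prod_le_one (fun _ _ => norm_nonneg _)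
    intro p hp
    exact hB p hp k
  have hPer : ∀ p ∈ T, Per p (fun n : ℤ => ψ p (n : ZMod p)) := by
    intro p hp n
    push_cast
    simp
  have hgP : Per m g := Per_fprod T _ hPer
  set τ : ℝ := (m.divisors.card : ℝ) with hτdef
  have hτ0 : 0 ≤ τ := Nat.cast_nonneg _
  have hcard : (2 : ℝ) ^ T.card = τ := by
    rw [hτdef, hm, card_div_fprod T hT]; push_cast; rfl
  -- powers of `X ^ σ`
  set U : ℝ := X ^ σ with hU
  have hU1 : 1 ≤ U := by linarith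
  have hU0 : 0 < U := by linarith
  have hUpow : ∀ c : ℕ, U ^ c = X ^ (σ * c) := by
    intro c
    rw [hU, ← Real.rpow_natCast, ← Real.rpow_mul hX0.le]
  have hcpow : ∀ c : ℕ, (c : ℝ) ^ T.card ≤ U ^ c := by
    intro c
    have h1 : (c : ℝ) ≤ 2 ^ c := by exact_mod_cast Nat.lt_two_pow_self.le
    calc (c : ℝ) ^ T.card ≤ (2 ^ c) ^ T.card := pow_le_pow_left₀ (Nat.cast_nonneg c) h1 _
      _ = ((2 : ℝ) ^ T.card) ^ c := by rw [← pow_mul, ← pow_mul, mul_comm]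
      _ = τ ^ c := by rw [hcard]
      _ ≤ U ^ c := pow_le_pow_left₀ hτ0 hτ _
  have h2pow : ((2 : ℝ) ^ as.length) ^ T.card ≤ U ^ K := by
    calc ((2 : ℝ) ^ as.length) ^ T.card = ((2 : ℝ) ^ T.card) ^ as.length := by
          rw [← pow_mul, ← pow_mul, mul_comm]
      _ = τ ^ as.length := by rw [hcard]
      _ ≤ U ^ as.length := pow_le_pow_left₀ hτ0 hτ _
      _ ≤ U ^ K := pow_le_pow_right₀ hU1 hk
  have hgcd : (as.map (fun a => (Nat.gcd a.natAbs m : ℝ))).prod ≤ U ^ (2 * K) := by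
    refine (list_prod_le as m (X ^ (2 * σ)) (by positivity) has).trans ?_
    have h1 : X ^ (2 * σ) = U ^ 2 := by rw [hUpow]; congr 1; push_cast; ring
    rw [h1, ← pow_mul]
    exact pow_le_pow_right₀ hU1 (by omega)
  have hgcd0 : 0 ≤ (as.map (fun a => (Nat.gcd a.natAbs m : ℝ))).prod := by
    apply List.prod_nonneg
    intro y hy
    rw [List.mem_map] at hy
    obtain ⟨a, _, rfl⟩ := hy
    exact Nat.cast_nonneg _
  set Z : ℝ := U ^ K * U ^ (2 * n) * Real.sqrt (m : ℕ) * U ^ (2 * K) *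
    (U ^ (1 + 2 * n)) ^ (2 * n) * 2 ^ (2 * n) with hZ
  have hZ0 : 0 ≤ Z := by positivity
  have hmom : ∀ L : ℕ, (L : ℝ) ≤ X → ∑ x ∈ range m, ‖I (Ds as g) (x : ℤ) L‖ ^ (2 * n) ≤
      Z * X ^ (2 * n) := by
    intro L hL
    refine (moment T hT hT3 ψ hψ hψ3 as n hn L).trans ?_
    rw [← hm, ← hmR]
    have a1 : ((2 : ℝ) ^ as.length * (2 * n)) ^ T.card ≤ U ^ K * U ^ (2 * n) := by
      rw [mul_pow]
      have h1 := hcpow (2 * n)
      push_cast at h1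
      exact mul_le_mul h2pow h1 (by positivity) (by positivity)
    have a2 : (1 + (2 * n : ℕ) : ℝ) ^ T.card ≤ U ^ (1 + 2 * n) := by
      have h1 := hcpow (1 + 2 * n)
      push_cast at h1 ⊢
      exact h1
    have a3 : (L : ℝ) + (m : ℝ) ^ (1 / (2 * n) : ℝ) ≤ 2 * X := by
      have h1 : (m : ℝ) ^ (1 / (2 * n) : ℝ) ≤ X := by
        have hn0 : (0 : ℝ) < n := by exact_mod_cast hn
        calc (m : ℝ) ^ (1 / (2 * n) : ℝ) ≤ (X ^ (n : ℝ)) ^ (1 / (2 * n) : ℝ) := by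
              apply Real.rpow_le_rpow (Nat.cast_nonneg m) _ (by positivity)
              rw [hmR]; exact hmX
          _ = X ^ (1 / 2 : ℝ) := by
              rw [← Real.rpow_mul hX0.le]
              congr 1
              field_simp
          _ ≤ X ^ (1 : ℝ) := Real.rpow_le_rpow_of_exponent_le hX1 (by norm_num)
          _ = X := Real.rpow_one X
      linarith
    have a4 : ((1 + (2 * n : ℕ) : ℝ) ^ T.card * (L + (m : ℝ) ^ (1 / (2 * n) : ℝ))) ^ (2 * n) ≤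
        (U ^ (1 + 2 * n)) ^ (2 * n) * (2 ^ (2 * n) * X ^ (2 * n)) := by
      rw [mul_pow, ← mul_pow 2 X]
      apply mul_le_mul
      · exact pow_le_pow_left₀ (by positivity) a2 _
      · exact pow_le_pow_left₀ (by positivity) a3 _
      · positivity
      · positivity
    calc _ ≤ (U ^ K * U ^ (2 * n)) * Real.sqrt (m : ℕ) * U ^ (2 * K) *
          ((U ^ (1 + 2 * n)) ^ (2 * n) * (2 ^ (2 * n) * X ^ (2 * n))) := by
          gcongr
      _ = Z * X ^ (2 * n) := by rw [hZ]; ring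
  have hκ0 : 0 < X ^ (-σ) := Real.rpow_pos_of_pos hX0 _
  have hinv : X ^ (-σ) = 1 / U := by rw [Real.rpow_neg hX0.le, hU, one_div]
  have hY1 : 5 * X ^ (-σ) ≤ 1 := by
    rw [hinv, mul_one_div, div_le_one hU0]; linarith
  have hXY : 16 ≤ 5 * X ^ (-σ) * X := by
    have h1 : X ^ (-σ) * X = X ^ (1 - σ) := by
      conv_lhs => rw [← Real.rpow_one X, ← Real.rpow_mul hX0.le, ← Real.rpow_add hX0]
      congr 1
      ring
    rw [mul_assoc, h1]
    have h2 : U ≤ X ^ (1 - σ) := Real.rpow_le_rpow_of_exponent_le hX1 (by linarith)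
    linarith
  have hmain := exc_count m (Ds as g) (hgB.Ds as) (hgP.Ds as) X (5 * X ^ (-σ)) Z n R hX1
    (by positivity) hY1 hXY hR hZ0 hmom
  refine hmain.trans ?_
  have b1 : 17 / (5 * X ^ (-σ)) ≤ 17 * U := by
    rw [hinv, mul_one_div, div_div_eq_mul_div, div_le_iff₀ (by norm_num)]
    nlinarith
  have b2 : 2 / (5 * X ^ (-σ)) ≤ 1 * U := by
    rw [hinv, mul_one_div, div_div_eq_mul_div, div_le_iff₀ (by norm_num)]
    nlinarith
  have b3 : (17 / (5 * X ^ (-σ))) ^ 2 ≤ (17 * U) ^ 2 := pow_le_pow_left₀ (by positivity) b1 _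
  have b4 : (2 / (5 * X ^ (-σ))) ^ (2 * n) ≤ (1 * U) ^ (2 * n) :=
    pow_le_pow_left₀ (by positivity) b2 _
  calc (17 / (5 * X ^ (-σ))) ^ 2 * ((2 / (5 * X ^ (-σ))) ^ (2 * n) * Z) ≤
        (17 * U) ^ 2 * ((1 * U) ^ (2 * n) * Z) := by gcongr
    _ = 289 * 4 ^ n * (Real.sqrt (m : ℕ) * U ^ (3 * K + 4 * n ^ 2 + 6 * n + 2)) := by
        rw [hZ, mul_pow, mul_pow, one_pow]
        have : (4 : ℝ) ^ n = 2 ^ (2 * n) := by rw [pow_mul]; norm_num
        rw [this]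
        ring
    _ = _ := by
        rw [hUpow]
        push_cast
        rfl

/-- the core -/
theorem excCore (X η ε σ : ℝ) (n K : ℕ) (hn : 1 ≤ n) (hX : 1 < X) (hη : 0 < η) (hη2 : η ≤ 1 / 2)
    (hσ : 0 < σ) (hσε : (4 * K + 4 * n ^ 2 + 6 * n + 2) * σ ≤ ε) (h6 : 6 * σ ≤ η)
    (hK : 2 + 2 * n / η ≤ K) (h36 : 36 ≤ X ^ σ) (hKX : (K : ℝ) ≤ X ^ σ)
    (hdiv : ∀ m : ℕ, 1 ≤ m → (m : ℝ) ≤ X ^ (n : ℝ) → (m.divisors.card : ℝ) ≤ X ^ σ)
    (s : Finset ℕ) (hs : ∀ p ∈ s, p.Prime) (hs3 : ∀ p ∈ s, p % 3 = 1)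
    (ψ : (p : ℕ) → MulChar (ZMod p) ℂ) (hψ : ∀ p ∈ s, ψ p ≠ 1) (hψ3 : ∀ p ∈ s, ψ p ^ 3 = 1)
    (f : ℤ → ℂ) (hf : B1 f) (hf9 : Per 9 f) (hsX : ∏ p ∈ s, (p : ℝ) ≤ X ^ (n : ℝ)) :
    ∃ E : Finset ℕ, (E.card : ℝ) ≤ 289 * 4 ^ n *
        (Real.sqrt (∏ p ∈ s.filter (fun p : ℕ => X ^ (1 - η) < p), p : ℕ) * X ^ ε) ∧
      ∀ M : ℤ, (M % ((∏ p ∈ s.filter (fun p : ℕ => X ^ (1 - η) < p), p : ℕ) : ℤ)).toNat ∉ E →
      ∀ L : ℕ, (L : ℝ) ≤ X →
        ‖I (f * ∏ p ∈ s, fun k : ℤ => ψ p (k : ZMod p)) M L‖ ≤ 80 * X ^ (-(σ / 2 ^ K)) * X := by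
  classical
  have hX0 : 0 < X := by linarith
  have hX1 : 1 ≤ X := hX.le
  have hK0 : (0 : ℝ) ≤ K := Nat.cast_nonneg K
  have hmono : ∀ a b : ℝ, a ≤ b → X ^ a ≤ X ^ b := fun a b h =>
    Real.rpow_le_rpow_of_exponent_le hX1 h
  have h1s : ∀ p ∈ s, 1 ≤ p := fun p hp => (hs p hp).one_le
  have h9 : 9 ≤ X ^ σ := by linarith
  set G₀ : Finset ℕ := s.filter (fun p : ℕ => X ^ (1 - η) < p) with hG₀
  have hG₀s : G₀ ⊆ s := filter_subset _ _
  have hG₀3 : ∀ p ∈ s \ G₀, 1 ≤ p ∧ (p : ℝ) ≤ X ^ (1 - η) := by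
    intro p hp
    rw [mem_sdiff, hG₀, mem_filter] at hp
    refine ⟨h1s p hp.1, ?_⟩
    by_contra hc
    push Not at hc
    exact hp.2 ⟨hp.1, hc⟩
  set m : ℕ := ∏ p ∈ G₀, p with hm
  have hmR : (m : ℝ) = ∏ p ∈ G₀, (p : ℝ) := by rw [hm]; push_cast; rfl
  have hG₀p : ∀ p ∈ G₀, p.Prime := fun p hp => hs p (hG₀s hp)
  have hm1 : 1 ≤ m := by
    apply Nat.succ_le_of_lt
    exact prod_pos fun q hq => (hG₀p q hq).pos
  have hmX : ∏ p ∈ G₀, (p : ℝ) ≤ X ^ (n : ℝ) := (fprod_mono G₀ s h1s hG₀s).trans hsX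
  have hτ : (m.divisors.card : ℝ) ≤ X ^ σ := by
    apply hdiv m hm1
    rw [hmR]
    exact hmX
  -- the grouping of the others
  obtain ⟨l, hl1, hl2, hl3⟩ := grouping (X ^ (1 - η)) (X ^ (η / 2))
    (Real.one_le_rpow hX1 (by linarith)) (Real.one_le_rpow hX1 (by positivity)) _ (s \ G₀) rfl hG₀3
  have hlen : l.length + 1 ≤ K := by
    have h1 : ∏ p ∈ s \ G₀, (p : ℝ) ≤ X ^ (n : ℝ) :=
      (fprod_mono _ s h1s sdiff_subset).trans hsX
    have h2 : X ^ (η / 2 * l.length) ≤ X ^ (η / 2 + n) := by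
      rw [Real.rpow_mul hX0.le, Real.rpow_natCast, Real.rpow_add hX0]
      exact hl3.trans (mul_le_mul_of_nonneg_left h1 (by positivity))
    rw [Real.rpow_le_rpow_left_iff hX] at h2
    have h3 : (l.length : ℝ) ≤ 1 + 2 * n / η := by
      have : (l.length : ℝ) = (η / 2 * l.length) / (η / 2) := by field_simp
      rw [this, div_le_iff₀ (by positivity)]
      refine h2.trans (le_of_eq ?_)
      field_simp
    have h4 : ((l.length + 1 : ℕ) : ℝ) ≤ K := by push_cast; linarith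
    exact_mod_cast h4
  set F : ℕ → (ℤ → ℂ) := fun p => fun k : ℤ => ψ p (k : ZMod p) with hF
  have hFB : ∀ p, B1 (F p) := by
    intro p k
    exact DirichletCharacter.norm_le_one (ψ p) _
  have hFP : ∀ p, Per p (F p) := by
    intro p k
    simp only [hF]
    push_cast
    simp
  have hFPB : ∀ G : Finset ℕ, B1 (∏ p ∈ G, F p) := by
    intro G k
    rw [prod_apply, norm_prod]
    apply prod_le_one (fun _ _ => norm_nonneg _)
    intro p _
    exact hFB p k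
  -- the numbers of the shifts
  have hHex : ∀ q : ℕ, ∃ H : ℕ, 1 ≤ q → (q : ℝ) ≤ X ^ (1 - η / 2) → 
      (1 ≤ X ^ (-σ) * H ∧ (H : ℝ) * q ≤ X ^ (-σ) * X ∧
      (((Finset.Ico 1 H).filter (fun d => ¬ ((Nat.gcd d m : ℝ) ≤ X ^ (2 * σ)))).card : ℝ) ≤
        X ^ (-σ) * H) := by
    intro q
    by_cases h1 : 1 ≤ q
    · by_cases h2 : (q : ℝ) ≤ X ^ (1 - η / 2)
      · obtain ⟨H, hH⟩ := exists_H X η σ hX1 hσ h6 h9 m hm1 hτ q h1 h2
        exact ⟨H, fun _ _ => hH⟩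
      · exact ⟨0, fun _ h => absurd h h2⟩
    · exact ⟨0, fun h => absurd h h1⟩
  choose Hf hHf using hHex
  set l2 : List ((ℕ × ℕ) × (ℤ → ℂ)) := ((9, Hf 9), f) ::
    l.map (fun G => ((∏ p ∈ G, p, Hf (∏ p ∈ G, p)), ∏ p ∈ G, F p)) with hl2def
  have hl2len : l2.length = l.length + 1 := by rw [hl2def]; simp
  have hprod : (l2.map Prod.snd).prod * ∏ p ∈ G₀, F p = f * ∏ p ∈ s, F p := by
    rw [hl2def, List.map_cons, List.prod_cons, List.map_map, mul_assoc]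
    have : (List.map (Prod.snd ∘ fun G : Finset ℕ =>
        (((∏ p ∈ G, p, Hf (∏ p ∈ G, p)), ∏ p ∈ G, F p) : (ℕ × ℕ) × (ℤ → ℂ))) l).prod =
        ∏ p ∈ s \ G₀, F p := hl2 F
    rw [this, prod_sdiff hG₀s]
  -- sizes and coprimality of the moduli
  have hmod : ∀ x ∈ l2, 1 ≤ x.1.1 ∧ (x.1.1 : ℝ) ≤ X ^ (1 - η / 2) ∧ x.1.2 = Hf x.1.1 ∧
      Nat.Coprime x.1.1 m ∧ B1 x.2 ∧ Per x.1.1 x.2 := by
    intro x hx
    rw [hl2def] at hx
    rcases List.mem_cons.mp hx with rfl | hx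
    · refine ⟨by norm_num, ?_, rfl, ?_, hf, hf9⟩
      · have h1 : X ^ σ ≤ X ^ (1 - η / 2) := hmono _ _ (by linarith)
        exact (by exact_mod_cast h9 : ((9 : ℕ) : ℝ) ≤ X ^ σ).trans h1
      · rw [hm]
        apply Nat.Coprime.prod_right
        intro p hp
        rw [show (9 : ℕ) = 3 ^ 2 by norm_num]
        apply Nat.Coprime.pow_left
        rw [Nat.coprime_primes Nat.prime_three (hG₀p p hp)]
        rintro rfl
        have := hs3 3 (hG₀s hp)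
        omega
    · rw [List.mem_map] at hx
      obtain ⟨G, hG, rfl⟩ := hx
      obtain ⟨e1, e2⟩ := hl1 G hG
      have hGs : ∀ p ∈ G, p.Prime := fun p hp => hs p (mem_sdiff.mp (e1 hp)).1
      refine ⟨?_, ?_, rfl, ?_, hFPB G, ?_⟩
      · apply Nat.succ_le_of_lt
        exact prod_pos fun q hq => (hGs q hq).pos
      · dsimp only
        push_cast
        refine e2.trans ?_
        rw [← Real.rpow_add hX0]
        exact hmono _ _ (by linarith)
      · apply coprime_fprod G G₀ hGs hG₀p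
        rw [Finset.disjoint_left]
        intro p hp hp'
        exact (mem_sdiff.mp (e1 hp)).2 hp'
      · exact Per_fprod G F fun p _ => hFP p
  have hκ1 : X ^ (-σ) ≤ 1 / 36 := by
    rw [Real.rpow_neg hX0.le, ← one_div]
    exact one_div_le_one_div_of_le (by norm_num) h36
  have hκ0 : 0 < X ^ (-σ) := Real.rpow_pos_of_pos hX0 _
  set l3 : List (ℕ × ℕ) := l2.map Prod.fst with hl3def
  have hl3len : l3.length = l.length + 1 := by rw [hl3def, List.length_map, hl2len]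
  have hH : ∀ x ∈ l3, 1 ≤ X ^ (-σ) * x.2 ∧ (x.2 : ℝ) * x.1 ≤ X ^ (-σ) * X ∧
      (((Finset.Ico 1 x.2).filter (fun d => ¬ ((Nat.gcd d m : ℝ) ≤ X ^ (2 * σ)))).card : ℝ) ≤
        X ^ (-σ) * x.2 := by
    intro x hx
    rw [hl3def, List.mem_map] at hx
    obtain ⟨y, hy, rfl⟩ := hx
    obtain ⟨e1, e2, e3, _⟩ := hmod y hy
    rw [e3]
    exact hHf _ e1 e2
  have hH0 : ∀ x ∈ l3, 0 < x.2 := by
    intro x hx
    have h1 := (hH x hx).1
    rcases Nat.eq_zero_or_pos x.2 with h | h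
    · rw [h] at h1; norm_num at h1
    · exact h
  set R : ℕ := totR l3 with hR
  have hRX : (R : ℝ) ≤ X := by
    have h1 := totR_le (X ^ (-σ) * X) l3 (fun x hx => (hH x hx).2.1)
    rw [hl3len] at h1
    have h2 : ((l.length + 1 : ℕ) : ℝ) ≤ K := by exact_mod_cast hlen
    have h3 : (K : ℝ) * X ^ (-σ) ≤ 1 := by
      rw [Real.rpow_neg hX0.le, mul_inv_le_iff₀ (by positivity)]
      linarith
    calc (R : ℝ) ≤ ((l.length + 1 : ℕ) : ℝ) * (X ^ (-σ) * X) := h1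
      _ ≤ K * (X ^ (-σ) * X) := mul_le_mul_of_nonneg_right h2 (by positivity)
      _ = (K * X ^ (-σ)) * X := by ring
      _ ≤ 1 * X := mul_le_mul_of_nonneg_right h3 hX0.le
      _ = X := one_mul X
  set good : ℕ → Prop := fun d => (Nat.gcd d m : ℝ) ≤ X ^ (2 * σ) with hgood
  set PP : ℤ → (ℤ → ℂ) → Prop := fun M g => BndAt g X (5 * X ^ (-σ)) M R with hPP
  set Zb : ℝ := 289 * 4 ^ n * (Real.sqrt (m : ℕ) * X ^ (σ * (3 * K + 4 * n ^ 2 + 6 * n + 2))) with hZb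
  have hZb0 : 0 ≤ Zb := by positivity
  have hsum : ∑ i ∈ range m, cnt good (PP (i : ℤ)) l3 (∏ p ∈ G₀, F p) ≤
      (l3.map (fun x => (x.2 : ℝ))).prod * Zb := by
    apply sum_cnt (range m) good (fun i : ℕ => PP (i : ℤ))
      (fun a => (Nat.gcd a.natAbs m : ℝ) ≤ X ^ (2 * σ)) Zb hZb0
    · intro x hx d hd
      rw [hl3def, List.mem_map] at hx
      obtain ⟨y, hy, rfl⟩ := hx
      obtain ⟨_, _, _, e4, _⟩ := hmod y hy
      rw [Int.natAbs_natCast, Nat.Coprime.gcd_mul_right_cancel d e4]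
      exact hd
    · intro as has hC
      rw [hl3len] at has
      exact Zbound X σ n K hn hX hσ (by linarith) h36 G₀ hG₀p (fun p hp => hs3 p (hG₀s hp)) ψ
        (fun p hp => hψ p (hG₀s hp)) (fun p hp => hψ3 p (hG₀s hp)) hmX hτ as (by omega) hC R hRX
  have hprodpos : 0 < (l3.map (fun x => (x.2 : ℝ))).prod := by
    apply List.prod_pos
    intro y hy
    rw [List.mem_map] at hy
    obtain ⟨a, ha, rfl⟩ := hy
    exact_mod_cast hH0 a ha
  refine ⟨(range m).filter (fun i : ℕ => ¬ cnt good (PP (i : ℤ)) l3 (∏ p ∈ G₀, F p) <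
    thr (X ^ (-σ)) l3), ?_, ?_⟩
  · set E := (range m).filter (fun i : ℕ => ¬ cnt good (PP (i : ℤ)) l3 (∏ p ∈ G₀, F p) <
      thr (X ^ (-σ)) l3) with hE
    have h1 : (E.card : ℝ) * thr (X ^ (-σ)) l3 ≤ (l3.map (fun x => (x.2 : ℝ))).prod * Zb := by
      refine le_trans ?_ hsum
      have e1 : ∑ i ∈ E, thr (X ^ (-σ)) l3 ≤ ∑ i ∈ E, cnt good (PP (i : ℤ)) l3 (∏ p ∈ G₀, F p) := by
        apply sum_le_sum
        intro i hi
        rw [hE, mem_filter] at hi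
        exact not_lt.mp hi.2
      rw [sum_const, nsmul_eq_mul] at e1
      refine e1.trans ?_
      apply sum_le_sum_of_subset_of_nonneg (filter_subset _ _)
      intro i _ _
      exact cnt_nonneg _ _ _ _
    rw [thr_eq] at h1
    have h2 : (E.card : ℝ) * (X ^ (-σ)) ^ l3.length ≤ Zb := by
      have h3 : (E.card : ℝ) * (X ^ (-σ)) ^ l3.length * (l3.map (fun x => (x.2 : ℝ))).prod ≤
          Zb * (l3.map (fun x => (x.2 : ℝ))).prod := by
        calc _ = (E.card : ℝ) * ((X ^ (-σ)) ^ l3.length * (l3.map (fun x => (x.2 : ℝ))).prod) := by ring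
          _ ≤ _ := h1
          _ = _ := by ring
      exact le_of_mul_le_mul_right h3 hprodpos
    have h4 : (X ^ (-σ)) ^ l3.length = X ^ (-(σ * l3.length)) := by
      rw [← Real.rpow_natCast, ← Real.rpow_mul hX0.le]
      congr 1
      ring
    rw [h4, Real.rpow_neg hX0.le, ← div_eq_mul_inv, div_le_iff₀ (by positivity)] at h2
    refine h2.trans ?_
    rw [hZb]
    have h5 : X ^ (σ * (3 * K + 4 * n ^ 2 + 6 * n + 2)) * X ^ (σ * l3.length) ≤ X ^ ε := by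
      rw [← Real.rpow_add hX0]
      apply hmono
      have h6 : (l3.length : ℝ) ≤ K := by
        rw [hl3len]; exact_mod_cast hlen
      nlinarith
    calc 289 * 4 ^ n * (Real.sqrt (m : ℕ) * X ^ (σ * (3 * K + 4 * n ^ 2 + 6 * n + 2))) *
          X ^ (σ * l3.length) = 289 * 4 ^ n * (Real.sqrt (m : ℕ) *
          (X ^ (σ * (3 * K + 4 * n ^ 2 + 6 * n + 2)) * X ^ (σ * l3.length))) := by ring
      _ ≤ 289 * 4 ^ n * (Real.sqrt (m : ℕ) * X ^ ε) := by gcongr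
  · intro M hM L hL
    set i : ℕ := (M % (m : ℤ)).toNat with hi
    have hmZ : (m : ℤ) ≠ 0 := by exact_mod_cast (by omega : m ≠ 0)
    have hi2 : (i : ℤ) = M % (m : ℤ) := Int.toNat_of_nonneg (Int.emod_nonneg _ hmZ)
    have him : i ∈ range m := by
      rw [mem_range]
      have h1 : (i : ℤ) < m := by rw [hi2]; exact Int.emod_lt_of_pos _ (by exact_mod_cast hm1)
      exact_mod_cast h1
    have hdvd : (m : ℤ) ∣ M - (i : ℤ) := by
      rw [hi2]; exact Int.dvd_self_sub_emod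
    have hlt : cnt good (PP (i : ℤ)) l3 (∏ p ∈ G₀, F p) < thr (X ^ (-σ)) l3 := by
      by_contra hc
      exact hM (mem_filter.mpr ⟨him, hc⟩)
    have hperG : Per m (∏ p ∈ G₀, F p) := Per_fprod G₀ F fun p _ => hFP p
    have hlt2 : cnt good (PP M) l3 (∏ p ∈ G₀, F p) < thr (X ^ (-σ)) l3 := by
      rw [cnt_congr m good (PP M) (PP (i : ℤ)) (fun g hg => BndAt_per m g hg X _ M i R hdvd) l3 _ hperG]
      exact hlt
    have hmost := most_of_cnt good (PP M) (X ^ (-σ)) hκ0 l3 (∏ p ∈ G₀, F p) (fun x hx =>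
      ⟨hH0 x hx, by convert (hH x hx).2.2⟩) hlt2
    have hit := iterAt X (2 * X ^ (-σ)) (by positivity) (by linarith) (5 * X ^ (-σ)) (by linarith) M l2
      (∏ p ∈ G₀, F p) 0 (hFPB G₀) (by
        intro x hx
        obtain ⟨e1, e2, e3, _, e5, e6⟩ := hmod x hx
        have hx3 : x.1 ∈ l3 := by rw [hl3def]; exact List.mem_map_of_mem hx
        obtain ⟨a1, a2, _⟩ := hH x.1 hx3
        refine ⟨e5, e6, ?_, ?_⟩
        · linarith
        · have : 0 ≤ X ^ (-σ) * X := by positivity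
          linarith) (by
        rw [zero_add]
        exact hmost)
    rw [hprod] at hit
    have h1 := hit 0 le_rfl L hL
    rw [Nat.cast_zero, add_zero] at h1
    refine h1.trans (mul_le_mul_of_nonneg_right ?_ hX0.le)
    have hY0 : 0 < 5 * X ^ (-σ) := by positivity
    have hY1 : 5 * X ^ (-σ) ≤ 1 := by linarith
    refine (it_le _ hY0.le _).trans ?_
    have e1 : (5 * X ^ (-σ)) ^ (1 / 2 ^ l2.length : ℝ) ≤ (5 * X ^ (-σ)) ^ (1 / 2 ^ K : ℝ) := by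
      apply Real.rpow_le_rpow_of_exponent_ge hY0 hY1
      apply one_div_le_one_div_of_le (by positivity)
      apply pow_le_pow_right₀ (by norm_num)
      omega
    have e2 : (5 * X ^ (-σ)) ^ (1 / 2 ^ K : ℝ) ≤ 5 * X ^ (-(σ / 2 ^ K)) := by
      rw [Real.mul_rpow (by norm_num) hκ0.le, ← Real.rpow_mul hX0.le]
      have e3 : (5 : ℝ) ^ (1 / 2 ^ K : ℝ) ≤ 5 := by
        conv_rhs => rw [← Real.rpow_one 5]
        apply Real.rpow_le_rpow_of_exponent_le (by norm_num)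
        rw [div_le_one (by positivity)]
        exact one_le_pow₀ (by norm_num)
      have e4 : -σ * (1 / 2 ^ K) = -(σ / 2 ^ K) := by ring
      rw [e4]
      exact mul_le_mul_of_nonneg_right e3 (by positivity)
    linarith

end Pool.Agent.H18.CS
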