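import Pool.Agent.H18.CS.Prim

set_option autoImplicit false

/-!
The bound for all cubic characters whose conductor has small large part.
-/

namespace Pool.Agent.H18.CS

open Finset Pool.Agent.R524.Cubic

/-- the bound for primitive characters -/
theorem prim (n : ℕ) (η : ℝ) (hη : 0 < η) (hη2 : η ≤ 1 / 2) :
    ∃ σ : ℝ, 0 < σ ∧ σ ≤ 1 / 2 ∧ ∃ X₀ : ℝ, 1 ≤ X₀ ∧ ∀ X : ℝ, X₀ ≤ X → ∀ q : ℕ, 1 ≤ q →
      (q : ℝ) ≤ X ^ (n : ℝ) → ∀ χ : DirichletCharacter ℂ q, χ ^ 3 = 1 → χ ≠ 1 → χ.IsPrimitive →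
      ∏ p ∈ q.primeFactors.filter (fun p : ℕ => X ^ (1 - η) < p), (p : ℝ) ≤ X ^ (2 - η) →
      ∀ (M : ℤ) (N : ℕ), (N : ℝ) ≤ X → ‖S χ M N‖ ≤ 80 * X ^ (1 - σ) := by
  classical
  obtain ⟨K, hK⟩ := exists_nat_ge (2 + 2 * n / η)
  have hK0 : (0 : ℝ) ≤ K := Nat.cast_nonneg K
  set σ : ℝ := η / (32 * (K + 1)) with hσdef
  have hσ : 0 < σ := by positivity
  have hση : 32 * (K + 1) * σ ≤ η := by
    rw [hσdef]
    apply le_of_eq
    field_simp
  have hσ2 : σ ≤ 1 / 2 := by nlinarith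
  obtain ⟨C, hC0, hC⟩ := Pool.Agent.Helper112.divisor_bound (σ / 4) (by positivity)
  have h2K : (1 : ℝ) ≤ 2 ^ K := one_le_pow₀ (by norm_num)
  have hσK : σ / 2 ^ K ≤ 1 / 2 := by
    refine le_trans ?_ hσ2
    exact div_le_self hσ.le h2K
  refine ⟨σ / 2 ^ K, by positivity, hσK, max 2 ((max C 9) ^ (2 / σ)), ?_, ?_⟩
  · exact le_trans (by norm_num) (le_max_left _ _)
  intro X hX q hq hqX χ h3 hne hprim hlarge M N hN
  have hX2 : 2 ≤ X := (le_max_left _ _).trans hX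
  have hX1 : 1 < X := by linarith
  have hX0 : 0 < X := by linarith
  have hmax0 : 0 < max C 9 := lt_of_lt_of_le hC0 (le_max_left _ _)
  have hbig : max C 9 ≤ X ^ (σ / 2) := by
    have h1 : (max C 9) ^ (2 / σ) ≤ X := (le_max_right _ _).trans hX
    calc max C 9 = ((max C 9) ^ (2 / σ)) ^ (σ / 2) := by
          rw [← Real.rpow_mul hmax0.le]
          have : 2 / σ * (σ / 2) = 1 := by field_simp
          rw [this, Real.rpow_one]
      _ ≤ X ^ (σ / 2) := Real.rpow_le_rpow (by positivity) h1 (by positivity)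
  have hCX : C ≤ X ^ (σ / 2) := (le_max_left _ _).trans hbig
  have h9X : 9 ≤ X ^ (σ / 2) := (le_max_right _ _).trans hbig
  have h9 : 9 ≤ X ^ σ := h9X.trans (Real.rpow_le_rpow_of_exponent_le hX1.le (by linarith))
  have hdiv : ∀ m : ℕ, 1 ≤ m → (m : ℝ) ≤ X ^ (2 : ℝ) → (m.divisors.card : ℝ) ≤ X ^ σ := by
    intro m hm hmX
    refine (hC m hm).trans ?_
    have h1 : (m : ℝ) ^ (σ / 4) ≤ X ^ (σ / 2) := by
      calc (m : ℝ) ^ (σ / 4) ≤ (X ^ (2 : ℝ)) ^ (σ / 4) :=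
            Real.rpow_le_rpow (Nat.cast_nonneg m) hmX (by positivity)
        _ = X ^ (σ / 2) := by rw [← Real.rpow_mul hX0.le]; congr 1; ring
    calc C * (m : ℝ) ^ (σ / 4) ≤ X ^ (σ / 2) * X ^ (σ / 2) :=
          mul_le_mul hCX h1 (by positivity) (by positivity)
      _ = X ^ σ := by rw [← Real.rpow_add hX0]; congr 1; ring
  obtain ⟨s, f, ψ, hs, hf, hf9, hdec, hq9⟩ := decomp hq χ h3 hprim
  have hssub : s ⊆ q.primeFactors := by
    intro p hp
    obtain ⟨e1, _, e3, _⟩ := hs p hp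
    exact Nat.mem_primeFactors.mpr ⟨e1, e3, by omega⟩
  have hpf1 : ∀ p ∈ q.primeFactors, 1 ≤ p := fun p hp => (Nat.prime_of_mem_primeFactors hp).one_le
  have hsq : ∏ p ∈ s, (p : ℝ) ≤ q := by
    refine (fprod_mono _ _ hpf1 hssub).trans ?_
    rw [← Nat.cast_prod]
    exact_mod_cast Nat.le_of_dvd (by omega) (Nat.prod_primeFactors_dvd q)
  have hsX : ∏ p ∈ s, (p : ℝ) ≤ X ^ (n : ℝ) := hsq.trans hqX
  have hq9R : (q : ℝ) ≤ 9 * ∏ p ∈ s, (p : ℝ) := by
    have : (q : ℝ) ≤ ((9 * ∏ p ∈ s, p : ℕ) : ℝ) := by exact_mod_cast hq9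
    push_cast at this
    exact this
  by_cases hlow : X ^ (η / 2) < ∏ p ∈ s, (p : ℝ)
  · have hl : ∏ p ∈ s.filter (fun p : ℕ => X ^ (1 - η) < p), (p : ℝ) ≤ X ^ (2 - η) := by
      refine (fprod_mono _ _ ?_ ?_).trans hlarge
      · intro p hp
        exact hpf1 p (mem_filter.mp hp).1
      · exact filter_subset_filter _ hssub
    have hmain := core X η σ n K hX1 hη hη2 hσ hση hK h9 hdiv s (fun p hp => (hs p hp).1)
      (fun p hp => (hs p hp).2.1) ψ (fun p hp => (hs p hp).2.2.2.1) (fun p hp => (hs p hp).2.2.2.2)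
      f hf hf9 hsX hlow hl
    have h1 := hmain (M + 1) N hN
    have h2 : I (f * ∏ p ∈ s, fun k : ℤ => ψ p (k : ZMod p)) (M + 1) N = S χ M N := by
      rw [S_eq_range]
      unfold I
      apply sum_congr rfl
      intro i _
      rw [hdec, Pi.mul_apply, prod_apply]
    rw [h2] at h1
    refine h1.trans (le_of_eq ?_)
    rw [mul_assoc]
    congr 1
    conv_lhs => rw [← Real.rpow_one X, ← Real.rpow_mul hX0.le, ← Real.rpow_add hX0]
    congr 1
    ring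
  · push Not at hlow
    have hq2 : 2 ≤ q := by
      by_contra hc
      have : q = 1 := by omega
      subst this
      exact hne (DirichletCharacter.level_one χ)
    refine (pv' hq2 χ hprim M N).trans ?_
    have hqR : (1 : ℝ) ≤ q := by exact_mod_cast hq
    have h1 : (q : ℝ) ^ (3 / 4 : ℝ) ≤ q := by
      conv_rhs => rw [← Real.rpow_one (q : ℝ)]
      exact Real.rpow_le_rpow_of_exponent_le hqR (by norm_num)
    have h2 : X ^ (η / 2) ≤ X ^ (1 - σ / 2 ^ K) :=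
      Real.rpow_le_rpow_of_exponent_le hX1.le (by linarith)
    have h3 : 0 < X ^ (1 - σ / 2 ^ K) := Real.rpow_pos_of_pos hX0 _
    linarith

/-- monotonicity of the hypothesis -/
lemma large_mono (q : ℕ) (X η η' : ℝ) (hX : 1 ≤ X) (h : η' ≤ η)
    (hl : ∏ p ∈ q.primeFactors.filter (fun p : ℕ => X ^ (1 - η) < p), (p : ℝ) ≤ X ^ (2 - η)) :
    ∏ p ∈ q.primeFactors.filter (fun p : ℕ => X ^ (1 - η') < p), (p : ℝ) ≤ X ^ (2 - η') := by
  have h1 : ∏ p ∈ q.primeFactors.filter (fun p : ℕ => X ^ (1 - η') < p), (p : ℝ) ≤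
      ∏ p ∈ q.primeFactors.filter (fun p : ℕ => X ^ (1 - η) < p), (p : ℝ) := by
    apply fprod_mono
    · intro p hp
      exact (Nat.prime_of_mem_primeFactors (mem_filter.mp hp).1).one_le
    · intro p hp
      rw [mem_filter] at hp ⊢
      refine ⟨hp.1, lt_of_le_of_lt ?_ hp.2⟩
      exact Real.rpow_le_rpow_of_exponent_le hX (by linarith)
  exact (h1.trans hl).trans (Real.rpow_le_rpow_of_exponent_le hX (by linarith))

/-- the bound for all characters -/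
theorem all (n : ℕ) (hn : 1 ≤ n) (η : ℝ) (hη : 0 < η) :
    ∃ δ : ℝ, 0 < δ ∧ ∃ c : ℝ, ∀ Q : ℝ, 3 ≤ Q → ∀ N : ℕ, 1 ≤ N → (N : ℝ) ≤ Q ^ (1 / (n : ℝ)) →
      ∀ (M : ℤ) (q : ℕ), 1 ≤ q → (q : ℝ) ≤ Q → ∀ χ : DirichletCharacter ℂ q, χ ^ 3 = 1 → χ ≠ 1 →
      ∏ p ∈ χ.conductor.primeFactors.filter (fun p : ℕ => Q ^ ((1 - η) / n) < p), (p : ℝ) ≤
        Q ^ ((2 - η) / n) →
      ‖S χ M N‖ ≤ c * Q ^ ((1 - δ) / n) := by
  have hn0 : (0 : ℝ) < n := by exact_mod_cast hn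
  obtain ⟨σ, hσ, hσ2, X₀, hX₀, hprim⟩ := prim n (min η (1 / 2)) (by positivity) (min_le_right _ _)
  obtain ⟨C, hC0, hC⟩ := Pool.Agent.Helper112.divisor_bound (σ / (2 * n)) (by positivity)
  refine ⟨σ / 2, by positivity, max X₀ (80 * C), ?_⟩
  intro Q hQ N hN hNQ M q hq hqQ χ h3 h1 hl
  have hQ0 : 0 < Q := by linarith
  set X : ℝ := Q ^ (1 / (n : ℝ)) with hXdef
  have hX1 : 1 ≤ X := Real.one_le_rpow (by linarith) (by positivity)
  have hX0 : 0 < X := by linarith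
  have hpow : ∀ a : ℝ, Q ^ (a / n) = X ^ a := by
    intro a
    rw [hXdef, ← Real.rpow_mul hQ0.le]
    congr 1
    ring
  have hQX : X ^ (n : ℝ) = Q := by
    rw [hXdef, ← Real.rpow_mul hQ0.le]
    have : 1 / (n : ℝ) * n = 1 := by field_simp
    rw [this, Real.rpow_one]
  rw [hpow] at hl ⊢
  rw [hpow] at hl
  have hpos : 1 ≤ X ^ (1 - σ / 2) := Real.one_le_rpow hX1 (by linarith)
  by_cases hXX : X₀ ≤ X
  · have hq0 : q ≠ 0 := by omega
    have : NeZero q := ⟨hq0⟩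
    obtain ⟨hp3, hp1⟩ := primitive_cubic hq χ h3 h1
    have hcond1 : 1 ≤ χ.conductor := Nat.pos_of_ne_zero χ.conductor_ne_zero
    have hcond : (χ.conductor : ℝ) ≤ X ^ (n : ℝ) := by
      rw [hQX]
      refine le_trans ?_ hqQ
      exact_mod_cast Nat.le_of_dvd (by omega) χ.conductor_dvd_level
    have hl' := large_mono χ.conductor X η (min η (1 / 2)) hX1 (min_le_left _ _) hl
    have h4 : ∀ (M' : ℤ) (N' : ℕ), N' ≤ N → ‖S χ.primitiveCharacter M' N'‖ ≤ 80 * X ^ (1 - σ) := by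
      intro M' N' hN'
      exact hprim X hXX χ.conductor hcond1 hcond χ.primitiveCharacter hp3 hp1
        χ.primitiveCharacter_isPrimitive hl' M' N' (le_trans (by exact_mod_cast hN') hNQ)
    refine (imprimitive hq χ N _ h4 M).trans ?_
    have h5 : (q.divisors.card : ℝ) ≤ C * X ^ (σ / 2) := by
      refine (hC q hq).trans ?_
      apply mul_le_mul_of_nonneg_left _ hC0.le
      calc (q : ℝ) ^ (σ / (2 * n)) ≤ Q ^ (σ / (2 * n)) :=
            Real.rpow_le_rpow (Nat.cast_nonneg q) hqQ (by positivity)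
        _ = X ^ (σ / 2) := by
            rw [← hpow]
            congr 1
            field_simp
    have h6 : X ^ (σ / 2) * X ^ (1 - σ) = X ^ (1 - σ / 2) := by
      rw [← Real.rpow_add hX0]
      congr 1
      ring
    calc (q.divisors.card : ℝ) * (80 * X ^ (1 - σ)) ≤ (C * X ^ (σ / 2)) * (80 * X ^ (1 - σ)) :=
          mul_le_mul_of_nonneg_right h5 (by positivity)
      _ = 80 * C * (X ^ (σ / 2) * X ^ (1 - σ)) := by ring
      _ = 80 * C * X ^ (1 - σ / 2) := by rw [h6]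
      _ ≤ max X₀ (80 * C) * X ^ (1 - σ / 2) :=
          mul_le_mul_of_nonneg_right (le_max_right _ _) (by positivity)
  · push Not at hXX
    refine (norm_S_le_N χ M N).trans ?_
    have h4 : X₀ ≤ max X₀ (80 * C) := le_max_left _ _
    calc (N : ℝ) ≤ X := hNQ
      _ ≤ X₀ * 1 := by linarith
      _ ≤ max X₀ (80 * C) * X ^ (1 - σ / 2) := by
          apply mul_le_mul h4 hpos (by norm_num) (by linarith)

end Pool.Agent.H18.CS
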