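import Pool.Agent.H18.CS.ExcCore
import Pool.Agent.H18.CS.Main

set_option autoImplicit false

/-!
Exceptional positions: the final statement.
-/

namespace Pool.Agent.H18.CS

open Finset Pool.Agent.R524.Cubic

/-- exceptional positions of primitive cubic characters -/
theorem exc (n : ℕ) (hn : 1 ≤ n) (η : ℝ) (hη : 0 < η) (hη2 : η ≤ 1 / 2) (ε : ℝ) (hε : 0 < ε) :
    ∃ δ : ℝ, 0 < δ ∧ ∃ c : ℝ, ∀ Q : ℝ, 3 ≤ Q → ∀ q : ℕ, 1 ≤ q → (q : ℝ) ≤ Q →
      ∀ χ : DirichletCharacter ℂ q, χ ^ 3 = 1 → χ ≠ 1 → χ.IsPrimitive →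
      ∃ E : Finset (ZMod (∏ p ∈ q.primeFactors.filter (fun p : ℕ => Q ^ ((1 - η) / n) < p), p)),
        (E.card : ℝ) ≤ c * (Real.sqrt (∏ p ∈ q.primeFactors.filter
          (fun p : ℕ => Q ^ ((1 - η) / n) < p), p : ℕ) * Q ^ (ε / n)) ∧
        ∀ M : ℤ, (M : ZMod (∏ p ∈ q.primeFactors.filter
          (fun p : ℕ => Q ^ ((1 - η) / n) < p), p)) ∉ E →
          ∀ N : ℕ, 1 ≤ N → (N : ℝ) ≤ Q ^ (1 / (n : ℝ)) → ‖S χ M N‖ ≤ c * Q ^ ((1 - δ) / n) := by
  classical
  have hn0 : (0 : ℝ) < n := by exact_mod_cast hn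
  obtain ⟨K, hK⟩ := exists_nat_ge (2 + 2 * n / η)
  have hK0 : (0 : ℝ) ≤ K := Nat.cast_nonneg K
  set W : ℝ := 4 * K + 4 * n ^ 2 + 6 * n + 8 with hW
  have hW8 : 8 ≤ W := by rw [hW]; nlinarith [sq_nonneg (n : ℝ)]
  set σ : ℝ := min η ε / W with hσdef
  have hmin : 0 < min η ε := lt_min hη hε
  have hσ : 0 < σ := by positivity
  have hσW : W * σ = min η ε := by rw [hσdef]; field_simp
  have hσε : (4 * K + 4 * n ^ 2 + 6 * n + 2) * σ ≤ ε := by
    refine le_trans ?_ (min_le_right η ε)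
    rw [← hσW, hW]
    apply mul_le_mul_of_nonneg_right _ hσ.le
    linarith
  have h6 : 6 * σ ≤ η := by
    refine le_trans ?_ (min_le_left η ε)
    rw [← hσW]
    apply mul_le_mul_of_nonneg_right _ hσ.le
    linarith
  have hσ2 : σ ≤ 1 / 2 := by nlinarith
  obtain ⟨C, hC0, hC⟩ := Pool.Agent.Helper112.divisor_bound (σ / (2 * n)) (by positivity)
  have h2K : (1 : ℝ) ≤ 2 ^ K := one_le_pow₀ (by norm_num)
  have hσK : σ / 2 ^ K ≤ 1 / 2 := by
    refine le_trans ?_ hσ2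
    exact div_le_self hσ.le h2K
  set B : ℝ := max (max C 36) K with hB
  have hB36 : 36 ≤ B := (le_max_right C 36).trans (le_max_left _ _)
  have hBC : C ≤ B := (le_max_left C 36).trans (le_max_left _ _)
  have hBK : (K : ℝ) ≤ B := le_max_right _ _
  set X₀ : ℝ := max 2 (B ^ (2 / σ)) with hX₀
  refine ⟨σ / 2 ^ K, by positivity, max X₀ (289 * 4 ^ n), ?_⟩
  intro Q hQ q hq hqQ χ h3 hne hprim
  have hQ0 : 0 < Q := by linarith
  set X : ℝ := Q ^ (1 / (n : ℝ)) with hXdef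
  have hX1 : 1 ≤ X := Real.one_le_rpow (by linarith) (by positivity)
  have hX0 : 0 < X := by linarith
  have hpow : ∀ a : ℝ, Q ^ (a / n) = X ^ a := by
    intro a
    rw [hXdef, ← Real.rpow_mul hQ0.le]
    congr 1
    ring
  have hQX : X ^ (n : ℝ) = Q := by
    rw [hXdef, ← Real.rpow_mul hQ0.le]
    have : 1 / (n : ℝ) * n = 1 := by field_simp
    rw [this, Real.rpow_one]
  rw [hpow, hpow, hpow]
  set P : ℕ := ∏ p ∈ q.primeFactors.filter (fun p : ℕ => X ^ (1 - η) < p), p with hP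
  have hc1 : X₀ ≤ max X₀ (289 * 4 ^ n) := le_max_left _ _
  have hX₀2 : 2 ≤ X₀ := le_max_left _ _
  have hpos : 1 ≤ X ^ (1 - σ / 2 ^ K) := Real.one_le_rpow hX1 (by linarith)
  by_cases hXX : X₀ ≤ X
  swap
  · push Not at hXX
    refine ⟨∅, ?_, ?_⟩
    · rw [card_empty, Nat.cast_zero]
      have : 0 ≤ max X₀ (289 * 4 ^ n) := by linarith
      positivity
    · intro M _ N _ hNX
      refine (norm_S_le_N χ M N).trans ?_
      calc (N : ℝ) ≤ X := hNX
        _ ≤ X₀ * 1 := by linarith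
        _ ≤ max X₀ (289 * 4 ^ n) * X ^ (1 - σ / 2 ^ K) := by
            apply mul_le_mul hc1 hpos (by norm_num) (by linarith)
  have hX2 : 2 ≤ X := hX₀2.trans hXX
  have hX1' : 1 < X := by linarith
  have hBX : B ≤ X ^ (σ / 2) := by
    have h1 : B ^ (2 / σ) ≤ X := (le_max_right _ _).trans hXX
    calc B = (B ^ (2 / σ)) ^ (σ / 2) := by
          rw [← Real.rpow_mul (by linarith)]
          have : 2 / σ * (σ / 2) = 1 := by field_simp
          rw [this, Real.rpow_one]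
      _ ≤ X ^ (σ / 2) := Real.rpow_le_rpow (by positivity) h1 (by positivity)
  have hle : X ^ (σ / 2) ≤ X ^ σ := Real.rpow_le_rpow_of_exponent_le hX1 (by linarith)
  have h36 : 36 ≤ X ^ σ := by linarith
  have hKX : (K : ℝ) ≤ X ^ σ := by linarith
  have hdiv : ∀ m : ℕ, 1 ≤ m → (m : ℝ) ≤ X ^ (n : ℝ) → (m.divisors.card : ℝ) ≤ X ^ σ := by
    intro m hm hmX
    refine (hC m hm).trans ?_
    have h1 : (m : ℝ) ^ (σ / (2 * n)) ≤ X ^ (σ / 2) := by
      calc (m : ℝ) ^ (σ / (2 * n)) ≤ (X ^ (n : ℝ)) ^ (σ / (2 * n)) :=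
            Real.rpow_le_rpow (Nat.cast_nonneg m) hmX (by positivity)
        _ = X ^ (σ / 2) := by
            rw [← Real.rpow_mul hX0.le]
            congr 1
            field_simp
    calc C * (m : ℝ) ^ (σ / (2 * n)) ≤ X ^ (σ / 2) * X ^ (σ / 2) :=
          mul_le_mul (hBC.trans hBX) h1 (by positivity) (by positivity)
      _ = X ^ σ := by rw [← Real.rpow_add hX0]; congr 1; ring
  obtain ⟨s, f, ψ, hs, hf, hf9, hdec, hq9⟩ := decomp hq χ h3 hprim
  have hssub : s ⊆ q.primeFactors := by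
    intro p hp
    obtain ⟨e1, _, e3, _⟩ := hs p hp
    exact Nat.mem_primeFactors.mpr ⟨e1, e3, by omega⟩
  have hpf1 : ∀ p ∈ q.primeFactors, 1 ≤ p := fun p hp => (Nat.prime_of_mem_primeFactors hp).one_le
  have hTq : ∀ T ⊆ q.primeFactors, ∏ p ∈ T, (p : ℝ) ≤ q := by
    intro T hT
    refine (fprod_mono _ _ hpf1 hT).trans ?_
    rw [← Nat.cast_prod]
    exact_mod_cast Nat.le_of_dvd (by omega) (Nat.prod_primeFactors_dvd q)
  have hqX : (q : ℝ) ≤ X ^ (n : ℝ) := by rw [hQX]; exact hqQ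
  have hsX : ∏ p ∈ s, (p : ℝ) ≤ X ^ (n : ℝ) := (hTq s hssub).trans hqX
  have hq9R : (q : ℝ) ≤ 9 * ∏ p ∈ s, (p : ℝ) := by
    have : (q : ℝ) ≤ ((9 * ∏ p ∈ s, p : ℕ) : ℝ) := by exact_mod_cast hq9
    push_cast at this
    exact this
  -- the large primes
  have h9 : 9 ≤ X ^ (1 - η) := by
    have : X ^ σ ≤ X ^ (1 - η) := Real.rpow_le_rpow_of_exponent_le hX1 (by linarith)
    linarith
  have hfil : s.filter (fun p : ℕ => X ^ (1 - η) < p) =
      q.primeFactors.filter (fun p : ℕ => X ^ (1 - η) < p) := by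
    apply Subset.antisymm (filter_subset_filter _ hssub)
    intro p hp
    rw [mem_filter] at hp ⊢
    refine ⟨?_, hp.2⟩
    by_contra hps
    have h1 := hTq (insert p s) (insert_subset hp.1 hssub)
    rw [prod_insert hps] at h1
    have h2 : 0 < ∏ p ∈ s, (p : ℝ) := by
      have := fprod_ge_one s fun p hp => (hs p hp).1.one_le
      linarith
    have h3 : (p : ℝ) * ∏ p ∈ s, (p : ℝ) ≤ 9 * ∏ p ∈ s, (p : ℝ) := h1.trans hq9R
    have h4 : (p : ℝ) ≤ 9 := le_of_mul_le_mul_right h3 h2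
    linarith [hp.2]
  obtain ⟨E, hE1, hE2⟩ := excCore X η ε σ n K hn hX1' hη hη2 hσ hσε h6 hK h36 hKX hdiv s
    (fun p hp => (hs p hp).1) (fun p hp => (hs p hp).2.1) ψ (fun p hp => (hs p hp).2.2.2.1)
    (fun p hp => (hs p hp).2.2.2.2) f hf hf9 hsX
  rw [hfil] at hE1 hE2
  rw [← hP] at hE1 hE2
  have hP1 : 1 ≤ P := by
    apply Nat.succ_le_of_lt
    exact prod_pos fun p hp => (Nat.prime_of_mem_primeFactors (mem_filter.mp hp).1).pos
  refine ⟨E.image (fun i : ℕ => (i : ZMod P) - 1), ?_, ?_⟩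
  · refine le_trans ?_ (hE1.trans ?_)
    · exact_mod_cast card_image_le
    · apply mul_le_mul_of_nonneg_right (le_max_right _ _) (by positivity)
  · intro M hM N _ hNX
    have h1 := hE2 (M + 1) (by
      intro hmem
      apply hM
      rw [mem_image]
      refine ⟨_, hmem, ?_⟩
      have hPZ : (P : ℤ) ≠ 0 := by exact_mod_cast (by omega : P ≠ 0)
      have e1 : (((M + 1) % (P : ℤ)).toNat : ℤ) = (M + 1) % (P : ℤ) :=
        Int.toNat_of_nonneg (Int.emod_nonneg _ hPZ)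
      have e2 : ((((M + 1) % (P : ℤ)).toNat : ℕ) : ZMod P) = ((M + 1 : ℤ) : ZMod P) := by
        rw [← Int.cast_natCast, e1, ZMod.intCast_eq_intCast_iff]
        exact Int.mod_modEq _ _
      rw [e2]
      push_cast
      ring) N hNX
    have h2 : I (f * ∏ p ∈ s, fun k : ℤ => ψ p (k : ZMod p)) (M + 1) N = S χ M N := by
      rw [S_eq_range]
      unfold I
      apply sum_congr rfl
      intro i _
      rw [hdec, Pi.mul_apply, prod_apply]
    rw [h2] at h1
    refine h1.trans ?_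
    have h3 : X ^ (-(σ / 2 ^ K)) * X = X ^ (1 - σ / 2 ^ K) := by
      conv_lhs => rw [← Real.rpow_one X, ← Real.rpow_mul hX0.le, ← Real.rpow_add hX0]
      congr 1
      ring
    rw [mul_assoc, h3]
    apply mul_le_mul_of_nonneg_right _ (by positivity)
    refine le_trans ?_ (le_max_right _ _)
    have : (1 : ℝ) ≤ 4 ^ n := one_le_pow₀ (by norm_num)
    linarith

end Pool.Agent.H18.CS
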