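import Pool.Agent.H18.CS.Split

set_option autoImplicit false

/-!
Grouping the prime factors.
-/

namespace Pool.Agent.H18.CS

open Finset

lemma fprod_ge_one (T : Finset ℕ) (hT : ∀ p ∈ T, 1 ≤ p) : (1 : ℝ) ≤ ∏ p ∈ T, (p : ℝ) := by
  classical
  induction T using Finset.induction_on with
  | empty => simp
  | insert p T hp ih =>
    rw [prod_insert hp]
    have h1 : (1 : ℝ) ≤ p := by exact_mod_cast hT p (mem_insert_self _ _)
    have h2 := ih fun q hq => hT q (mem_insert_of_mem hq)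
    nlinarith

lemma fprod_mono (S T : Finset ℕ) (hT : ∀ p ∈ T, 1 ≤ p) (h : S ⊆ T) :
    ∏ p ∈ S, (p : ℝ) ≤ ∏ p ∈ T, (p : ℝ) := by
  classical
  rw [← prod_sdiff h]
  have h1 := fprod_ge_one (T \ S) fun p hp => hT p (mem_sdiff.mp hp).1
  have h2 := fprod_ge_one S fun p hp => hT p (h hp)
  nlinarith

lemma exists_subset (z w : ℝ) (hw : 1 ≤ w) (T : Finset ℕ) :
    (∀ p ∈ T, 1 ≤ p ∧ (p : ℝ) ≤ z) → w < ∏ p ∈ T, (p : ℝ) →
    ∃ T' ⊆ T, w < ∏ p ∈ T', (p : ℝ) ∧ ∏ p ∈ T', (p : ℝ) ≤ z * w := by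
  classical
  induction T using Finset.induction_on with
  | empty =>
    intro _ h
    rw [prod_empty] at h
    linarith
  | insert p T hp ih =>
    intro hT h
    by_cases hc : w < ∏ p ∈ T, (p : ℝ)
    · obtain ⟨T', h1, h2, h3⟩ := ih (fun q hq => hT q (mem_insert_of_mem hq)) hc
      exact ⟨T', h1.trans (subset_insert _ _), h2, h3⟩
    · push Not at hc
      refine ⟨insert p T, Subset.refl _, h, ?_⟩
      rw [prod_insert hp]
      obtain ⟨h1, h2⟩ := hT p (mem_insert_self _ _)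
      have h3 := fprod_ge_one T fun q hq => (hT q (mem_insert_of_mem hq)).1
      apply mul_le_mul h2 hc (by linarith) ((Nat.cast_nonneg p).trans h2)

lemma grouping (z w : ℝ) (hz : 1 ≤ z) (hw : 1 ≤ w) (k : ℕ) : ∀ T : Finset ℕ, T.card = k →
    (∀ p ∈ T, 1 ≤ p ∧ (p : ℝ) ≤ z) →
    ∃ l : List (Finset ℕ), (∀ G ∈ l, G ⊆ T ∧ ∏ p ∈ G, (p : ℝ) ≤ z * w) ∧
      (∀ F : ℕ → (ℤ → ℂ), (l.map (fun G => ∏ p ∈ G, F p)).prod = ∏ p ∈ T, F p) ∧
      w ^ l.length ≤ w * ∏ p ∈ T, (p : ℝ) := by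
  classical
  induction k using Nat.strong_induction_on with
  | _ k ih =>
    intro T hTk hT
    have hT1 := fprod_ge_one T fun q hq => (hT q hq).1
    by_cases hc : w < ∏ p ∈ T, (p : ℝ)
    · obtain ⟨T', h1, h2, h3⟩ := exists_subset z w hw T hT hc
      have hne : T'.Nonempty := by
        rw [nonempty_iff_ne_empty]
        rintro rfl
        rw [prod_empty] at h2
        linarith
      have hcard : (T \ T').card < k := by
        rw [← hTk]
        apply card_lt_card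
        exact sdiff_ssubset h1 hne
      obtain ⟨l, e1, e2, e3⟩ := ih _ hcard (T \ T') rfl (fun p hp => hT p (mem_sdiff.mp hp).1)
      refine ⟨T' :: l, ?_, ?_, ?_⟩
      · intro G hG
        rcases List.mem_cons.mp hG with rfl | hG
        · exact ⟨h1, h3⟩
        · exact ⟨(e1 G hG).1.trans sdiff_subset, (e1 G hG).2⟩
      · intro F
        rw [List.map_cons, List.prod_cons, e2, mul_comm, prod_sdiff h1]
      · rw [List.length_cons, pow_succ, ← prod_sdiff h1]
        have h4 := fprod_ge_one (T \ T') fun q hq => (hT q (mem_sdiff.mp hq).1).1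
        calc w ^ l.length * w ≤ (w * ∏ p ∈ T \ T', (p : ℝ)) * w :=
              mul_le_mul_of_nonneg_right e3 (by linarith)
          _ ≤ (w * ∏ p ∈ T \ T', (p : ℝ)) * ∏ p ∈ T', (p : ℝ) :=
              mul_le_mul_of_nonneg_left h2.le (by positivity)
          _ = _ := by ring
    · push Not at hc
      refine ⟨[T], ?_, ?_, ?_⟩
      · intro G hG
        rw [List.mem_singleton] at hG
        subst hG
        exact ⟨Subset.refl _, hc.trans (by nlinarith)⟩
      · intro F; simp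
      · rw [List.length_singleton, pow_one]
        nlinarith

/-- bad differences are rare -/
lemma count_gcd (m H : ℕ) (hm : 1 ≤ m) (D₀ κ τ : ℝ) (hD : 0 < D₀) (hτ : (m.divisors.card : ℝ) ≤ τ)
    (hκ : τ ≤ κ * D₀) :
    (((Finset.Ico 1 H).filter (fun d => ¬ ((Nat.gcd d m : ℝ) ≤ D₀))).card : ℝ) ≤ κ * H := by
  have h1 := sum_gcd m H hm
  have h2 : (((Finset.Ico 1 H).filter (fun d => ¬ ((Nat.gcd d m : ℝ) ≤ D₀))).card : ℝ) * D₀ ≤
      ∑ z ∈ Finset.Ico 1 H, (Nat.gcd z m : ℝ) := by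
    have hsub : (Finset.Ico 1 H).filter (fun d => ¬ ((Nat.gcd d m : ℝ) ≤ D₀)) ⊆ Finset.Ico 1 H :=
      filter_subset _ _
    rw [← nsmul_eq_mul, ← sum_const]
    refine le_trans ?_ (sum_le_sum_of_subset_of_nonneg hsub (fun i _ _ => Nat.cast_nonneg _))
    apply sum_le_sum
    intro i hi
    rw [mem_filter] at hi
    push Not at hi
    exact hi.2.le
  have hH : (0 : ℝ) ≤ H := Nat.cast_nonneg H
  have h3 : (H : ℝ) * (m.divisors.card : ℝ) ≤ κ * H * D₀ := by
    calc (H : ℝ) * (m.divisors.card : ℝ) ≤ H * (κ * D₀) :=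
          mul_le_mul_of_nonneg_left (hτ.trans hκ) hH
      _ = _ := by ring
  exact le_of_mul_le_mul_right ((h2.trans h1).trans h3) hD

end Pool.Agent.H18.CS
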