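import Pool.Agent.H18.CS.Delta

set_option autoImplicit false

/-!
The iterated inequality of van der Corput for several moduli.
-/

namespace Pool.Agent.H18.CS

open Finset

lemma Bnd.mono {g : ℤ → ℂ} {X Y Y' : ℝ} (h : Bnd g X Y) (hY : Y ≤ Y') : Bnd g X Y' := by
  intro M L hL
  have hX : 0 ≤ X := (Nat.cast_nonneg L).trans hL
  exact (h M L hL).trans (mul_le_mul_of_nonneg_right hY hX)

lemma Bnd.of_one {g : ℤ → ℂ} (hg : B1 g) {X Y : ℝ} (hY : 1 ≤ Y) : Bnd g X Y := by
  intro M L hL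
  have hX : 0 ≤ X := (Nat.cast_nonneg L).trans hL
  refine (norm_I_le hg M L).trans (hL.trans ?_)
  nlinarith

/-- the simplified inequality -/
theorem vdc' (good : ℕ → Prop) [DecidablePred good] (f g : ℤ → ℂ) (hf : B1 f) (hg : B1 g) (q : ℕ)
    (hfq : Per q f) (X Y κ : ℝ) (H : ℕ) (hκ : 0 ≤ κ) (hκY : κ ≤ Y) (hH : 1 ≤ κ * H)
    (hHq : (H : ℝ) * q ≤ κ * X)
    (hbad : (((Finset.Ico 1 H).filter (fun d => ¬ good d)).card : ℝ) ≤ κ * H)
    (hgood : ∀ d : ℕ, good d → Bnd (D ((d * q : ℕ) : ℤ) g) X Y) :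
    Bnd (f * g) X (4 * Real.sqrt Y) := by
  have hY : 0 ≤ Y := hκ.trans hκY
  by_cases hY1 : Y ≤ 1
  · refine (vdc good f g hf hg q hfq X Y κ H hY hκ hH hHq hbad hgood).mono ?_
    have h1 : Real.sqrt (Y + 3 * κ) ≤ 2 * Real.sqrt Y := by
      rw [show (2 : ℝ) * Real.sqrt Y = Real.sqrt (4 * Y) by
        rw [Real.sqrt_mul (by norm_num), show (4 : ℝ) = 2 ^ 2 by norm_num,
          Real.sqrt_sq (by norm_num)]]
      apply Real.sqrt_le_sqrt
      linarith
    have h2 : Y ≤ Real.sqrt Y := by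
      apply Real.le_sqrt_of_sq_le
      nlinarith
    linarith
  · push Not at hY1
    apply Bnd.of_one (hf.mul hg)
    have : 1 ≤ Real.sqrt Y := by
      rw [Real.one_le_sqrt]; exact hY1.le
    linarith

/-- `P` for all iterated differences with good parameters -/
def AllG (good : ℕ → Prop) (P : (ℤ → ℂ) → Prop) : List ℕ → (ℤ → ℂ) → Prop
  | [], g => P g
  | q :: qs, g => ∀ d : ℕ, good d → AllG good P qs (D ((d * q : ℕ) : ℤ) g)

/-- the iterated bound -/
noncomputable def it : ℕ → ℝ → ℝ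
  | 0, Y => Y
  | k + 1, Y => 4 * Real.sqrt (it k Y)

lemma it_ge (κ : ℝ) (hκ : 0 ≤ κ) (hκ1 : κ ≤ 1) (Y : ℝ) (hY : κ ≤ Y) (k : ℕ) : κ ≤ it k Y := by
  induction k with
  | zero => exact hY
  | succ k ih =>
    unfold it
    have h1 : κ ≤ Real.sqrt κ := by
      apply Real.le_sqrt_of_sq_le
      nlinarith
    have h2 := Real.sqrt_le_sqrt ih
    have h3 := Real.sqrt_nonneg κ
    linarith

lemma it_le (Y : ℝ) (hY : 0 ≤ Y) (k : ℕ) : it k Y ≤ 16 * Y ^ (1 / 2 ^ k : ℝ) := by
  induction k with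
  | zero =>
    unfold it
    rw [pow_zero, div_one, Real.rpow_one]
    linarith
  | succ k ih =>
    unfold it
    have h1 := Real.sqrt_le_sqrt ih
    rw [Real.sqrt_mul (by norm_num), show (16 : ℝ) = 4 ^ 2 by norm_num,
      Real.sqrt_sq (by norm_num), Real.sqrt_eq_rpow (Y ^ (1 / 2 ^ k : ℝ)), ← Real.rpow_mul hY] at h1
    have h2 : (1 / 2 ^ k : ℝ) * (1 / 2) = 1 / 2 ^ (k + 1) := by
      rw [pow_succ]; field_simp
    rw [h2] at h1
    calc 4 * Real.sqrt (it k Y) ≤ 4 * (4 * Y ^ (1 / 2 ^ (k + 1) : ℝ)) := by linarith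
      _ = _ := by ring

lemma D_prod (a : ℤ) (l : List (ℤ → ℂ)) : D a l.prod = (l.map (D a)).prod := by
  induction l with
  | nil => simp [D_one]
  | cons f l ih => rw [List.prod_cons, D_mul, ih, List.map_cons, List.prod_cons]

lemma B1_one : B1 1 := fun n => by simp

lemma B1_prod (l : List (ℤ → ℂ)) (h : ∀ f ∈ l, B1 f) : B1 l.prod := by
  induction l with
  | nil => exact B1_one
  | cons f l ih =>
    rw [List.prod_cons]
    exact (h f (by simp)).mul (ih fun g hg => h g (by simp [hg]))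

/-- the iterated inequality -/
theorem iter (good : ℕ → Prop) [DecidablePred good] (X κ : ℝ) (hκ : 0 ≤ κ) (hκ1 : κ ≤ 1)
    (Y : ℝ) (hY : κ ≤ Y) (l : List (ℕ × (ℤ → ℂ))) :
    ∀ g : ℤ → ℂ, B1 g →
    (∀ x ∈ l, B1 x.2 ∧ Per x.1 x.2 ∧ ∃ H : ℕ, 1 ≤ κ * H ∧ (H : ℝ) * x.1 ≤ κ * X ∧
      (((Finset.Ico 1 H).filter (fun d => ¬ good d)).card : ℝ) ≤ κ * H) →
    AllG good (fun g => Bnd g X Y) (l.map Prod.fst) g →
    Bnd ((l.map Prod.snd).prod * g) X (it l.length Y) := by
  induction hn : l.length generalizing l with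
  | zero =>
    intro g hg _ hall
    rw [List.length_eq_zero_iff] at hn
    subst hn
    simp only [List.map_nil, List.prod_nil, one_mul]
    exact hall
  | succ n ih =>
    intro g hg hl hall
    obtain ⟨x, l', rfl⟩ := List.exists_cons_of_length_eq_add_one hn
    obtain ⟨q, f⟩ := x
    obtain ⟨hf, hfq, H, hH1, hH2, hH3⟩ := hl (q, f) (by simp)
    rw [List.map_cons, List.prod_cons, mul_assoc]
    have hF : B1 ((l'.map Prod.snd).prod * g) := by
      apply B1.mul _ hg
      apply B1_prod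
      intro f' hf'
      rw [List.mem_map] at hf'
      obtain ⟨y, hy, rfl⟩ := hf'
      exact (hl y (by simp [hy])).1
    have hn' : l'.length = n := by simpa using hn
    apply vdc' good f _ hf hF q hfq X (it n Y) κ H hκ (it_ge κ hκ hκ1 Y hY n) hH1 hH2 hH3
    intro d hd
    rw [D_mul, D_prod, List.map_map]
    have hall' := hall d hd
    have := ih (l'.map (fun y => (y.1, D ((d * q : ℕ) : ℤ) y.2))) (by simpa using hn')
      (D ((d * q : ℕ) : ℤ) g) (hg.D _) (by
        intro y hy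
        rw [List.mem_map] at hy
        obtain ⟨y', hy', rfl⟩ := hy
        obtain ⟨h1, h2, h3⟩ := hl y' (by simp [hy'])
        exact ⟨h1.D _, h2.D _, h3⟩) (by
        rw [List.map_map]
        exact hall')
    rw [List.map_map] at this
    exact this

/-- iterated differences -/
noncomputable def Ds : List ℤ → (ℤ → ℂ) → (ℤ → ℂ)
  | [], g => g
  | a :: as, g => Ds as (D a g)

lemma allG_of (good : ℕ → Prop) (P : (ℤ → ℂ) → Prop) (C : ℤ → Prop) (l : List ℕ) :
    ∀ g : ℤ → ℂ, (∀ q ∈ l, ∀ d : ℕ, good d → C ((d * q : ℕ) : ℤ)) →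
    (∀ as : List ℤ, as.length = l.length → (∀ a ∈ as, C a) → P (Ds as g)) → AllG good P l g := by
  induction l with
  | nil =>
    intro g _ h
    exact h [] rfl (by simp)
  | cons q l ih =>
    intro g hC h d hd
    apply ih
    · intro q' hq' d' hd'
      exact hC q' (by simp [hq']) d' hd'
    · intro as has hCas
      have := h (((d * q : ℕ) : ℤ) :: as) (by simp [has]) (by
        intro a ha
        rcases List.mem_cons.mp ha with rfl | ha
        · exact hC q (by simp) d hd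
        · exact hCas a ha)
      exact this

lemma Ds_append (as bs : List ℤ) : ∀ g : ℤ → ℂ, Ds (as ++ bs) g = Ds bs (Ds as g) := by
  induction as with
  | nil => intro g; rfl
  | cons a as ih => intro g; exact ih _

lemma B1.Ds {g : ℤ → ℂ} (hg : B1 g) (as : List ℤ) : B1 (Ds as g) := by
  induction as generalizing g with
  | nil => exact hg
  | cons a as ih => exact ih (hg.D a)

lemma Per.Ds {q : ℕ} {g : ℤ → ℂ} (hg : Per q g) (as : List ℤ) : Per q (Ds as g) := by
  induction as generalizing g with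
  | nil => exact hg
  | cons a as ih => exact ih (hg.D a)

lemma D_fprod {ι : Type*} (s : Finset ι) (f : ι → ℤ → ℂ) (a : ℤ) :
    D a (∏ i ∈ s, f i) = ∏ i ∈ s, D a (f i) := by
  classical
  induction s using Finset.induction_on with
  | empty => simp [D_one]
  | insert i s hi ihs => rw [prod_insert hi, prod_insert hi, D_mul, ihs]

lemma Ds_prod {ι : Type*} (s : Finset ι) (as : List ℤ) :
    ∀ f : ι → ℤ → ℂ, Ds as (∏ i ∈ s, f i) = ∏ i ∈ s, Ds as (f i) := by
  induction as with
  | nil => intro f; rfl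
  | cons a as ih =>
    intro f
    show Ds as (D a _) = _
    rw [D_fprod, ih]
    rfl

end Pool.Agent.H18.CS
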