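import Pool.Agent.H18.CS.Group

set_option autoImplicit false

/-!
Sums over lists, and the count of the lists with many coincidences modulo many primes.
-/

namespace Pool.Agent.H18.CS

open Finset

section

variable {β : Type*}

/-- the sum over all lists of length `r` with entries below `L` -/
def nsum [AddCommMonoid β] (L : ℕ) : ℕ → (List ℕ → β) → β
  | 0, F => F []
  | r + 1, F => ∑ x ∈ range L, nsum L r (fun l => F (x :: l))

lemma nsum_mul [CommSemiring β] (L : ℕ) (c : β) (r : ℕ) : ∀ F : List ℕ → β,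
    nsum L r (fun l => c * F l) = c * nsum L r F := by
  induction r with
  | zero => intro F; rfl
  | succ r ih =>
    intro F
    show ∑ x ∈ range L, nsum L r (fun l => c * F (x :: l)) = c * ∑ x ∈ range L, _
    rw [mul_sum]
    apply sum_congr rfl
    intro x _
    exact ih _

lemma nsum_pow [CommSemiring β] (L : ℕ) (a : ℕ → β) (r : ℕ) :
    (∑ y ∈ range L, a y) ^ r = nsum L r (fun l => (l.map a).prod) := by
  induction r with
  | zero => simp [nsum]
  | succ r ih =>
    rw [pow_succ', ih, sum_mul]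
    show _ = ∑ x ∈ range L, nsum L r (fun l => ((x :: l).map a).prod)
    apply sum_congr rfl
    intro x _
    rw [← nsum_mul]
    rfl

lemma nsum_congr [AddCommMonoid β] (L : ℕ) (r : ℕ) : ∀ F G : List ℕ → β,
    (∀ l, l.length = r → F l = G l) → nsum L r F = nsum L r G := by
  induction r with
  | zero => intro F G h; exact h [] rfl
  | succ r ih =>
    intro F G h
    show ∑ x ∈ range L, nsum L r (fun l => F (x :: l)) = ∑ x ∈ range L, nsum L r (fun l => G (x :: l))
    apply sum_congr rfl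
    intro x _
    apply ih
    intro l hl
    exact h _ (by simp [hl])

lemma nsum_append [AddCommMonoid β] (L s : ℕ) (r : ℕ) : ∀ F : List ℕ → β,
    nsum L r (fun l => nsum L s (fun l' => F (l ++ l'))) = nsum L (r + s) F := by
  induction r with
  | zero => intro F; simp [nsum]
  | succ r ih =>
    intro F
    rw [Nat.add_right_comm]
    show ∑ x ∈ range L, nsum L r (fun l => nsum L s (fun l' => F (x :: (l ++ l')))) =
      ∑ x ∈ range L, nsum L (r + s) (fun l => F (x :: l))
    apply sum_congr rfl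
    intro x _
    exact ih (fun l => F (x :: l))

lemma nsum_sum [AddCommMonoid β] (L : ℕ) {ι : Type*} (S : Finset ι) (r : ℕ) :
    ∀ F : ι → List ℕ → β, ∑ i ∈ S, nsum L r (F i) = nsum L r (fun l => ∑ i ∈ S, F i l) := by
  induction r with
  | zero => intro F; rfl
  | succ r ih =>
    intro F
    show ∑ i ∈ S, ∑ x ∈ range L, nsum L r (fun l => F i (x :: l)) =
      ∑ x ∈ range L, nsum L r (fun l => ∑ i ∈ S, F i (x :: l))
    rw [sum_comm]
    apply sum_congr rfl
    intro x _
    exact ih (fun i l => F i (x :: l))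

end

lemma nsum_mono (L : ℕ) (r : ℕ) : ∀ F G : List ℕ → ℝ,
    (∀ l, l.length = r → F l ≤ G l) → nsum L r F ≤ nsum L r G := by
  induction r with
  | zero => intro F G h; exact h [] rfl
  | succ r ih =>
    intro F G h
    show ∑ x ∈ range L, nsum L r (fun l => F (x :: l)) ≤ ∑ x ∈ range L, nsum L r (fun l => G (x :: l))
    apply sum_le_sum
    intro x _
    apply ih
    intro l hl
    exact h _ (by simp [hl])

lemma norm_nsum_le (L : ℕ) (r : ℕ) : ∀ F : List ℕ → ℂ,
    ‖nsum L r F‖ ≤ nsum L r (fun l => ‖F l‖) := by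
  induction r with
  | zero => intro F; exact le_rfl
  | succ r ih =>
    intro F
    show ‖∑ x ∈ range L, nsum L r (fun l => F (x :: l))‖ ≤ ∑ x ∈ range L, _
    refine (norm_sum_le _ _).trans (sum_le_sum fun x _ => ?_)
    exact ih _

/-- a number is congruent to a member of the list -/
def Hit (p : ℕ) (x : ℕ) (l : List ℕ) : Prop := ∃ y ∈ l, x % p = y % p

instance (p x : ℕ) (l : List ℕ) : Decidable (Hit p x l) := by unfold Hit; infer_instance

/-- the number of the members congruent to a later one -/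
def hits (p : ℕ) : List ℕ → ℕ
  | [] => 0
  | x :: l => (if Hit p x l then 1 else 0) + hits p l

/-- every residue class modulo `p` which contains a member contains at least two -/
def Paired (p : ℕ) (l : List ℕ) : Prop := ∀ c, (l.map (fun x => x % p)).count c ≠ 1

lemma hits_add (p : ℕ) (l : List ℕ) :
    hits p l + (l.map (fun x => x % p)).toFinset.card = l.length := by
  induction l with
  | nil => simp [hits]
  | cons x l ih =>
    rw [List.map_cons, List.toFinset_cons, List.length_cons]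
    unfold hits
    by_cases h : Hit p x l
    · rw [if_pos h, insert_eq_of_mem]
      · omega
      · rw [List.mem_toFinset, List.mem_map]
        obtain ⟨y, hy, hxy⟩ := h
        exact ⟨y, hy, hxy.symm⟩
    · rw [if_neg h, card_insert_of_notMem]
      · omega
      · rw [List.mem_toFinset, List.mem_map]
        rintro ⟨y, hy, hxy⟩
        exact h ⟨y, hy, hxy.symm⟩

lemma hits_ge (p r : ℕ) (l : List ℕ) (hl : l.length = 2 * r) (h : Paired p l) : r ≤ hits p l := by
  have h1 := hits_add p l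
  have h2 : 2 * (l.map (fun x => x % p)).toFinset.card ≤ (l.map (fun x => x % p)).length := by
    have h3 := List.sum_toFinset_count_eq_length (l.map (fun x => x % p))
    rw [← h3, mul_comm, ← smul_eq_mul, ← sum_const]
    apply sum_le_sum
    intro c hc
    rw [List.mem_toFinset] at hc
    have h4 : 0 < (l.map (fun x => x % p)).count c := List.count_pos_iff.mpr hc
    have h5 := h c
    omega
  rw [List.length_map] at h2
  omega

/-- products over the primes of the factors for the hits -/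
noncomputable def wt (α : ℝ) (S : Finset ℕ) : List ℕ → ℝ
  | [] => 1
  | x :: l => (∏ p ∈ S, if Hit p x l then (p : ℝ) ^ α else 1) * wt α S l

lemma wt_eq (α : ℝ) (S : Finset ℕ) (hS : ∀ p ∈ S, 1 ≤ p) (l : List ℕ) :
    wt α S l = ∏ p ∈ S, (p : ℝ) ^ (α * hits p l) := by
  induction l with
  | nil => simp [wt, hits]
  | cons x l ih =>
    unfold wt
    rw [ih, ← prod_mul_distrib]
    apply prod_congr rfl
    intro p hp
    have hp0 : (0 : ℝ) < p := by exact_mod_cast hS p hp
    have he : hits p (x :: l) = (if Hit p x l then 1 else 0) + hits p l := rfl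
    rw [he]
    by_cases h : Hit p x l
    · rw [if_pos h, if_pos h, ← Real.rpow_add hp0]
      congr 1
      push_cast
      ring
    · rw [if_neg h, if_neg h, one_mul]
      congr 1
      push_cast
      ring

lemma paired_le_wt (r : ℕ) (hr : 1 ≤ r) (S : Finset ℕ) (hS : ∀ p ∈ S, 1 ≤ p) (l : List ℕ)
    (hl : l.length = 2 * r) (P : ℕ → Prop) [DecidablePred P] (hP : ∀ p ∈ S, P p → Paired p l) :
    ∏ p ∈ S, (if P p then Real.sqrt p else 1) ≤ wt (1 / (2 * r)) S l := by
  rw [wt_eq _ S hS]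
  apply prod_le_prod
  · intro p _
    split_ifs <;> positivity
  · intro p hp
    have hp1 : (1 : ℝ) ≤ p := by exact_mod_cast hS p hp
    have hr0 : (0 : ℝ) < r := by exact_mod_cast hr
    split_ifs with h
    · have h1 := hits_ge p r l hl (hP p hp h)
      have h2 : (r : ℝ) ≤ hits p l := by exact_mod_cast h1
      rw [Real.sqrt_eq_rpow]
      apply Real.rpow_le_rpow_of_exponent_le hp1
      rw [div_mul_eq_mul_div, one_mul, le_div_iff₀ (by positivity)]
      linarith
    · exact Real.one_le_rpow hp1 (by positivity)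

/-! ### the count for one variable -/

lemma sum_two' {R : Type*} [CommSemiring R] (m n : ℕ) (hm : 1 ≤ m) (hn : 1 ≤ n) (co : m.Coprime n)
    (A B : ℕ → R) (hA : ∀ x y, x % m = y % m → A x = A y) (hB : ∀ x y, x % n = y % n → B x = B y) :
    ∑ x ∈ range (m * n), A x * B x = (∑ x ∈ range m, A x) * ∑ x ∈ range n, B x := by
  rw [sum_mul_sum, ← sum_product']
  symm
  apply Finset.sum_nbij' (fun u : ℕ × ℕ => (Nat.chineseRemainder co u.1 u.2 : ℕ))
    (fun x => (x % m, x % n))
  · intro u hu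
    rw [mem_product, mem_range, mem_range] at hu
    rw [mem_range]
    exact Nat.chineseRemainder_lt_mul co u.1 u.2 (by omega) (by omega)
  · intro x _
    rw [mem_product, mem_range, mem_range]
    exact ⟨Nat.mod_lt _ (by omega), Nat.mod_lt _ (by omega)⟩
  · intro u hu
    rw [mem_product, mem_range, mem_range] at hu
    have h1 := (Nat.chineseRemainder co u.1 u.2).2
    exact Prod.ext (Eq.trans h1.1 (Nat.mod_eq_of_lt hu.1)) (Eq.trans h1.2 (Nat.mod_eq_of_lt hu.2))
  · intro x hx
    rw [mem_range] at hx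
    have h1 := Nat.chineseRemainder_modEq_unique co (a := x % m) (b := x % n) (z := x)
      (Nat.mod_modEq x m).symm (Nat.mod_modEq x n).symm
    have h2 := Nat.chineseRemainder_lt_mul co (x % m) (x % n) (by omega) (by omega)
    have h3 : x % (m * n) = _ % (m * n) := h1
    rw [Nat.mod_eq_of_lt hx, Nat.mod_eq_of_lt h2] at h3
    exact h3.symm
  · intro u _
    have h1 := (Nat.chineseRemainder co u.1 u.2).2
    exact congrArg₂ (· * ·) (hA _ _ h1.1.symm) (hB _ _ h1.2.symm)

lemma sum_fprod' {R : Type*} [CommSemiring R] (s : Finset ℕ) (hs : ∀ p ∈ s, p.Prime)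
    (h : ℕ → ℕ → R) (hper : ∀ p ∈ s, ∀ x y, x % p = y % p → h p x = h p y) :
    ∑ x ∈ range (∏ p ∈ s, p), ∏ p ∈ s, h p x = ∏ p ∈ s, ∑ x ∈ range p, h p x := by
  classical
  induction s using Finset.induction_on with
  | empty => simp
  | insert p s hp ih =>
    rw [prod_insert hp, prod_insert hp,
      ← ih (fun q hq => hs q (mem_insert_of_mem hq)) (fun q hq => hper q (mem_insert_of_mem hq))]
    have hpp := hs p (mem_insert_self _ _)
    have hco : p.Coprime (∏ q ∈ s, q) := by
      apply Nat.Coprime.prod_right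
      intro q hq
      rw [Nat.coprime_primes hpp (hs q (mem_insert_of_mem hq))]
      rintro rfl
      exact hp hq
    have hpos : 1 ≤ ∏ q ∈ s, q := by
      apply Nat.succ_le_of_lt
      apply prod_pos
      intro q hq
      exact (hs q (mem_insert_of_mem hq)).pos
    rw [← sum_two' p _ hpp.one_le hpos hco (h p) (fun x => ∏ q ∈ s, h q x)
      (hper p (mem_insert_self _ _)) (by
        intro x y hxy
        apply prod_congr rfl
        intro q hq
        apply hper q (mem_insert_of_mem hq)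
        exact Nat.ModEq.of_dvd (dvd_prod_of_mem _ hq) hxy)]
    apply sum_congr rfl
    intro x _
    rw [prod_insert hp]

lemma card_hit (p : ℕ) (l : List ℕ) :
    (∑ x ∈ range p, if Hit p x l then (1 : ℝ) else 0) ≤ l.length := by
  rw [sum_boole]
  have h1 : (range p).filter (fun x => Hit p x l) ⊆ (l.map (fun y => y % p)).toFinset := by
    intro x hx
    rw [mem_filter, mem_range] at hx
    obtain ⟨hxp, y, hy, hxy⟩ := hx
    rw [List.mem_toFinset, List.mem_map]
    exact ⟨y, hy, by rw [← hxy, Nat.mod_eq_of_lt hxp]⟩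
  have h2 := card_le_card h1
  have h3 := List.toFinset_card_le (l.map (fun y => y % p))
  rw [List.length_map] at h3
  exact_mod_cast h2.trans h3

lemma Hit_congr (p : ℕ) (l : List ℕ) (x y : ℕ) (h : x % p = y % p) : Hit p x l ↔ Hit p y l := by
  unfold Hit
  rw [h]

lemma count_hit (T : Finset ℕ) (hT : ∀ p ∈ T, p.Prime) (l : List ℕ) (L : ℕ) :
    (∑ x ∈ range L, ∏ p ∈ T, if Hit p x l then (1 : ℝ) else 0) ≤
      ((L : ℝ) / (∏ p ∈ T, (p : ℝ)) + 1) * (l.length : ℝ) ^ T.card := by
  have hpos : 1 ≤ ∏ p ∈ T, p := by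
    apply Nat.succ_le_of_lt
    exact prod_pos fun q hq => (hT q hq).pos
  have hmod : ∀ (p : ℕ) (n : ℤ) , 1 ≤ p → ((n + (p : ℤ)) % (p : ℤ)).toNat = (n % (p : ℤ)).toNat := by
    intro p n _
    rw [Int.add_emod_right]
  have h1 := sum_le_periods
    (fun n : ℤ => ∏ p ∈ T, if Hit p ((n % ((∏ p ∈ T, p : ℕ) : ℤ)).toNat) l then (1 : ℝ) else 0)
    (fun n => prod_nonneg fun p _ => by split_ifs <;> norm_num) (∏ p ∈ T, p) hpos
    (fun n => by rw [hmod _ _ hpos]) 0 L
  have h2 : ∀ x : ℕ, ∀ p ∈ T,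
      (if Hit p (((0 + x : ℤ) % ((∏ p ∈ T, p : ℕ) : ℤ)).toNat) l then (1 : ℝ) else 0) =
      if Hit p x l then (1 : ℝ) else 0 := by
    intro x p hp
    rw [zero_add]
    have e1 : ((x : ℤ) % ((∏ p ∈ T, p : ℕ) : ℤ)).toNat = x % ∏ p ∈ T, p := by
      rw [← Int.natCast_mod, Int.toNat_natCast]
    have e2 : (x % ∏ p ∈ T, p) % p = x % p := Nat.mod_mod_of_dvd _ (dvd_prod_of_mem _ hp)
    rw [e1]
    simp only [Hit_congr p l _ _ e2]
  have h3 : ∑ x ∈ range L, ∏ p ∈ T, (if Hit p x l then (1 : ℝ) else 0) =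
      ∑ x ∈ range L, ∏ p ∈ T,
      (if Hit p (((0 + x : ℤ) % ((∏ p ∈ T, p : ℕ) : ℤ)).toNat) l then (1 : ℝ) else 0) := by
    apply sum_congr rfl
    intro x _
    exact (prod_congr rfl (h2 x)).symm
  have h4 : ∑ x ∈ range (∏ p ∈ T, p), ∏ p ∈ T,
      (if Hit p (((x : ℤ) % ((∏ p ∈ T, p : ℕ) : ℤ)).toNat) l then (1 : ℝ) else 0) =
      ∏ p ∈ T, ∑ x ∈ range p, (if Hit p x l then (1 : ℝ) else 0) := by
    rw [← sum_fprod' T hT (fun p x => if Hit p x l then (1 : ℝ) else 0) (by
      intro p _ x y hxy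
      simp only [Hit_congr p l x y hxy])]
    apply sum_congr rfl
    intro x _
    apply prod_congr rfl
    intro p hp
    have := h2 x p hp
    rwa [zero_add] at this
  rw [h3]
  refine h1.trans ?_
  rw [h4]
  push_cast
  apply mul_le_mul_of_nonneg_left _ (by positivity)
  calc ∏ p ∈ T, ∑ x ∈ range p, (if Hit p x l then (1 : ℝ) else 0) ≤ ∏ p ∈ T, (l.length : ℝ) := by
        apply prod_le_prod
        · intro p _
          apply sum_nonneg
          intro x _
          split_ifs <;> norm_num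
        · intro p _
          exact card_hit p l
    _ = _ := by rw [prod_const]

/-- the sum over one variable -/
lemma sum_one (α : ℝ) (hα : 0 ≤ α) (hα1 : α ≤ 1) (S : Finset ℕ) (hS : ∀ p ∈ S, p.Prime)
    (l : List ℕ) (L k : ℕ) (hl : l.length ≤ k) :
    (∑ x ∈ range L, ∏ p ∈ S, if Hit p x l then (p : ℝ) ^ α else 1) ≤
      (1 + k : ℝ) ^ S.card * (L + (∏ p ∈ S, (p : ℝ)) ^ α) := by
  classical
  have h1 : ∀ x ∈ range L, (∏ p ∈ S, if Hit p x l then (p : ℝ) ^ α else 1) ≤
      ∑ T ∈ S.powerset, (∏ p ∈ T, (p : ℝ)) ^ α * ∏ p ∈ T, (if Hit p x l then (1 : ℝ) else 0) := by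
    intro x _
    have e1 : (∏ p ∈ S, if Hit p x l then (p : ℝ) ^ α else 1) ≤
        ∏ p ∈ S, (1 + (p : ℝ) ^ α * (if Hit p x l then (1 : ℝ) else 0)) := by
      apply prod_le_prod
      · intro p _
        split_ifs <;> positivity
      · intro p _
        have : 0 ≤ (p : ℝ) ^ α := by positivity
        split_ifs <;> linarith
    refine e1.trans (le_of_eq ?_)
    rw [prod_one_add]
    apply sum_congr rfl
    intro T _
    rw [prod_mul_distrib, Real.finsetProd_rpow _ _ (fun p _ => Nat.cast_nonneg p)]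
  refine (sum_le_sum h1).trans ?_
  rw [sum_comm]
  have h2 : ∀ T ∈ S.powerset, ∑ x ∈ range L,
      (∏ p ∈ T, (p : ℝ)) ^ α * ∏ p ∈ T, (if Hit p x l then (1 : ℝ) else 0) ≤
      (k : ℝ) ^ T.card * (L + (∏ p ∈ S, (p : ℝ)) ^ α) := by
    intro T hT
    rw [mem_powerset] at hT
    have hTp : ∀ p ∈ T, p.Prime := fun p hp => hS p (hT hp)
    rw [← mul_sum]
    have e1 := count_hit T hTp l L
    have e2 : 1 ≤ ∏ p ∈ T, (p : ℝ) := fprod_ge_one T fun p hp => (hTp p hp).one_le
    have e3 : (∏ p ∈ T, (p : ℝ)) ^ α ≤ ∏ p ∈ T, (p : ℝ) := by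
      conv_rhs => rw [← Real.rpow_one (∏ p ∈ T, (p : ℝ))]
      exact Real.rpow_le_rpow_of_exponent_le e2 hα1
    have e4 : (∏ p ∈ T, (p : ℝ)) ^ α ≤ (∏ p ∈ S, (p : ℝ)) ^ α := by
      apply Real.rpow_le_rpow (by linarith) _ hα
      exact fprod_mono T S (fun p hp => (hS p hp).one_le) hT
    have e5 : (l.length : ℝ) ^ T.card ≤ (k : ℝ) ^ T.card :=
      pow_le_pow_left₀ (Nat.cast_nonneg _) (by exact_mod_cast hl) _
    have e6 : 0 ≤ (∏ p ∈ T, (p : ℝ)) ^ α := by positivity
    have e7 : (∏ p ∈ T, (p : ℝ)) ^ α * ((L : ℝ) / (∏ p ∈ T, (p : ℝ)) + 1) ≤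
        L + (∏ p ∈ S, (p : ℝ)) ^ α := by
      have : (∏ p ∈ T, (p : ℝ)) ^ α * ((L : ℝ) / (∏ p ∈ T, (p : ℝ))) ≤ L := by
        rw [← mul_div_assoc, div_le_iff₀ (by linarith), mul_comm]
        exact mul_le_mul_of_nonneg_left e3 (Nat.cast_nonneg L)
      linarith
    calc _ ≤ (∏ p ∈ T, (p : ℝ)) ^ α *
          (((L : ℝ) / (∏ p ∈ T, (p : ℝ)) + 1) * (l.length : ℝ) ^ T.card) :=
          mul_le_mul_of_nonneg_left e1 e6
      _ = (l.length : ℝ) ^ T.card *
          ((∏ p ∈ T, (p : ℝ)) ^ α * ((L : ℝ) / (∏ p ∈ T, (p : ℝ)) + 1)) := by ring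
      _ ≤ (k : ℝ) ^ T.card * (L + (∏ p ∈ S, (p : ℝ)) ^ α) := by
          apply mul_le_mul e5 e7 _ (by positivity)
          have : 0 < ∏ p ∈ T, (p : ℝ) := by linarith
          positivity
  refine (sum_le_sum h2).trans (le_of_eq ?_)
  rw [← sum_mul]
  congr 1
  have h3 := Finset.prod_one_add (f := fun _ : ℕ => (k : ℝ)) (s := S)
  rw [prod_const] at h3
  rw [h3]
  apply sum_congr rfl
  intro T _
  rw [prod_const]

/-- the sum over all lists -/
lemma nsum_wt (α : ℝ) (hα : 0 ≤ α) (hα1 : α ≤ 1) (S : Finset ℕ) (hS : ∀ p ∈ S, p.Prime)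
    (L k : ℕ) : ∀ r : ℕ, r ≤ k + 1 → nsum L r (wt α S) ≤
      ((1 + k : ℝ) ^ S.card * (L + (∏ p ∈ S, (p : ℝ)) ^ α)) ^ r := by
  intro r
  induction r with
  | zero => intro _; simp [nsum, wt]
  | succ r ih =>
    intro hr
    show ∑ x ∈ range L, nsum L r (fun l => (∏ p ∈ S, if Hit p x l then (p : ℝ) ^ α else 1) * wt α S l)
      ≤ _
    rw [nsum_sum]
    have hw0 : ∀ l, 0 ≤ wt α S l := by
      intro l
      rw [wt_eq α S (fun p hp => (hS p hp).one_le)]
      exact prod_nonneg fun p _ => by positivity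
    have h1 : nsum L r (fun l => ∑ x ∈ range L,
        (∏ p ∈ S, if Hit p x l then (p : ℝ) ^ α else 1) * wt α S l) ≤
        nsum L r (fun l => ((1 + k : ℝ) ^ S.card * (L + (∏ p ∈ S, (p : ℝ)) ^ α)) * wt α S l) := by
      apply nsum_mono
      intro l hl
      rw [← sum_mul]
      apply mul_le_mul_of_nonneg_right _ (hw0 l)
      exact sum_one α hα hα1 S hS l L k (by omega)
    refine h1.trans ?_
    rw [nsum_mul, pow_succ']
    apply mul_le_mul_of_nonneg_left (ih (by omega)) (by positivity)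

end Pool.Agent.H18.CS
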