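import Pool.Agent.H18.CS.Complete
import Pool.Graph.R_pool_sql_team_seeded_b0a926ef.R524.Cubic.Cond

set_option autoImplicit false

/-!
The decomposition of a primitive cubic character.
-/

namespace Pool.Agent.H18.CS

open Finset

/-- the first factor -/
noncomputable def fstChar {a b : ℕ} (h : a.Coprime b) (χ : DirichletCharacter ℂ (a * b)) :
    DirichletCharacter ℂ a where
  toFun x := χ ((ZMod.chineseRemainder h).symm (x, 1))
  map_one' := by
    have : ((1 : ZMod a), (1 : ZMod b)) = 1 := rfl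
    rw [this, map_one, map_one]
  map_mul' x y := by
    have : ((x * y : ZMod a), (1 : ZMod b)) = (x, 1) * (y, 1) := by
      rw [Prod.mk_mul_mk, one_mul]
    rw [this, map_mul, map_mul]
  map_nonunit' x hx := by
    apply χ.map_nonunit
    intro hu
    apply hx
    have h1 : IsUnit ((ZMod.chineseRemainder h) ((ZMod.chineseRemainder h).symm (x, 1))) := hu.map _
    rw [RingEquiv.apply_symm_apply, Prod.isUnit_iff] at h1
    exact h1.1

/-- the second factor -/
noncomputable def sndChar {a b : ℕ} (h : a.Coprime b) (χ : DirichletCharacter ℂ (a * b)) :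
    DirichletCharacter ℂ b where
  toFun x := χ ((ZMod.chineseRemainder h).symm (1, x))
  map_one' := by
    have : ((1 : ZMod a), (1 : ZMod b)) = 1 := rfl
    rw [this, map_one, map_one]
  map_mul' x y := by
    have : ((1 : ZMod a), (x * y : ZMod b)) = (1, x) * (1, y) := by
      rw [Prod.mk_mul_mk, one_mul]
    rw [this, map_mul, map_mul]
  map_nonunit' x hx := by
    apply χ.map_nonunit
    intro hu
    apply hx
    have h1 : IsUnit ((ZMod.chineseRemainder h) ((ZMod.chineseRemainder h).symm (1, x))) := hu.map _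
    rw [RingEquiv.apply_symm_apply, Prod.isUnit_iff] at h1
    exact h1.2

lemma fstChar_apply {a b : ℕ} (h : a.Coprime b) (χ : DirichletCharacter ℂ (a * b)) (x : ZMod a) :
    fstChar h χ x = χ ((ZMod.chineseRemainder h).symm (x, 1)) := rfl

lemma sndChar_apply {a b : ℕ} (h : a.Coprime b) (χ : DirichletCharacter ℂ (a * b)) (x : ZMod b) :
    sndChar h χ x = χ ((ZMod.chineseRemainder h).symm (1, x)) := rfl

lemma split_apply {a b : ℕ} (h : a.Coprime b) (χ : DirichletCharacter ℂ (a * b)) (n : ℤ) :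
    χ (n : ZMod (a * b)) = fstChar h χ (n : ZMod a) * sndChar h χ (n : ZMod b) := by
  rw [fstChar_apply, sndChar_apply, ← map_mul, ← map_mul, Prod.mk_mul_mk, mul_one, one_mul]
  congr 1
  rw [RingEquiv.eq_symm_apply]
  rw [map_intCast]
  rfl

lemma cube_one {m : ℕ} (χ : DirichletCharacter ℂ m) :
    χ ^ 3 = 1 ↔ ∀ x : ZMod m, IsUnit x → χ x ^ 3 = 1 := by
  constructor
  · intro h x hx
    rw [← MulChar.pow_apply' χ (by norm_num : (3 : ℕ) ≠ 0), h, MulChar.one_apply hx]
  · intro h
    ext u
    rw [MulChar.pow_apply' χ (by norm_num : (3 : ℕ) ≠ 0), h u u.isUnit, MulChar.one_apply_coe]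

lemma fst_cube {a b : ℕ} (h : a.Coprime b) (χ : DirichletCharacter ℂ (a * b)) (h3 : χ ^ 3 = 1) :
    fstChar h χ ^ 3 = 1 := by
  rw [cube_one] at h3 ⊢
  intro x hx
  rw [fstChar_apply]
  apply h3
  have : IsUnit ((x, 1) : ZMod a × ZMod b) := Prod.isUnit_iff.mpr ⟨hx, isUnit_one⟩
  exact this.map _

lemma snd_cube {a b : ℕ} (h : a.Coprime b) (χ : DirichletCharacter ℂ (a * b)) (h3 : χ ^ 3 = 1) :
    sndChar h χ ^ 3 = 1 := by
  rw [cube_one] at h3 ⊢
  intro x hx
  rw [sndChar_apply]
  apply h3
  have : IsUnit ((1, x) : ZMod a × ZMod b) := Prod.isUnit_iff.mpr ⟨isUnit_one, hx⟩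
  exact this.map _

lemma split_eq {a b : ℕ} (h : a.Coprime b) (χ : DirichletCharacter ℂ (a * b)) :
    χ = DirichletCharacter.changeLevel (dvd_mul_right a b) (fstChar h χ) *
      DirichletCharacter.changeLevel (dvd_mul_left b a) (sndChar h χ) := by
  ext u
  obtain ⟨n, hn⟩ := ZMod.intCast_surjective (u : ZMod (a * b))
  have hcop : IsCoprime n ((a * b : ℕ) : ℤ) := by
    have : IsUnit (n : ZMod (a * b)) := by rw [hn]; exact u.isUnit
    rwa [ZMod.coe_int_isUnit_iff_isCoprime, isCoprime_comm] at this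
  rw [MulChar.mul_apply, ← hn,
    DirichletCharacter.changeLevel_eq_cast_of_dvd' _ (dvd_mul_right a b) hcop,
    DirichletCharacter.changeLevel_eq_cast_of_dvd' _ (dvd_mul_left b a) hcop]
  exact split_apply h χ n

lemma fst_factors {a b : ℕ} (h : a.Coprime b) (χ : DirichletCharacter ℂ (a * b)) (d : ℕ)
    (hd : (fstChar h χ).FactorsThrough d) : χ.FactorsThrough (d * b) := by
  obtain ⟨hda, ψ, hψ⟩ := hd
  refine ⟨Nat.mul_dvd_mul_right hda b, DirichletCharacter.changeLevel (dvd_mul_right d b) ψ *
    DirichletCharacter.changeLevel (dvd_mul_left b d) (sndChar h χ), ?_⟩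
  rw [map_mul, ← DirichletCharacter.changeLevel_trans, ← DirichletCharacter.changeLevel_trans]
  conv_lhs => rw [split_eq h χ, hψ, ← DirichletCharacter.changeLevel_trans]

lemma snd_factors {a b : ℕ} (h : a.Coprime b) (χ : DirichletCharacter ℂ (a * b)) (d : ℕ)
    (hd : (sndChar h χ).FactorsThrough d) : χ.FactorsThrough (a * d) := by
  obtain ⟨hda, ψ, hψ⟩ := hd
  refine ⟨Nat.mul_dvd_mul_left a hda, DirichletCharacter.changeLevel (dvd_mul_right a d) (fstChar h χ) *
    DirichletCharacter.changeLevel (dvd_mul_left d a) ψ, ?_⟩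
  rw [map_mul, ← DirichletCharacter.changeLevel_trans, ← DirichletCharacter.changeLevel_trans]
  conv_lhs => rw [split_eq h χ, hψ, ← DirichletCharacter.changeLevel_trans]

/-- no prime can be removed -/
def NF {m : ℕ} (χ : DirichletCharacter ℂ m) : Prop :=
  ∀ p : ℕ, p.Prime → p ∣ m → ¬ χ.FactorsThrough (m / p)

lemma NF_of_primitive {m : ℕ} (hm : 1 ≤ m) (χ : DirichletCharacter ℂ m) (h : χ.IsPrimitive) :
    NF χ := by
  intro p hp hpm hf
  have h1 : χ.conductor ≤ m / p := Nat.sInf_le ((DirichletCharacter.mem_conductorSet_iff χ).mpr hf)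
  rw [(DirichletCharacter.isPrimitive_def _).mp h] at h1
  have := Nat.div_lt_self (by omega : 0 < m) hp.one_lt
  omega

lemma NF.fst {a b : ℕ} (h : a.Coprime b) {χ : DirichletCharacter ℂ (a * b)} (hχ : NF χ) :
    NF (fstChar h χ) := by
  intro p hp hpa hf
  apply hχ p hp (hpa.mul_right b)
  have := fst_factors h χ _ hf
  rwa [Nat.div_mul_right_comm hpa] at this

lemma NF.snd {a b : ℕ} (h : a.Coprime b) {χ : DirichletCharacter ℂ (a * b)} (hχ : NF χ) :
    NF (sndChar h χ) := by
  intro p hp hpa hf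
  apply hχ p hp (hpa.mul_left a)
  have := snd_factors h χ _ hf
  rwa [← Nat.mul_div_assoc a hpa] at this

/-- the decomposition for squarefree moduli -/
theorem decomp_sqfree (m : ℕ) : 1 ≤ m → Squarefree m → 
    ∀ χ : DirichletCharacter ℂ m, χ ^ 3 = 1 → NF χ →
    ∃ ψ : (p : ℕ) → MulChar (ZMod p) ℂ, (∀ p ∈ m.primeFactors, ψ p ≠ 1 ∧ ψ p ^ 3 = 1) ∧
      ∀ n : ℤ, χ (n : ZMod m) = ∏ p ∈ m.primeFactors, ψ p (n : ZMod p) := by
  classical
  induction m using Nat.strong_induction_on with
  | _ m ih =>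
    intro hm hsq χ h3 hNF
    rcases Nat.eq_or_lt_of_le hm with h1 | h1
    · subst h1
      refine ⟨fun p => 1, by simp, ?_⟩
      intro n
      rw [DirichletCharacter.level_one χ, Nat.primeFactors_one, prod_empty]
      apply MulChar.one_apply
      rw [Subsingleton.elim (n : ZMod 1) 1]
      exact isUnit_one
    · set p := m.minFac with hpdef
      have hp : p.Prime := Nat.minFac_prime (by omega)
      obtain ⟨b, hb⟩ : p ∣ m := Nat.minFac_dvd m
      clear_value p
      clear hpdef
      subst hb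
      have hco : p.Coprime b := Nat.coprime_of_squarefree_mul hsq
      have hb1 : 1 ≤ b := by
        rcases Nat.eq_zero_or_pos b with h | h
        · subst h; omega
        · exact h
      have hlt : b < p * b := by
        have := hp.two_le
        nlinarith
      obtain ⟨ψ, hψ1, hψ2⟩ := ih b hlt hb1 (hsq.of_mul_right) (sndChar hco χ) (snd_cube hco χ h3)
        (hNF.snd hco)
      have hpb : p ∉ b.primeFactors := by
        intro hmem
        have := Nat.dvd_of_mem_primeFactors hmem
        exact (Nat.Prime.coprime_iff_not_dvd hp).mp hco this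
      have hpf : (p * b).primeFactors = insert p b.primeFactors := by
        rw [Nat.Coprime.primeFactors_mul hco, hp.primeFactors]
        rfl
      refine ⟨Function.update ψ p (fstChar hco χ), ?_, ?_⟩
      · intro r hr
        rw [hpf, mem_insert] at hr
        by_cases hrp : r = p
        · subst hrp
          rw [Function.update_self]
          refine ⟨?_, fst_cube hco χ h3⟩
          intro h1
          have := (hNF.fst hco) r hp (dvd_refl r)
          apply this
          rw [Nat.div_self hp.pos, DirichletCharacter.factorsThrough_one_iff]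
          exact h1
        · rw [Function.update_of_ne hrp]
          exact hψ1 r (by tauto)
      · intro n
        rw [hpf, prod_insert hpb, Function.update_self, split_apply hco, hψ2]
        congr 1
        apply prod_congr rfl
        intro r hr
        have : r ≠ p := by rintro rfl; exact hpb hr
        rw [Function.update_of_ne this]


lemma squarefree_of_good {s : ℕ} (_hs : 1 ≤ s) (h : ∀ p : ℕ, p.Prime → ¬ p ^ 2 ∣ s) : Squarefree s := by
  rw [Nat.squarefree_iff_prime_squarefree]
  intro p hp hpp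
  exact h p hp (by rwa [pow_two])

/-- the decomposition -/
theorem decomp {q : ℕ} (hq : 1 ≤ q) (χ : DirichletCharacter ℂ q) (h3 : χ ^ 3 = 1)
    (hprim : χ.IsPrimitive) :
    ∃ (s : Finset ℕ) (f : ℤ → ℂ) (ψ : (p : ℕ) → MulChar (ZMod p) ℂ),
      (∀ p ∈ s, p.Prime ∧ p % 3 = 1 ∧ p ∣ q ∧ ψ p ≠ 1 ∧ ψ p ^ 3 = 1) ∧ B1 f ∧ Per 9 f ∧
      (∀ n : ℤ, χ (n : ZMod q) = f n * ∏ p ∈ s, ψ p (n : ZMod p)) ∧
      q ≤ 9 * ∏ p ∈ s, p := by
  have hgood := Pool.Agent.R524.Cubic.good_of_primitive (by omega : q ≠ 0) χ h3 hprim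
  have hNF := NF_of_primitive hq χ hprim
  by_cases h3q : 3 ∣ q
  · have h9 : 9 ∣ q ∧ ¬ 27 ∣ q := by
      rcases hgood 3 Nat.prime_three h3q with h | h
      · omega
      · exact ⟨h.2.1, h.2.2⟩
    obtain ⟨⟨s, hs⟩, h27⟩ := h9
    subst hs
    have hs1 : 1 ≤ s := by omega
    have hs3 : ¬ 3 ∣ s := fun ⟨t, ht⟩ => h27 ⟨t, by rw [ht]; ring⟩
    have hco : Nat.Coprime 9 s := by
      rw [show 9 = 3 ^ 2 by norm_num]
      apply Nat.Coprime.pow_left
      exact (Nat.Prime.coprime_iff_not_dvd Nat.prime_three).mpr hs3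
    have hsq : Squarefree s := by
      apply squarefree_of_good hs1
      intro p hp hpp
      have hps : p ∣ s := (dvd_pow_self p (by norm_num)).trans hpp
      rcases hgood p hp (hps.mul_left 9) with h | h
      · exact h.2 (hpp.mul_left 9)
      · exact hs3 (h.1 ▸ hps)
    obtain ⟨ψ, hψ1, hψ2⟩ := decomp_sqfree s hs1 hsq (sndChar hco χ) (snd_cube hco χ h3) (hNF.snd hco)
    refine ⟨s.primeFactors, fun n => fstChar hco χ (n : ZMod 9), ψ, ?_, ?_, ?_, ?_, ?_⟩
    · intro p hp
      have hpp := Nat.prime_of_mem_primeFactors hp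
      have hps := Nat.dvd_of_mem_primeFactors hp
      refine ⟨hpp, ?_, hps.mul_left 9, hψ1 p hp⟩
      rcases hgood p hpp (hps.mul_left 9) with h | h
      · exact h.1
      · exact absurd (h.1 ▸ hps) hs3
    · intro n
      exact DirichletCharacter.norm_le_one _ _
    · intro n
      push_cast
      have : (9 : ZMod 9) = 0 := by decide
      rw [this, add_zero]
    · intro n
      rw [split_apply hco, hψ2]
    · rw [Nat.prod_primeFactors_of_squarefree hsq]
  · have hsq : Squarefree q := by
      apply squarefree_of_good hq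
      intro p hp hpp
      have hps : p ∣ q := (dvd_pow_self p (by norm_num)).trans hpp
      rcases hgood p hp hps with h | h
      · exact h.2 hpp
      · exact h3q (h.1 ▸ hps)
    obtain ⟨ψ, hψ1, hψ2⟩ := decomp_sqfree q hq hsq χ h3 hNF
    refine ⟨q.primeFactors, 1, ψ, ?_, B1_one, fun n => rfl, ?_, ?_⟩
    · intro p hp
      have hpp := Nat.prime_of_mem_primeFactors hp
      have hps := Nat.dvd_of_mem_primeFactors hp
      refine ⟨hpp, ?_, hps, hψ1 p hp⟩
      rcases hgood p hpp hps with h | h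
      · exact h.1
      · exact absurd (h.1 ▸ hps) h3q
    · intro n
      rw [hψ2, Pi.one_apply, one_mul]
    · rw [Nat.prod_primeFactors_of_squarefree hsq]
      omega

end Pool.Agent.H18.CS
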